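import Pool.Agent.Lib.MP_446a91_nt.DD.Lie
import Pool.Agent.Lib.MP_446a91_nt.DD.LieEq

/-! Lie polynomials modulo `2` and the square of the second letter (MP_446a91_nt). -/

namespace Pool.Agent.Lib.MP_446a91_nt

noncomputable section

section cm
variable {R : Type} [Ring R]

@[simp] theorem cm_self (u : R) : cm u u = 0 := by simp [cm]
@[simp] theorem cm_zero_left (u : R) : cm 0 u = 0 := by simp [cm]
@[simp] theorem cm_zero_right (u : R) : cm u 0 = 0 := by simp [cm]
theorem cm_add_left (u v w : R) : cm (u + v) w = cm u w + cm v w := by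
  simp only [cm]; noncomm_ring
theorem cm_add_right (u v w : R) : cm u (v + w) = cm u v + cm u w := by
  simp only [cm]; noncomm_ring
theorem cm_neg_left (u v : R) : cm (-u) v = -cm u v := by simp only [cm]; noncomm_ring
theorem cm_neg_right (u v : R) : cm u (-v) = -cm u v := by simp only [cm]; noncomm_ring
theorem cm_swap (u v : R) : cm u v = -cm v u := by simp only [cm]; noncomm_ring
theorem cm_leibniz (z u v : R) : cm z (cm u v) = cm (cm z u) v + cm u (cm z v) := by
  simp only [cm]; noncomm_ring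

end cm

/-- Weights of `X = x²`, `c = [x, y]`, `d = [x, c]`. -/
def w3 : Fin 3 → ℕ := ![2, 2, 3]

/-- Evaluation at `x²`, `[x, y]`, `[x, [x, y]]`. -/
def e3 {R : Type} [Ring R] (x y : R) : W ℤ (Fin 3) →+* R := evZ ![x * x, cm x y, cm x (cm x y)]

/-- The polynomial dies when the last two letters do. -/
def Zq (q : W ℤ (Fin 3)) : Prop := ∀ (R : Type) [Ring R] (z : R), evZ ![z, 0, 0] q = 0

theorem Zq.zero : Zq 0 := fun _ _ _ => map_zero _
theorem Zq.add {p q} (h : Zq p) (h' : Zq q) : Zq (p + q) := fun R _ z => by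
  rw [map_add, h, h', add_zero]
theorem Zq.neg {p} (h : Zq p) : Zq (-p) := fun R _ z => by rw [map_neg, h, neg_zero]
theorem Zq.cm_left {p} (h : Zq p) (q) : Zq (cm p q) := fun R _ z => by
  rw [map_cm, h, cm_zero_left]
theorem Zq.cm_right {p} (h : Zq p) (q) : Zq (cm q p) := fun R _ z => by
  rw [map_cm, h, cm_zero_right]

theorem tilde_step (i : Fin 2) {k : ℕ} {q : W ℤ (Fin 3)} (hq : q ∈ Sp lt w3 k) :
    ∃ q' ∈ Sp lt w3 (k + 1), Zq q' ∧ ∀ (R : Type) [Ring R] (x y : R), (2 : R) = 0 →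
      cm y (cm x y) = 0 → cm (![x, y] i) (e3 x y q) = e3 x y q' := by
  refine Sp_induction (P := fun q => ∃ q' ∈ Sp lt w3 (k + 1), Zq q' ∧ ∀ (R : Type) [Ring R]
    (x y : R), (2 : R) = 0 → cm y (cm x y) = 0 → cm (![x, y] i) (e3 x y q) = e3 x y q') hq
    (fun u hu => ?_) ⟨0, zero_mem _, Zq.zero, fun _ _ _ _ _ _ => by simp⟩ ?_ ?_
  · clear hq
    induction hu with
    | of s =>
      have zd : Zq (lt 2) := fun R _ z => by simp
      have zc : Zq (lt 1) := fun R _ z => by simp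
      fin_cases i <;> fin_cases s
      · exact ⟨0, zero_mem _, Zq.zero, fun R _ x y _ _ => by simp [e3, cm, mul_assoc]⟩
      · exact ⟨lt 2, gen_mem lt w3 2, zd, fun R _ x y _ _ => by simp [e3]⟩
      · refine ⟨cm (lt 0) (lt 1), cm_mem (m := 2) (n := 2) (gen_mem lt w3 0) (gen_mem lt w3 1),
          zc.cm_right _,
          fun R _ x y h2 _ => ?_⟩
        rw [map_cm]
        simp only [e3, evZ_lt, Fin.zero_eta, Fin.reduceFinMk, Matrix.cons_val]
        generalize cm x y = c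
        simp only [cm]
        linear_combination (norm := noncomm_ring) h2 * (c * x * x - x * c * x)
      · refine ⟨lt 2, gen_mem lt w3 2, zd, fun R _ x y h2 _ => ?_⟩
        simp only [e3, evZ_lt, Fin.zero_eta, Fin.mk_one, Matrix.cons_val, cm]
        linear_combination (norm := noncomm_ring) h2 * (x * y * x - x * x * y)
      · exact ⟨0, zero_mem _, Zq.zero, fun R _ x y _ h => by simpa [e3] using h⟩
      · refine ⟨0, zero_mem _, Zq.zero, fun R _ x y _ h => ?_⟩
        simp only [e3, evZ_lt, Fin.mk_one, Fin.reduceFinMk, Matrix.cons_val, map_zero]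
        rw [cm_leibniz, h, cm_swap y x, cm_neg_left, cm_self]; simp
    | @lie a b u v hu hv h1 h2 =>
      obtain ⟨u', m1, z1, e1⟩ := h1
      obtain ⟨v', m2, z2, e2⟩ := h2
      refine ⟨cm u' v + cm u v', add_mem ?_ ?_, (z1.cm_left _).add (z2.cm_right _),
        fun R _ x y h2 h => ?_⟩
      · simpa [add_right_comm] using cm_mem m1 hv.mem
      · simpa [add_assoc] using cm_mem hu.mem m2
      · rw [map_cm, cm_leibniz, e1 R x y h2 h, e2 R x y h2 h, map_add, map_cm, map_cm]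
  · rintro u v ⟨u', m1, z1, e1⟩ ⟨v', m2, z2, e2⟩
    exact ⟨u' + v', add_mem m1 m2, z1.add z2, fun R _ x y h2 h => by
      rw [map_add, cm_add_right, e1 R x y h2 h, e2 R x y h2 h, map_add]⟩
  · rintro u ⟨u', m1, z1, e1⟩
    exact ⟨-u', neg_mem m1, z1.neg, fun R _ x y h2 h => by
      rw [map_neg, cm_neg_right, e1 R x y h2 h, map_neg]⟩

theorem tilde {n : ℕ} (hn : 2 ≤ n) {p : W ℤ (Fin 2)} (hp : p ∈ L2 n) :
    ∃ q ∈ Sp lt w3 n, Zq q ∧ ∀ (R : Type) [Ring R] (x y : R), (2 : R) = 0 →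
      cm y (cm x y) = 0 → ev2 x y p = e3 x y q := by
  have key : ∀ k u, Br (lt : Fin 2 → W ℤ (Fin 2)) (fun _ => 1) k u →
      (k = 1 ∧ ∃ i, u = lt i) ∨ ∃ q ∈ Sp lt w3 k, Zq q ∧ ∀ (R : Type) [Ring R] (x y : R),
        (2 : R) = 0 → cm y (cm x y) = 0 → ev2 x y u = e3 x y q := by
    intro k u hu
    induction hu with
    | of i => exact Or.inl ⟨rfl, i, rfl⟩
    | @lie a b u v _ _ h1 h2 =>
      right
      have zc : Zq (lt 1) := fun R _ z => by simp
      rcases h1 with ⟨rfl, i, rfl⟩ | ⟨q, m1, z1, e1⟩ <;>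
        rcases h2 with ⟨rfl, j, rfl⟩ | ⟨q', m2, z2, e2⟩
      · fin_cases i <;> fin_cases j
        · exact ⟨0, zero_mem _, Zq.zero, fun R _ x y _ _ => by simp⟩
        · exact ⟨lt 1, gen_mem lt w3 1, zc, fun R _ x y _ _ => by simp [map_cm, e3]⟩
        · exact ⟨-lt 1, neg_mem (gen_mem lt w3 1), zc.neg, fun R _ x y _ _ => by
            simp [map_cm, e3, cm_swap y x]⟩
        · exact ⟨0, zero_mem _, Zq.zero, fun R _ x y _ _ => by simp⟩
      · obtain ⟨r, m, z, e⟩ := tilde_step i m2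
        refine ⟨r, by rwa [add_comm], z, fun R _ x y h2 h => ?_⟩
        rw [map_cm, e2 R x y h2 h, ← e R x y h2 h, ev2, evZ_lt]
      · obtain ⟨r, m, z, e⟩ := tilde_step j m1
        refine ⟨-r, neg_mem m, z.neg, fun R _ x y h2 h => ?_⟩
        rw [map_cm, e1 R x y h2 h, map_neg, ← e R x y h2 h, ev2, evZ_lt, cm_swap]
      · exact ⟨cm q q', cm_mem m1 m2, z1.cm_left _, fun R _ x y h2 h => by
          rw [map_cm, map_cm, e1 R x y h2 h, e2 R x y h2 h]⟩
  refine Sp_induction (P := fun p => ∃ q ∈ Sp lt w3 n, Zq q ∧ ∀ (R : Type) [Ring R] (x y : R),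
    (2 : R) = 0 → cm y (cm x y) = 0 → ev2 x y p = e3 x y q) hp (fun u hu => ?_)
    ⟨0, zero_mem _, Zq.zero, fun _ _ _ _ _ _ => by simp⟩ ?_ ?_
  · rcases key n u hu with ⟨h, -⟩ | h
    exacts [by omega, h]
  · rintro u v ⟨u', m1, z1, e1⟩ ⟨v', m2, z2, e2⟩
    exact ⟨u' + v', add_mem m1 m2, z1.add z2, fun R _ x y h2 h => by
      rw [map_add, e1 R x y h2 h, e2 R x y h2 h, map_add]⟩
  · rintro u ⟨u', m1, z1, e1⟩
    exact ⟨-u', neg_mem m1, z1.neg, fun R _ x y h2 h => by
      rw [map_neg, e1 R x y h2 h, map_neg]⟩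

section elim
variable {R : Type} [Ring R] (c d : R)

theorem cm_c_mem {k : ℕ} {v : R} (hv : v ∈ Sp (sgen c d) (fun i => 2 * i + 3) k) :
    cm c v ∈ Sp (sgen c d) (fun i => 2 * i + 3) (k + 2) := by
  refine Sp_induction (P := fun v => cm c v ∈ Sp (sgen c d) (fun i => 2 * i + 3) (k + 2)) hv
    (fun u hu => ?_) (by simp) (fun u v h1 h2 => by rw [cm_add_right]; exact add_mem h1 h2)
    (fun u h => by rw [cm_neg_right]; exact neg_mem h)
  clear hv
  induction hu with
  | of i => exact gen_mem (sgen c d) (fun i => 2 * i + 3) (i + 1)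
  | @lie a b u v hu hv h1 h2 =>
    rw [cm_leibniz]
    refine add_mem ?_ ?_
    · simpa [add_right_comm] using cm_mem h1 hv.mem
    · simpa [add_assoc] using cm_mem hu.mem h2

/-- Elimination of the letter of weight two. -/
theorem elim_c {n : ℕ} (hn : 3 ≤ n) {q : R} (hq : q ∈ Sp ![0, c, d] w3 n) :
    q ∈ Sp (sgen c d) (fun i => 2 * i + 3) n := by
  have key : ∀ k u, Br ![0, c, d] w3 k u →
      (k = 2 ∧ u = c) ∨ u ∈ Sp (sgen c d) (fun i => 2 * i + 3) k := by
    intro k u hu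
    induction hu with
    | of s =>
      fin_cases s
      · exact Or.inr (zero_mem _)
      · exact Or.inl ⟨rfl, rfl⟩
      · exact Or.inr (gen_mem (sgen c d) (fun i => 2 * i + 3) 0)
    | @lie a b u v _ _ h1 h2 =>
      right
      rcases h1 with ⟨rfl, rfl⟩ | h1 <;> rcases h2 with ⟨rfl, h2⟩ | h2
      · rw [h2, cm_self]; exact zero_mem _
      · rw [add_comm]; exact cm_c_mem _ d h2
      · rw [h2, cm_swap]; exact neg_mem (cm_c_mem c d h1)
      · exact cm_mem h1 h2
  refine Sp_induction (P := fun q => q ∈ Sp (sgen c d) (fun i => 2 * i + 3) n) hq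
    (fun u hu => ?_) (zero_mem _) (fun _ _ => add_mem) (fun _ => neg_mem)
  rcases key n u hu with ⟨h, -⟩ | h
  exacts [by omega, h]

theorem map_sgen {R' : Type} [Ring R'] (f : R →+* R') (i : ℕ) :
    f (sgen c d i) = sgen (f c) (f d) i := by
  induction i with
  | zero => rfl
  | succ i ih => rw [sgen, sgen, map_cm, ih]

end elim

theorem exists_mot {n : ℕ} (hn : 3 ≤ n) {q : W ℤ (Fin 3)} (hq : q ∈ Sp lt w3 n) :
    ∃ r ∈ Lm n, ∀ (R : Type) [Ring R] (c d : R), evZ ![0, c, d] q = evZ (sgen c d) r := by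
  have h1 := Sp_map (evZ (![0, lt 0, lt 1] : Fin 3 → W ℤ (Fin 2))) hq
  simp only [evZ_lt] at h1
  have h2 := elim_c _ _ hn h1
  have e : sgen (lt 0 : W ℤ (Fin 2)) (lt 1) =
      fun i => evZ (sgen (lt 0 : W ℤ (Fin 2)) (lt 1)) (lt i) := by funext i; simp
  rw [e] at h2
  obtain ⟨r, hr, h3⟩ := Sp_lift _ h2
  refine ⟨r, hr, fun R _ c d => ?_⟩
  have h4 := congrArg (ev2 c d) h3
  rw [map_evZ, map_evZ] at h4
  simp only [map_sgen, ev2_zero, ev2_one] at h4
  rw [h4]
  congr 2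
  funext i; fin_cases i <;> simp

end

end Pool.Agent.Lib.MP_446a91_nt
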