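import Pool.Agent.Lib.MP_446a91_nt.DD.KDefs
import Pool.Agent.Lib.MP_446a91_nt.DD.HoffA

/-! The pentagon implies skew symmetry, the hexagon and the special identity (MP_446a91_nt). -/

namespace Pool.Agent.Lib.MP_446a91_nt

open Module

noncomputable section

/-- The ten generators of the sphere braid algebra on five strands. -/
structure X5 {R : Type} [Ring R] (x12 x13 x14 x15 x23 x24 x25 x34 x35 x45 : R) : Prop where
  rel : Rel5 x12 x23 x34 x45 x15
  e13 : x13 = x45 - x12 - x23
  e24 : x24 = x15 - x23 - x34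
  e35 : x35 = x12 - x34 - x45
  e14 : x14 = x23 - x45 - x15
  e25 : x25 = x34 - x15 - x12

section X5
variable {R : Type} [Ring R] {a1 a2 a3 a4 a5 x12 x13 x14 x15 x23 x24 x25 x34 x35 x45 : R}

theorem Rel5.rot (r : Rel5 a1 a2 a3 a4 a5) : Rel5 a2 a3 a4 a5 a1 :=
  ⟨r.h24, r.h35, r.h41, r.h52, r.h13, by linear_combination (norm := abel) r.hs⟩

theorem Rel5.x5 (r : Rel5 a1 a2 a3 a4 a5) : X5 a1 (a4 - a1 - a2) (a2 - a4 - a5) a5 a2
    (a5 - a2 - a3) (a3 - a5 - a1) a3 (a1 - a3 - a4) a4 := ⟨r, rfl, rfl, rfl, rfl, rfl⟩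

theorem Rel5.of_chord (h13 : a1 * a3 = a3 * a1) (h24 : a2 * a4 = a4 * a2) (h35 : a3 * a5 = a5 * a3)
    (h41 : a4 * a1 = a1 * a4) (h52 : a5 * a2 = a2 * a5)
    (h : cm (a4 - a1 - a2) (a5 - a2 - a3) = 0) : Rel5 a1 a2 a3 a4 a5 :=
  ⟨h13, h24, h35, h41, h52, by
    simp only [cm] at h ⊢
    linear_combination (norm := noncomm_ring) h - h24 - h13 - h52⟩

namespace X5
variable (h : X5 x12 x13 x14 x15 x23 x24 x25 x34 x35 x45)
include h

theorem rot : X5 x23 x24 x25 x12 x34 x35 x13 x45 x14 x15 :=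
  ⟨h.rel.rot, h.e24, h.e35, h.e14, h.e25, h.e13⟩

theorem cA : x45 * x13 = x13 * x45 := by
  rw [h.e13]; linear_combination (norm := noncomm_ring) h.rel.h24 - h.rel.h41

theorem cB : x13 * x24 = x24 * x13 := by
  have := h.rel.hs
  simp only [cm] at this
  rw [h.e13, h.e24]
  linear_combination (norm := noncomm_ring) this + h.rel.h24 + h.rel.h13 + h.rel.h52

theorem swap : X5 x12 x23 x24 x25 x13 x14 x15 x34 x35 x45 := by
  refine ⟨Rel5.of_chord h.rel.h13 h.cA.symm h.rot.rot.rot.rot.cA h.rel.h41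
    h.rot.rot.rot.rot.cB ?_, ?_, ?_, h.e35, ?_, ?_⟩
  · have e1 : x45 - x12 - x13 = x23 := by rw [h.e13]; abel
    have e2 : x25 - x13 - x34 = x14 := by rw [h.e13, h.e25, h.e14]; abel
    rw [e1, e2]
    exact sub_eq_zero.2 h.rot.rot.rot.cA
  · rw [h.e13]; abel
  · rw [h.e13, h.e25, h.e14]; abel
  · rw [h.e13, h.e25, h.e24]; abel
  · rw [h.e25]; abel

theorem sum4 : x45 = -x14 - x24 - x34 := by rw [h.e14, h.e24]; abel

end X5
end X5

variable {K : Type} [CommRing K] {n : ℕ} {p : W K (Fin 2)} {R : Type} [Ring R] [Algebra K R]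

theorem rel5_deg (u v : R) : Rel5 u v u 0 0 :=
  ⟨rfl, by simp, by simp, by simp, by simp, by simp [cm_swap u v]⟩

theorem UPC.skew (h : UPC p) (hn : 2 ≤ n) (hp : p ∈ LK K n) (u v : R) :
    evK u v p = -evK v u p := by
  have := h R _ _ _ _ _ (rel5_deg u v)
  rw [evK_of_comm (u := (0 : R)) (v := 0) rfl hn hp, evK_of_comm (u := (0 : R)) (by simp) hn hp,
    evK_of_comm (v := (0 : R)) (by simp) hn hp] at this
  linear_combination (norm := abel) this

theorem upk_iff_upc (hn : 2 ≤ n) (hp : p ∈ LK K n) : UPK p ↔ UPC p := by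
  constructor
  · intro h R _ _ a1 a2 a3 a4 a5 r
    have sk : ∀ u v : R, evK u v p = -evK v u p := fun u v => by
      have := h R _ _ _ _ _ (rel5_deg u v)
      rw [evK_of_comm (u := (0 : R)) (v := 0) rfl hn hp, evK_of_comm (u := (0 : R)) (by simp) hn hp,
        evK_of_comm (v := (0 : R)) (by simp) hn hp] at this
      linear_combination (norm := abel) -this
    linear_combination (norm := abel) -h R _ _ _ _ _ r + sk a5 a1 + sk a3 a4
  · intro h R _ _ a1 a2 a3 a4 a5 r
    linear_combination (norm := abel) -h R _ _ _ _ _ r + h.skew hn hp a5 a1 + h.skew hn hp a3 a4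

theorem cm_evK {u v z : R} (hu : z * u = u * z) (hv : z * v = v * z) (p : W K (Fin 2)) :
    cm z (evK u v p) = 0 := sub_eq_zero.2 (evK_comm hu hv p)

theorem shift_left {u v w z : R} (hn : 2 ≤ n) (hp : p ∈ LK K n) (e : w = u + z)
    (hu : z * u = u * z) (hv : z * v = v * z) : evK w v p = evK u v p := by
  have := evK_shift (z' := 0) hu hv (by simp) (by simp) (by simp) hn hp
  rwa [add_zero, ← e] at this

theorem shift_right {u v w z : R} (hn : 2 ≤ n) (hp : p ∈ LK K n) (e : w = v + z)
    (hu : z * u = u * z) (hv : z * v = v * z) : evK u w p = evK u v p := by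
  have := evK_shift (z := 0) (by simp) (by simp) hu hv (by simp) hn hp
  rwa [add_zero, ← e] at this

/-- The hexagon defect. -/
def hexD (p : W K (Fin 2)) (u v : R) : R := evK u v p + evK v (-u - v) p + evK (-u - v) u p

/-- The defect of the special identity. -/
def spD (p : W K (Fin 2)) (u v : R) : R := cm u (evK (-u - v) u p) + cm v (evK (-u - v) v p)

section X5
variable {x12 x13 x14 x15 x23 x24 x25 x34 x35 x45 : R}
  (h : X5 x12 x13 x14 x15 x23 x24 x25 x34 x35 x45) (hn : 2 ≤ n) (hp : p ∈ LK K n)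
include h hn hp

theorem X5.sh {v : R} (hv : x45 * v = v * x45) :
    evK x13 v p = evK (-x12 - x23) v p ∧ evK v x13 p = evK v (-x12 - x23) p := by
  have e : x13 = -x12 - x23 + x45 := by rw [h.e13]; abel
  have c : x45 * (-x12 - x23) = (-x12 - x23) * x45 := by
    linear_combination (norm := noncomm_ring) h.rel.h24 - h.rel.h41
  exact ⟨shift_left hn hp e c hv, shift_right hn hp e hv c⟩

theorem X5.tri : evK x12 x23 p + evK x23 x13 p + evK x13 x12 p = hexD p x12 x23 := by
  rw [hexD, (h.sh hn hp h.rel.h41).1, (h.sh hn hp h.rel.h24.symm).2]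

theorem X5.sp : cm x12 (evK x13 x12 p) + cm x23 (evK x13 x23 p) = spD p x12 x23 := by
  rw [spD, (h.sh hn hp h.rel.h41).1, (h.sh hn hp h.rel.h24.symm).1]

theorem X5.four (hU : UPC p) :
    hexD p x14 x34 + hexD p x24 x34 + hexD p x14 x45 + hexD p x24 x45 = 0 := by
  have p1 := hU R _ _ _ _ _ h.rot.swap.rot.rot.swap.rot.swap.rel
  have p2 := hU R _ _ _ _ _ h.rot.rot.swap.rot.rot.swap.rel
  have p3 := hU R _ _ _ _ _ h.rot.swap.rel
  have p4 := hU R _ _ _ _ _ h.swap.rot.swap.rel
  have sk := hU.skew (R := R) hn hp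
  rw [← h.rot.swap.rot.rot.swap.rot.swap.tri hn hp, ← h.rot.rot.swap.rot.rot.rot.rot.tri hn hp,
    ← h.swap.rot.swap.rot.tri hn hp, ← h.rot.swap.rot.tri hn hp]
  linear_combination (norm := abel) p1 + p2 + p3 + p4 - sk x23 x25 - sk x25 x15 - sk x13 x15
    - sk x13 x23

theorem X5.cocycle (hU : UPC p) (hx : hexD p x12 x23 = 0) :
    spD p x14 x24 + spD p (x14 + x24) x34 = spD p x14 (x24 + x34) + spD p x24 x34 := by
  have p1 := hU R _ _ _ _ _ h.swap.rot.rot.swap.rot.swap.rel
  have p2 := hU R _ _ _ _ _ h.rot.swap.rel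
  have p2' := hU R _ _ _ _ _ h.rot.rot.swap.rot.swap.rel
  have p3 := hU R _ _ _ _ _ h.rel
  have sk := hU.skew (R := R) hn hp
  rw [← h.tri hn hp] at hx
  have g1 : evK x45 x35 p + evK x12 x14 p =
      evK x45 x14 p + evK x12 x23 p + evK x23 x35 p := by
    linear_combination (norm := abel) p1 - sk x14 x45 - sk x23 x12 - sk x35 x23
  have g2 : evK x45 x35 p + evK x12 x24 p =
      evK x45 x15 p + evK x23 x24 p + evK x12 x23 p + (evK x15 x13 p - evK x35 x13 p) := by
    linear_combination (norm := abel) p2' - p2 - hx + sk x13 x23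
  have g3 : evK x45 x34 p = evK x45 x15 p + evK x23 x34 p + evK x12 x23 p + evK x15 x12 p := by
    linear_combination (norm := abel) -p3 + sk x34 x45
  have k1 := congrArg (cm x14) g1
  have k2 := congrArg (cm x24) g2
  have k3 := congrArg (cm x34) g3
  have z1 := cm_evK h.rot.rot.rot.cA.symm h.rot.rot.cB.symm p
  have z2 := cm_evK h.rot.cA.symm h.cB.symm p
  have z2' := cm_evK h.rot.cB h.cB.symm p
  have z3 := cm_evK h.rel.h35 h.rel.h13.symm p
  have z4 := cm_evK h.rel.h41 h.rel.h24.symm p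
  have e1 : -(x14 + x24) - x34 = x45 := by rw [h.sum4]; abel
  have e2 : -x14 - (x24 + x34) = x45 := by rw [h.sum4]; abel
  have s1 : evK x45 x35 p = evK x45 (x14 + x24) p :=
    shift_right hn hp (z := x12) (by rw [h.e35, h.e14, h.e24]; abel) h.rel.h41.symm (by
      rw [h.e14, h.e24]
      linear_combination (norm := noncomm_ring) h.rel.h41 - h.rel.h13)
  have s2 : evK x45 x15 p = evK x45 (x24 + x34) p :=
    shift_right hn hp (z := x23) (by rw [h.e24]; abel) h.rel.h24 (by
      rw [h.e24]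
      linear_combination (norm := noncomm_ring) -h.rel.h52)
  rw [← h.rot.rot.rot.swap.rot.swap.sp hn hp,
    ← h.rot.rot.swap.rot.rot.rot.rot.sp hn hp, spD, spD, e1, e2, ← s1, ← s2]
  rw [h.sum4] at z4
  simp only [cm] at k1 k2 k3 z1 z2 z2' z3 z4 ⊢
  linear_combination (norm := noncomm_ring) k1 + k2 + k3 + z1 + z2 - z2' + z3 - z4

end X5

theorem x5_fibre {R : Type} [Ring R] {D E x y z : R} (D0 : D * x = x * D + (x * y - y * x))
    (D1 : D * y = y * D + (y * x - x * y)) (D2 : D * z = z * D + 0) (E0 : E * x = x * E + 0)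
    (E1 : E * y = y * E + (y * z - z * y)) (E2 : E * z = z * E + (z * y - y * z)) :
    X5 D (-x - y - z - D - E) x (E + y + z) E y (z - (E + y + z) - D) z (D - z - (-x - y - z))
      (-x - y - z) := by
  refine ⟨⟨?_, ?_, ?_, ?_, ?_, ?_⟩, rfl, by abel, rfl, by abel, rfl⟩
  · linear_combination (norm := noncomm_ring) D2
  · linear_combination (norm := noncomm_ring) -E0 - E1 - E2
  · linear_combination (norm := noncomm_ring) -E2
  · linear_combination (norm := noncomm_ring) D0 + D1 + D2
  · linear_combination (norm := noncomm_ring) -E1 - E2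
  · simp only [cm]
    linear_combination (norm := noncomm_ring) E2 + E0 + E1 + E2 - D1 - D2

/-- A representation with free fibre at the fourth strand. -/
theorem exists_fibre (K : Type) [CommRing K] :
    ∃ x12 x13 x15 x23 x25 x35 : End K (W K (Fin 3)),
    X5 x12 x13 (LM K (lt 0)) x15 x23 (LM K (lt 1)) x25 (LM K (lt 2)) x35
      (LM K (-lt 0 - lt 1 - lt 2)) := by
  let D : End K (W K (Fin 3)) := der ![cm (lt 0) (lt 1), cm (lt 1) (lt 0), 0]
  let E : End K (W K (Fin 3)) := der ![0, cm (lt 1) (lt 2), cm (lt 2) (lt 1)]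
  have hD : ∀ u, D * LM K u = LM K u * D + LM K (D u) := fun u =>
    sub_eq_iff_eq_add'.1 (IsDer.LM (der_isDer _) u)
  have hE : ∀ u, E * LM K u = LM K u * E + LM K (E u) := fun u =>
    sub_eq_iff_eq_add'.1 (IsDer.LM (der_isDer _) u)
  have D0 := hD (lt 0)
  have D1 := hD (lt 1)
  have D2 := hD (lt 2)
  have E0 := hE (lt 0)
  have E1 := hE (lt 1)
  have E2 := hE (lt 2)
  simp only [D, E, der_lt, Matrix.cons_val, map_zero, cm, map_sub, map_mul] at D0 D1 D2 E0 E1 E2
  rw [map_sub, map_sub, map_neg]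
  exact ⟨_, _, _, _, _, _, x5_fibre D0 D1 D2 E0 E1 E2⟩

theorem map_hexD {R' : Type} [Ring R'] [Algebra K R'] (f : R →ₐ[K] R') (u v : R) :
    f (hexD p u v) = hexD p (f u) (f v) := by
  simp [hexD, map_evK]

theorem map_spD {R' : Type} [Ring R'] [Algebra K R'] (f : R →ₐ[K] R') (u v : R) :
    f (spD p u v) = spD p (f u) (f v) := by
  simp [spD, map_evK, map_cm]

theorem LM_inj {a : W K (Fin 3)} (h : LM K a = 0) : a = 0 := by
  simpa using LinearMap.congr_fun h 1

end

section field
variable {K : Type} [Field K] [CharZero K] {n : ℕ} {p : W K (Fin 2)} {R : Type} [Ring R]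
  [Algebra K R]

theorem pow_cancel {a : R} {j n : ℕ} (h : j < n) (e : (2 : K) ^ n • a = (2 : K) ^ j • a) :
    a = 0 := by
  have h1 : ((2 : K) ^ n - 2 ^ j) ≠ 0 := by
    rw [sub_ne_zero]
    exact_mod_cast (Nat.pow_lt_pow_right (by norm_num) h).ne'
  exact (smul_eq_zero.1 (by rw [sub_smul, e, sub_self])).resolve_left h1

theorem UPC.hexD_zero (h : UPC p) (hn : 3 ≤ n) (hp : p ∈ LK K n) (u v : R) : hexD p u v = 0 := by
  have hn2 : 2 ≤ n := by omega
  have four : ∀ x y z : R,
      hexD p x z + hexD p y z + hexD p x (-x - y - z) + hexD p y (-x - y - z) = 0 := by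
    intro x y z
    obtain ⟨_, _, _, _, _, _, hx⟩ := exists_fibre K
    have h1 := hx.four hn2 hp h
    simp only [← map_hexD, ← map_add] at h1
    simpa [map_hexD] using congrArg (evW ![x, y, z] : W K (Fin 3) →ₐ[K] R) (LM_inj h1)
  have sk := h.skew (R := R) hn2 hp
  have anti : ∀ x y : R, hexD p y x = -hexD p x y := fun x y => by
    rw [hexD, hexD, show -y - x = -x - y by abel]
    linear_combination (norm := abel) sk y x + sk x (-x - y) + sk (-x - y) y
  have cyc : ∀ x y : R, hexD p y (-x - y) = hexD p x y := fun x y => by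
    rw [hexD, hexD, show -y - (-x - y) = x by abel]; abel
  have dbl : ∀ x y : R, hexD p ((2 : K) • x) y = (2 : K) • hexD p x y := fun x y => by
    have h1 := four x x y
    have h2 := four x y x
    have h3 : hexD p x x = 0 := by
      have c : x * (-x - x) = (-x - x) * x := by noncomm_ring
      rw [hexD, evK_of_comm rfl hn2 hp, evK_of_comm c hn2 hp, evK_of_comm c.symm hn2 hp]; simp
    have h4 : hexD p x y + hexD p x (-x - x - y) = 0 := by
      have h5 : (2 : K) • (hexD p x y + hexD p x (-x - x - y)) = 0 := by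
        rw [two_smul]; linear_combination (norm := abel) h1
      exact (smul_eq_zero.1 h5).resolve_left two_ne_zero
    rw [show -x - y - x = -x - x - y by abel] at h2
    rw [← cyc, two_smul, two_smul, show -(x + x) - y = -x - x - y by abel]
    linear_combination (norm := abel) h2 - h3 - h4 - anti x y
  have h1 : hexD p ((2 : K) • u) ((2 : K) • v) = (2 : K) ^ n • hexD p u v := by
    rw [hexD, hexD, ← smul_neg, ← smul_sub, evK_smul _ _ _ hp, evK_smul _ _ _ hp,
      evK_smul _ _ _ hp, smul_add, smul_add]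
  rw [dbl, anti, dbl, anti, smul_neg, smul_neg, smul_neg, neg_neg, ← mul_smul, ← pow_two] at h1
  exact pow_cancel (by omega : 2 < n) h1.symm

theorem UPC.hex (h : UPC p) (hn : 3 ≤ n) (hp : p ∈ LK K n) {u v w : R} (e : u + v + w = 0) :
    evK u v p + evK v w p + evK w u p = 0 := by
  rw [show w = -u - v by linear_combination (norm := abel) e]
  exact h.hexD_zero hn hp u v

theorem UPC.spD_zero (h : UPC p) (hn : 3 ≤ n) (hp : p ∈ LK K n) (u v : R) : spD p u v = 0 := by
  have hn2 : 2 ≤ n := by omega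
  have co : ∀ x y z : R, spD p x y + spD p (x + y) z = spD p x (y + z) + spD p y z := by
    intro x y z
    obtain ⟨_, _, _, _, _, _, hx⟩ := exists_fibre K
    have h1 := sub_eq_zero.2 (hx.cocycle hn2 hp h (h.hexD_zero hn hp _ _))
    simp only [← map_add, ← map_spD, ← map_sub] at h1
    simpa [map_spD, sub_eq_zero] using
      congrArg (evW ![x, y, z] : W K (Fin 3) →ₐ[K] R) (LM_inj h1)
  have sy : ∀ x y : R, spD p x y = spD p y x := fun x y => by
    rw [spD, spD, show -y - x = -x - y by abel, add_comm]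
  have dg : ∀ x : R, spD p x x = 0 := fun x => by
    rw [spD, evK_of_comm (by noncomm_ring) hn2 hp]; simp
  have h1 : spD p ((2 : K) • u) ((2 : K) • v) = (2 : K) ^ (n + 1) • spD p u v := by
    rw [spD, spD, ← smul_neg, ← smul_sub, evK_smul _ _ _ hp, evK_smul _ _ _ hp]
    simp only [cm, smul_mul_smul_comm, smul_add, smul_sub, pow_succ, mul_comm]
  have h2 : spD p (u + u) (v + v) = spD p u v + spD p u v := by
    have c1 := co u u (v + v)
    have c2 := co u v v
    have c3 := co (u + v) v u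
    rw [show u + v + v = u + (v + v) by abel, add_comm v u] at c3
    linear_combination (norm := abel) c1 - c2 + c3 - dg u - dg v + dg (u + v) + sy v u
      + sy u (u + (v + v))
  rw [two_smul, two_smul, h2, ← two_smul K, ← pow_one (2 : K), ← pow_mul, one_mul] at h1
  exact pow_cancel (by omega : 1 < n + 1) h1.symm

theorem UPC.special (h : UPC p) (hn : 3 ≤ n) (hp : p ∈ LK K n) {u v w : R} (e : u + v + w = 0) :
    cm v (evK u v p) + cm w (evK u w p) = 0 := by
  rw [show u = -v - w by linear_combination (norm := abel) e]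
  exact h.spD_zero hn hp v w

end field

end Pool.Agent.Lib.MP_446a91_nt
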