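import Pool.Agent.Lib.MP_446a91_nt.DD.KDefs
import Pool.Agent.Lib.MP_446a91_nt.DD.HoffA

/-! Formal properties of the infinitesimal Ihara action (MP_446a91_nt). -/

namespace Pool.Agent.Lib.MP_446a91_nt

open Module TrivSqZeroExt

noncomputable section

namespace B2a
variable {K : Type} [CommRing K] {m n : ℕ} {p q : W K (Fin 2)}

theorem dK_mul (p a b : W K (Fin 2)) : dK p (a * b) = dK p a * b + a * dK p b := der_mul _ a b
theorem dK_one (p : W K (Fin 2)) : dK p 1 = 0 := der_one _
theorem dK_x (p : W K (Fin 2)) : dK p (lt 0) = 0 := by simp [dK]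
theorem dK_y (p : W K (Fin 2)) : dK p (lt 1) = cm (lt 1) p := by simp [dK]

theorem dK_cm (p a b : W K (Fin 2)) : dK p (cm a b) = cm (dK p a) b + cm a (dK p b) := by
  simp only [cm, map_sub, dK_mul]; noncomm_ring

theorem LK_ind {P : W K (Fin 2) → Prop} (hp : p ∈ LK K n)
    (hb : ∀ u, Br (lt : Fin 2 → W K (Fin 2)) (fun _ => 1) n u → P u) (h0 : P 0)
    (ha : ∀ u v, P u → P v → P (u + v)) (hs : ∀ (c : K) u, P u → P (c • u)) : P p := by
  induction hp using Submodule.span_induction with
  | mem u hu => exact Sp_induction hu hb h0 ha fun u h => by simpa using hs (-1) u h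
  | zero => exact h0
  | add u v _ _ h1 h2 => exact ha u v h1 h2
  | smul c u _ h => exact hs c u h

theorem Br_mem {u : W K (Fin 2)} (h : Br (lt : Fin 2 → W K (Fin 2)) (fun _ => 1) n u) :
    u ∈ LK K n := Submodule.subset_span h.mem

theorem cm_LK (hp : p ∈ LK K m) (hq : q ∈ LK K n) : cm p q ∈ LK K (m + n) := by
  refine LK_ind (P := fun p => cm p q ∈ LK K (m + n)) hp (fun u hu => ?_) (by simp)
    (fun u v h1 h2 => by rw [cm_add_left]; exact add_mem h1 h2) fun c u h => by
      simpa [cm, smul_sub] using Submodule.smul_mem _ c h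
  exact LK_ind (P := fun q => cm u q ∈ LK K (m + n)) hq (fun v hv => Br_mem (hu.lie hv)) (by simp)
    (fun u v h1 h2 => by rw [cm_add_right]; exact add_mem h1 h2) fun c u h => by
      simpa [cm, smul_sub] using Submodule.smul_mem _ c h

theorem dK_LK (hp : p ∈ LK K m) (hq : q ∈ LK K n) : dK p q ∈ LK K (m + n) := by
  refine LK_ind (P := fun q => dK p q ∈ LK K (m + n)) hq (fun u hu => ?_) (by simp)
    (fun u v h1 h2 => by rw [map_add]; exact add_mem h1 h2) fun c u h => by
      rw [map_smul]; exact Submodule.smul_mem _ c h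
  clear hq
  induction hu with
  | of s =>
    obtain rfl | rfl : s = 0 ∨ s = 1 := by omega
    · rw [dK_x]; exact zero_mem _
    · rw [dK_y, add_comm]; exact cm_LK (Br_mem (Br.of 1)) hp
  | @lie a b u v hu hv h1 h2 =>
    rw [dK_cm]
    refine add_mem ?_ ?_
    · simpa [add_assoc] using cm_LK h1 (Br_mem hv)
    · simpa [add_left_comm] using cm_LK (Br_mem hu) h2

theorem cf_cons (i j : Fin 2) (w : List (Fin 2)) (u : W K (Fin 2)) :
    cf (i :: w) (lt j * u) = if j = i then cf w u else 0 :=
  (linW_eq (cf (i :: w) ∘ₗ LM K (lt j)) (if j = i then cf w else 0) u fun v _ => by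
    by_cases h : j = i <;> simp [← wrd_cons, cf_wrd, h]).trans (by split_ifs <;> rfl)

theorem cf_nil (u : W K (Fin 2)) : cf [] u = evK (0 : K) 0 u :=
  linW_eq (cf []) (evK (0 : K) 0).toLinearMap u fun w _ => by
    obtain _ | ⟨i, w⟩ := w
    · simp [cf_wrd, evK, evW_wrd]
    · fin_cases i <;> simp [cf_wrd, evK, evW_wrd]

theorem cf_nil_dK (p F : W K (Fin 2)) : cf [] (dK p F) = 0 := by
  rw [cf_nil]
  induction F using W_ind with
  | one => simp [dK_one]
  | mul i u ih =>
    obtain rfl | rfl : i = 0 ∨ i = 1 := by omega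
    · simp [dK_mul, dK_x]
    · simp [dK_mul, dK_y, cm]
  | add u v h1 h2 => simp [h1, h2]
  | smul r u ih => simp [ih]

theorem cf_nil_LK (hm : 1 ≤ m) (hp : p ∈ LK K m) : cf [] p = 0 := by
  simpa [cf_nil, zero_pow (by omega : m ≠ 0)] using evK_smul (0 : K) (0 : K) 0 hp

theorem cf_dep_mul (h : ∀ k, cf (List.replicate k 0) p = 0) (F : W K (Fin 2)) (k : ℕ) :
    cf (List.replicate k 0 ++ [1]) (p * F) = cf (List.replicate k 0 ++ [1]) p * cf [] F := by
  have key : ∀ (k : ℕ) (w : List (Fin 2)), (∀ j, w ≠ List.replicate j 0) →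
      cf (List.replicate k 0 ++ [1]) (wrd w * F) =
        cf (List.replicate k 0 ++ [1]) (wrd w : W K (Fin 2)) * cf [] F := by
    intro k
    induction k with
    | zero =>
      rintro (_ | ⟨i, w⟩) hw
      · exact absurd rfl (hw 0)
      obtain rfl | rfl : i = 0 ∨ i = 1 := by omega
      · simp [wrd_cons, mul_assoc, cf_cons]
      · simp [wrd_cons, mul_assoc, cf_cons, cf_nil]
    | succ k ih =>
      rintro (_ | ⟨i, w⟩) hw
      · exact absurd rfl (hw 0)
      obtain rfl | rfl : i = 0 ∨ i = 1 := by omega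
      · simpa [wrd_cons, mul_assoc, cf_cons, List.replicate_succ] using
          ih w fun j hj => hw (j + 1) (by rw [hj, List.replicate_succ])
      · simp [wrd_cons, mul_assoc, cf_cons, List.replicate_succ]
  exact linW_eq (cf (List.replicate k 0 ++ [1]) ∘ₗ LinearMap.mulRight K F)
    (LinearMap.mulRight K (cf [] F) ∘ₗ cf (List.replicate k 0 ++ [1])) p fun w hw =>
      key k w fun j hj => hw (hj ▸ h j)

end B2a

open B2a

variable {K : Type} [Field K] [CharZero K] {m n : ℕ} {p q : W K (Fin 2)}
  {R : Type} [Ring R] [Algebra K R]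

omit [CharZero K] in
/-- Chain rule along an edge that starts at a vertex with gauge `g`. -/
theorem evK_dual (u v g : R) (p F : W K (Fin 2)) :
    evK (inl u + inr (cm u g) : TrivSqZeroExt R R) (inl v + inr (cm v (g + evK u v p))) F =
      inl (evK u v F) + inr (cm (evK u v F) g + evK u v (dK p F)) := by
  induction F using W_ind with
  | one => simp [dK_one, cm]
  | mul i F ih =>
    rw [map_mul, ih]
    obtain rfl | rfl : i = 0 ∨ i = 1 := by omega
    · ext
      · simp
      · simp [dK_mul, dK_x, cm]; noncomm_ring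
    · ext
      · simp
      · simp [dK_mul, dK_y, cm]; noncomm_ring
  | add F G h1 h2 =>
    rw [map_add, h1, h2]
    ext
    · simp
    · simp [cm_add_left]; abel
  | smul r F ih =>
    rw [map_smul, ih]
    ext
    · simp
    · simp [cm, smul_sub]

omit [CharZero K] in
theorem ihK_mem (hp : p ∈ LK K m) (hq : q ∈ LK K n) : ihK p q ∈ LK K (m + n) := by
  have : ihK p q = cm p q + dK p q - dK q p := by simp [ihK, sK, cm]; abel
  rw [this]
  exact sub_mem (add_mem (cm_LK hp hq) (dK_LK hp hq)) (add_comm n m ▸ dK_LK hq hp)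

omit [CharZero K] in
theorem sK_comm (p q : W K (Fin 2)) : sK p * sK q - sK q * sK p = sK (ihK p q) := by
  have hd : ∀ p : W K (Fin 2), IsDer (dK p) := dK_mul
  have h0 : dK (ihK p q) = dK p * dK q - dK q * dK p := by
    refine der_ext (hd _) ((hd p).comm (hd q)) fun i => ?_
    obtain rfl | rfl : i = 0 ∨ i = 1 := by omega
    · simp [dK_x]
    · simp only [dK_y, LinearMap.sub_apply, End.mul_apply, ihK, sK, LinearMap.add_apply,
        LM_apply, cm]
      simp only [map_sub, dK_mul, dK_y, cm]
      noncomm_ring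
  have h3 : LM K (ihK p q) =
      LM K (dK p q) + LM K p * LM K q - (LM K (dK q p) + LM K q * LM K p) := by simp [ihK, sK]
  simp only [sK, h0, h3]
  linear_combination (norm := noncomm_ring) (hd p).LM q - (hd q).LM p

omit [CharZero K] in
theorem cf_nil_sK (hm : 1 ≤ m) (hp : p ∈ LK K m) (F : W K (Fin 2)) : cf [] (sK p F) = 0 := by
  rw [sK, LinearMap.add_apply, map_add, cf_nil_dK, LM_apply, cf_nil, map_mul, ← cf_nil,
    cf_nil_LK hm hp, zero_mul, add_zero]

omit [CharZero K] in
theorem dep_sK (hm : 2 ≤ m) (hp : p ∈ LK K m) (F : W K (Fin 2)) (n : ℕ) :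
    dep n (sK p F) = dep n p * cf [] F := by
  have h0 : ∀ k, cf (List.replicate k 0) p = 0 := by
    have key : ∀ (w : List (Fin 2)) (k : ℕ), cf (List.replicate k 0) (wrd w : W K (Fin 2)) =
        cf (List.replicate k 0) (evK (lt 0 : W K (Fin 2)) 0 (wrd w : W K (Fin 2))) := by
      intro w
      induction w with
      | nil => simp [wrd_nil]
      | cons i w ih =>
        rintro (_ | k) <;> obtain rfl | rfl : i = 0 ∨ i = 1 := by omega
        all_goals simp [wrd_cons, cf_nil, cf_cons, List.replicate_succ, ih]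
    intro k
    rw [linW_eq (cf (List.replicate k 0)) (cf (List.replicate k 0) ∘ₗ
      (evK (lt 0 : W K (Fin 2)) 0).toLinearMap) p fun w _ => key w k]
    simp [evK_of_comm (u := (lt 0 : W K (Fin 2))) (v := 0) (by simp) hm hp]
  have h1 : ∀ k, cf (List.replicate k 0 ++ [1]) (dK p F) = 0 := by
    induction F using W_ind with
    | one => simp [dK_one]
    | mul i u ih =>
      have := cf_nil_dK p u
      have := h0 0
      rintro (_ | k) <;> obtain rfl | rfl : i = 0 ∨ i = 1 := by omega
      · simp [dK_mul, dK_x, cf_cons]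
      · have e := cf_dep_mul h0 (lt 1 * u) 0
        simp_all [dK_mul, dK_y, cm, sub_mul, mul_assoc, cf_cons, cf_nil]
      · simp [dK_mul, dK_x, cf_cons, List.replicate_succ, ih]
      · have e := cf_dep_mul h0 (lt 1 * u) (k + 1)
        simp_all [dK_mul, dK_y, cm, sub_mul, mul_assoc, cf_cons, cf_nil, List.replicate_succ]
    | add u v h1 h2 => simp [h1, h2]
    | smul r u ih => simp [ih]
  rw [sK, LinearMap.add_apply, map_add, dep, h1, LM_apply, cf_dep_mul h0, zero_add]

end

end Pool.Agent.Lib.MP_446a91_nt
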