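import Pool.Agent.Lib.MP_446a91_nt.DD.B1
import Pool.Agent.Lib.MP_446a91_nt.DD.B2a

/-! The derivation of the braid algebra attached to a solution of the pentagon (MP_446a91_nt). -/

namespace Pool.Agent.Lib.MP_446a91_nt

open Module TrivSqZeroExt

noncomputable section

theorem dual_comm {R : Type} [Ring R] {u v g : R} (h : u * v = v * u) :
    (inl u + inr (cm u g) : TrivSqZeroExt R R) * (inl v + inr (cm v g)) =
      (inl v + inr (cm v g)) * (inl u + inr (cm u g)) := by
  refine TrivSqZeroExt.ext (by simpa using h) ?_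
  simp only [snd_mul, fst_add, fst_inl, fst_inr, add_zero, snd_add, snd_inl, snd_inr, zero_add,
    smul_eq_mul, op_smul_eq_mul, cm]
  linear_combination (norm := noncomm_ring) h * g - g * h

variable {K : Type} [Field K] [CharZero K] {m n : ℕ} {p q : W K (Fin 2)}
  {R : Type} [Ring R] [Algebra K R]

theorem rel5_dual (h : UPC p) (hn : 3 ≤ n) (hp : p ∈ LK K n) {a1 a2 a3 a4 a5 : R}
    (r : Rel5 a1 a2 a3 a4 a5) :
    Rel5 (inl a1 : TrivSqZeroExt R R) (inl a2 + inr (cm a2 (evK a1 a2 p)))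
      (inl a3 + inr (cm a3 (evK a1 a2 p + evK a4 a5 p + evK a2 a3 p))) (inl a4)
      (inl a5 + inr (cm a5 (evK a1 a2 p + evK a4 a5 p))) := by
  have hn2 : 2 ≤ n := by omega
  have hx := r.x5
  generalize a4 - a1 - a2 = x13 at hx
  generalize a2 - a4 - a5 = x14 at hx
  generalize a5 - a2 - a3 = x24 at hx
  generalize a3 - a5 - a1 = x25 at hx
  generalize a1 - a3 - a4 = x35 at hx
  have pent := h R _ _ _ _ _ r
  have pent' := h R _ _ _ _ _ hx.rot.swap.rel
  have hex := hx.tri hn2 hp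
  rw [h.hexD_zero hn hp] at hex
  have sp1 := hx.rot.swap.rot.rot.rot.rot.sp hn2 hp
  have sp2 := hx.rot.rot.swap.rot.rot.rot.rot.sp hn2 hp
  rw [h.spD_zero hn hp] at sp1 sp2
  have sk := h.skew (R := R) hn2 hp
  have z1 := cm_evK r.h13 r.h41.symm p
  have z2 := cm_evK r.h24 r.h52.symm p
  have z3 := cm_evK r.h35 r.h13.symm p
  have z4 := cm_evK r.h41 r.h24.symm p
  have z5 := cm_evK r.h52 r.h35.symm p
  have i0 : ∀ {u g : R}, cm u g = 0 → (inl u : TrivSqZeroExt R R) = inl u + inr (cm u g) :=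
    fun e => by rw [e, inr_zero, add_zero]
  have g4 : evK a1 a2 p + evK a4 a5 p + evK a2 a3 p = -evK a5 a1 p + -evK a3 a4 p := by
    linear_combination (norm := abel) pent
  refine Rel5.of_chord ?_ ?_ ?_ ?_ ?_ ?_
  · rw [g4, cm_add_right, cm_neg_right, z3, neg_zero, zero_add,
      i0 (u := a1) (g := -evK a3 a4 p) (by rw [cm_neg_right, z1, neg_zero])]
    exact dual_comm r.h13
  · rw [i0 z4]; exact dual_comm r.h24
  · rw [← add_zero (cm a5 _), ← z5, ← cm_add_right]; exact dual_comm r.h35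
  · rw [← inl_mul, ← inl_mul, r.h41]
  · rw [← add_zero (cm a2 _), ← z2, ← cm_add_right]; exact dual_comm r.h52
  · have y1 := cm_evK hx.cA.symm hx.cB p
    have y2 := cm_evK hx.cB.symm hx.rot.cA.symm p
    have e : evK a1 x13 p + evK a4 x24 p =
        evK a1 a2 p + evK a4 a5 p + evK a2 x24 p - evK x13 a5 p := by
      linear_combination (norm := abel) sk a1 x13 + sk a4 x24 - pent' - hex + sk x13 a2
        + sk x13 a5
    have e1 : (inl a4 - inl a1 - (inl a2 + inr (cm a2 (evK a1 a2 p))) : TrivSqZeroExt R R) =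
        inl x13 + inr (cm x13 (evK a1 x13 p + evK a4 x24 p)) := by
      refine TrivSqZeroExt.ext (by simp [hx.e13]) ?_
      simp only [snd_sub, snd_add, snd_inl, snd_inr, cm_add_right, y1]
      linear_combination (norm := abel) -sp1
    have e2 : (inl a5 + inr (cm a5 (evK a1 a2 p + evK a4 a5 p)) -
        (inl a2 + inr (cm a2 (evK a1 a2 p))) -
        (inl a3 + inr (cm a3 (evK a1 a2 p + evK a4 a5 p + evK a2 a3 p))) : TrivSqZeroExt R R) =
        inl x24 + inr (cm x24 (evK a1 x13 p + evK a4 x24 p)) := by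
      refine TrivSqZeroExt.ext (by simp [hx.e24]) ?_
      simp only [snd_sub, snd_add, snd_inl, snd_inr, e]
      have e24 := hx.e24
      simp only [cm] at sp2 y2 z2 ⊢
      linear_combination (norm := noncomm_ring) z2 - sp2 + y2
        - e24 * (evK a1 a2 p + evK a4 a5 p) + (evK a1 a2 p + evK a4 a5 p) * e24
    rw [e1, e2]
    exact sub_eq_zero.2 (dual_comm hx.cB)

theorem UPC.dK_sum (h : UPC p) (h' : UPC q) (hm : 3 ≤ m) (hp : p ∈ LK K m) {a1 a2 a3 a4 a5 : R}
    (r : Rel5 a1 a2 a3 a4 a5) :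
    evK a1 a2 (dK p q) + (cm (evK a4 a5 q) (evK a1 a2 p) + evK a4 a5 (dK p q)) +
      (cm (evK a2 a3 q) (evK a1 a2 p + evK a4 a5 p) + evK a2 a3 (dK p q)) +
      (cm (evK a5 a1 q) (evK a1 a2 p + evK a4 a5 p + evK a2 a3 p) + evK a5 a1 (dK p q)) +
      (cm (evK a3 a4 q) (-evK a3 a4 p) + evK a3 a4 (dK p q)) = 0 := by
  have pent := h R _ _ _ _ _ r
  have z1 := cm_evK r.h13 r.h41.symm p
  have z2 := cm_evK r.h24 r.h52.symm p
  have z3 := cm_evK r.h35 r.h13.symm p
  have z4 := cm_evK r.h41 r.h24.symm p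
  have z5 := cm_evK r.h52 r.h35.symm p
  have g4 : evK a1 a2 p + evK a4 a5 p + evK a2 a3 p + evK a5 a1 p = -evK a3 a4 p := by
    linear_combination (norm := abel) pent
  have d1 := evK_dual a1 a2 0 p q
  have d2 := evK_dual a4 a5 (evK a1 a2 p) p q
  have d3 := evK_dual a2 a3 (evK a1 a2 p + evK a4 a5 p) p q
  have d4 := evK_dual a5 a1 (evK a1 a2 p + evK a4 a5 p + evK a2 a3 p) p q
  have d5 := evK_dual a3 a4 (-evK a3 a4 p) p q
  rw [cm_zero_right, cm_zero_right, inr_zero, add_zero, zero_add, zero_add] at d1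
  rw [z4, inr_zero, add_zero] at d2
  rw [cm_add_right a2, z2, add_zero] at d3
  rw [g4, cm_neg_right, z1, neg_zero, inr_zero, add_zero, cm_add_right a5, z5, add_zero] at d4
  rw [neg_add_cancel, cm_zero_right, inr_zero, add_zero, ← g4, cm_add_right a3, z3, add_zero, g4]
    at d5
  have := congrArg snd (h' _ _ _ _ _ _ (rel5_dual h hm hp r))
  rw [d1, d2, d3, d4, d5] at this
  simpa only [snd_add, snd_inl, snd_inr, zero_add, snd_zero] using this

theorem UPC.ihK (h : UPC p) (h' : UPC q) (hm : 3 ≤ m) (hn : 3 ≤ n) (hp : p ∈ LK K m)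
    (hq : q ∈ LK K n) : UPC (ihK p q) := by
  intro R _ _ a1 a2 a3 a4 a5 r
  have s1 := h.dK_sum h' hm hp r
  have s2 := h'.dK_sum h hn hq r
  have e1 : evK a3 a4 p = -(evK a1 a2 p + evK a4 a5 p + evK a2 a3 p + evK a5 a1 p) := by
    linear_combination (norm := abel) h R _ _ _ _ _ r
  have e2 : evK a3 a4 q = -(evK a1 a2 q + evK a4 a5 q + evK a2 a3 q + evK a5 a1 q) := by
    linear_combination (norm := abel) h' R _ _ _ _ _ r
  simp only [MP_446a91_nt.ihK, sK, LinearMap.add_apply, LM_apply, map_sub, map_add, map_mul]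
  rw [e1, e2] at s1 s2 ⊢
  simp only [cm] at s1 s2
  linear_combination (norm := noncomm_ring) s1 - s2

end

end Pool.Agent.Lib.MP_446a91_nt
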