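import Pool.Agent.Lib.MP_446a91_nt.DD.KzP

/-! The associator as a limit of regularised transports, and its properties. -/

set_option autoImplicit false

namespace Pool.Agent.Lib.MP_446a91_nt.Kz

open Set Filter Topology

noncomputable section

variable {B : Type} [NormedRing B] [NormedAlgebra ℝ B] [CompleteSpace B]

/-- One-parameter groups. -/
def ex (t : ℝ) (z : B) : B := NormedSpace.exp (t • z)

/-- The regularised transport at height `exp (-l)`. -/
def Sq (a b : B) (l : ℝ) : B := ex l b * Tr a b 0 (Real.exp (-l)) * ex (-l) a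

/-- `p` is the associator evaluated at `a, b`. -/
def IsPhi (a b p : B) : Prop := Tendsto (fun n : ℕ => Sq a b (n + 1)) atTop (𝓝 p)

variable {a b p a' b' p' : B}

omit [CompleteSpace B] in
theorem ball (z : B) : z ∈ Metric.eball (0 : B) (NormedSpace.expSeries ℝ B).radius :=
  (NormedSpace.expSeries_radius_eq_top ℝ B).symm ▸ edist_lt_top _ _

theorem ex_deriv (z : B) (t : ℝ) : HasDerivAt (fun t => ex t z) (z * ex t z) t :=
  hasDerivAt_exp_smul_const' z t

theorem ex_deriv' (z : B) (t : ℝ) : HasDerivAt (fun t => ex t z) (ex t z * z) t :=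
  hasDerivAt_exp_smul_const z t

omit [CompleteSpace B] in
theorem ex_zero (z : B) : ex 0 z = 1 := by simp [ex]

omit [CompleteSpace B] in
theorem ex_zero' (t : ℝ) : ex t (0 : B) = 1 := by simp [ex]

theorem ex_add {y z : B} (h : Commute y z) (t : ℝ) : ex t (y + z) = ex t y * ex t z := by
  rw [ex, smul_add]
  exact NormedSpace.exp_add_of_commute_of_mem_ball ((h.smul_left t).smul_right t) (ball _) (ball _)

theorem ex_add' (z : B) (s t : ℝ) : ex (s + t) z = ex s z * ex t z := by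
  rw [ex, add_smul]
  exact NormedSpace.exp_add_of_commute_of_mem_ball
    (((Commute.refl z).smul_left s).smul_right t) (ball _) (ball _)

theorem ex_neg_mul (z : B) (t : ℝ) : ex (-t) z * ex t z = 1 := by
  rw [← ex_add', neg_add_cancel, ex_zero]

theorem ex_mul_neg (z : B) (t : ℝ) : ex t z * ex (-t) z = 1 := by
  rw [← ex_add', add_neg_cancel, ex_zero]

omit [CompleteSpace B] in
theorem ex_commute {w z : B} (h : Commute w z) (t : ℝ) : Commute w (ex t z) :=
  (h.smul_right t).exp_right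

variable (B) in
/-- A constant. -/
def kk : ℝ := ‖(1 : B)‖ + 1

variable (B) in
omit [NormedAlgebra ℝ B] [CompleteSpace B] in
theorem kk_pos : 0 < kk B := by unfold kk; positivity

theorem ex_norm (z : B) (t : ℝ) : ‖ex t z‖ ≤ 3 * kk B * Real.exp (|t| * ‖z‖) := by
  have h := gron (W := fun s => ex s (t • z)) (W' := fun s => (t • z) * ex s (t • z))
    (β := fun s => s * (|t| * ‖z‖)) (β' := fun _ => |t| * ‖z‖) (kk_pos B)
    (fun s => ex_deriv _ _) (fun s => ((hasDerivAt_id' (s : ℝ)).mul_const _).congr_deriv (one_mul _))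
    (fun s => by
      refine (norm_mul_le _ _).trans ?_
      rw [norm_smul, Real.norm_eq_abs]
      exact le_add_of_nonneg_right (mul_pos (kk_pos B) (Real.exp_pos _)).le)
    (by simp [ex_zero, kk]) ⟨1, by simp⟩
  simpa [ex] using h

theorem ex_norm' {z : B} (hz : ‖z‖ ≤ 1 / 12) {l : ℝ} (hl : 0 ≤ l) :
    ‖ex l z‖ ≤ 3 * kk B * Real.exp (l / 12) ∧ ‖ex (-l) z‖ ≤ 3 * kk B * Real.exp (l / 12) := by
  have := kk_pos B
  have h : l * ‖z‖ ≤ l / 12 := by nlinarith
  constructor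
  · refine (ex_norm z l).trans ?_
    rw [abs_of_nonneg hl]
    gcongr
  · refine (ex_norm z (-l)).trans ?_
    rw [abs_neg, abs_of_nonneg hl]
    gcongr

theorem exp_mem {l : ℝ} (hl : 1 ≤ l) : Real.exp (-l) ∈ Ioo (0 : ℝ) 1 ∧ Real.exp (-l) ≤ 1 / 2 := by
  have h : Real.exp (-l) ≤ 1 / 2 := by
    rw [Real.exp_neg, one_div]
    exact inv_anti₀ two_pos (by linarith [Real.add_one_le_exp l])
  exact ⟨⟨Real.exp_pos _, by linarith⟩, h⟩

theorem Ln_mem {r : ℝ} (h0 : 0 < r) (h1 : r ≤ 1 / 2) : 1 / 6 ≤ Ln r ∧ Ln r ≤ 1 := by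
  have h2 : (1 + r)⁻¹ ≤ 1 := inv_le_one_of_one_le₀ (by linarith)
  have h3 : (3 / 2 : ℝ)⁻¹ ≤ (1 + r)⁻¹ := inv_anti₀ (by linarith) (by linarith)
  unfold Ln
  constructor <;> linarith

/-- The exponent in the bound for the transport. -/
def bt (a b g : B) (r s : ℝ) : ℝ :=
  ‖a‖ * (Real.log (xc r s) - Real.log r) + ‖b‖ * (Real.log (1 - r) - Real.log (1 - xc r s)) + ‖g‖ * s

theorem xc_deriv (r s : ℝ) : HasDerivAt (xc r) (Ln r) s :=
  (((hasDerivAt_id' s).mul_const (Ln r)).const_add r).congr_deriv (one_mul _)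

omit [NormedAlgebra ℝ B] [CompleteSpace B] in
theorem bt_deriv (a b g : B) {r : ℝ} (hr : r ∈ Ioo (0 : ℝ) 1) (s : UI) : HasDerivAt (bt a b g r)
    (Ln r * ((xc r s)⁻¹ * ‖a‖ + (1 - xc r s)⁻¹ * ‖b‖) + ‖g‖) s := by
  refine ((((((xc_deriv r s).log (xc_ne hr s).1).sub_const _).const_mul _).fun_add
    (((((xc_deriv r s).const_sub 1).log (xc_ne hr s).2.1).const_sub _).const_mul _)).fun_add
    ((hasDerivAt_id' (s : ℝ)).const_mul _)).congr_deriv ?_
  ring

omit [CompleteSpace B] in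
theorem Ac_sub (a b g : B) {r : ℝ} (hr : r ∈ Ioo (0 : ℝ) 1) (h1 : r ≤ 1 / 2) (s : UI) :
    ‖Ac a b g r s - Ac a b 0 r s‖ ≤ 2 * r * ‖g‖ := by
  obtain ⟨h2, h3⟩ := Ln_mem hr.1 h1
  obtain ⟨h4, h5⟩ := xc_mem hr s
  have h6 : (1 - xc r s * r)⁻¹ ≤ (1 / 2 : ℝ)⁻¹ := inv_anti₀ (by norm_num) (by nlinarith [hr.1])
  have h7 : 0 < (1 - xc r s * r)⁻¹ := inv_pos.2 (by nlinarith [hr.1, hr.2])
  have e : Ac a b g r s - Ac a b 0 r s = (Ln r * (r * (1 - xc r s * r)⁻¹)) • g := by
    rw [Ac_apply a b g hr, Ac_apply a b 0 hr, Pf, Pf]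
    module
  have h8 := mul_pos hr.1 h7
  rw [e, norm_smul, Real.norm_of_nonneg (by positivity)]
  refine mul_le_mul_of_nonneg_right ?_ (norm_nonneg _)
  have h9 : r * (1 - xc r s * r)⁻¹ ≤ r * 2 :=
    mul_le_mul_of_nonneg_left (h6.trans (by norm_num)) hr.1.le
  nlinarith

omit [CompleteSpace B] in
theorem Ac_norm (a b g : B) {r : ℝ} (hr : r ∈ Ioo (0 : ℝ) 1) (h1 : r ≤ 1 / 2) (s : UI) :
    ‖Ac a b g r s‖ ≤ Ln r * ((xc r s)⁻¹ * ‖a‖ + (1 - xc r s)⁻¹ * ‖b‖) + ‖g‖ := by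
  obtain ⟨h2, h3⟩ := Ln_mem hr.1 h1
  obtain ⟨h4, h5⟩ := xc_mem hr s
  have h6 : ‖Ac a b 0 r s‖ ≤ Ln r * ((xc r s)⁻¹ * ‖a‖ + (1 - xc r s)⁻¹ * ‖b‖) := by
    rw [Ac_apply a b 0 hr, Pf, smul_zero, add_zero, norm_smul, Real.norm_of_nonneg (by linarith)]
    refine mul_le_mul_of_nonneg_left ((norm_sub_le _ _).trans (le_of_eq ?_)) (by linarith)
    rw [norm_smul, norm_smul, Real.norm_of_nonneg (inv_pos.2 h4).le,
      Real.norm_of_nonneg (inv_pos.2 (by linarith)).le]
  have h7 := Ac_sub a b g hr h1 s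
  have h8 := norm_le_norm_add_norm_sub' (Ac a b g r s) (Ac a b 0 r s)
  nlinarith [norm_nonneg g]

theorem sol_norm (a b g : B) {r : ℝ} (hr : r ∈ Ioo (0 : ℝ) 1) (h1 : r ≤ 1 / 2) (s : UI) :
    ‖sol (Ac a b g r) s‖ ≤ 3 * kk B * Real.exp (bt a b g r s) :=
  gron (W' := fun t => xt (Ac a b g r) t * sol (Ac a b g r) t)
    (β' := fun s => Ln r * ((xc r s)⁻¹ * ‖a‖ + (1 - xc r s)⁻¹ * ‖b‖) + ‖g‖) (kk_pos B)
    (fun s => by rw [xt_coe]; exact sol_deriv _ s) (bt_deriv a b g hr)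
    (fun s => by
      rw [xt_coe]
      exact ((norm_mul_le _ _).trans (mul_le_mul_of_nonneg_right (Ac_norm a b g hr h1 s)
        (norm_nonneg _))).trans (le_add_of_nonneg_right (mul_pos (kk_pos B) (Real.exp_pos _)).le))
    (by simp [sol_zero, kk, bt, xc]) s

theorem sol_sub (a b g : B) {r : ℝ} (hr : r ∈ Ioo (0 : ℝ) 1) (h1 : r ≤ 1 / 2) (s : UI) :
    ‖sol (Ac a b g r) s - sol (Ac a b 0 r) s‖ ≤
      3 * (6 * kk B * r * (‖g‖ + 1)) * Real.exp (bt a b g r s) := by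
  have hk := kk_pos B
  have h0 := hr.1
  refine gron (W := fun t => sol (Ac a b g r) t - sol (Ac a b 0 r) t)
    (W' := fun t => xt (Ac a b g r) t * (sol (Ac a b g r) t - sol (Ac a b 0 r) t) +
      (xt (Ac a b g r) t - xt (Ac a b 0 r) t) * sol (Ac a b 0 r) t)
    (β' := fun s => Ln r * ((xc r s)⁻¹ * ‖a‖ + (1 - xc r s)⁻¹ * ‖b‖) + ‖g‖) (by positivity)
    (fun s => ?_) (bt_deriv a b g hr) (fun s => ?_) (by simp [sol_zero]; positivity) s
  · refine ((sol_deriv _ s).fun_sub (sol_deriv _ s)).congr_deriv ?_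
    simp only [xt_coe]
    noncomm_ring
  · simp only [xt_coe]
    refine (norm_add_le _ _).trans (add_le_add ((norm_mul_le _ _).trans
      (mul_le_mul_of_nonneg_right (Ac_norm a b g hr h1 s) (norm_nonneg _))) ?_)
    have h2 : bt a b 0 r s ≤ bt a b g r s := by
      simp only [bt, norm_zero, zero_mul, add_zero]
      exact le_add_of_nonneg_right (mul_nonneg (norm_nonneg _) s.2.1)
    calc _ ≤ 2 * r * ‖g‖ * (3 * kk B * Real.exp (bt a b 0 r s)) := (norm_mul_le _ _).trans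
          (mul_le_mul (Ac_sub a b g hr h1 s) (sol_norm a b 0 hr h1 s) (norm_nonneg _) (by positivity))
      _ ≤ 2 * r * (‖g‖ + 1) * (3 * kk B * Real.exp (bt a b g r s)) := by gcongr; linarith
      _ = _ := by ring

theorem xc_one (r : ℝ) : xc r 1 = (1 + r)⁻¹ := by simp [xc, Ln]

theorem log_xc {r : ℝ} (h0 : 0 < r) :
    Real.log (1 - xc r 1) = Real.log r - Real.log (1 + r) := by
  rw [xc_one, ← Real.log_div h0.ne' (by linarith)]
  congr 1
  field_simp
  ring

omit [NormedAlgebra ℝ B] [CompleteSpace B] in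
theorem bt_one (ha : ‖a‖ ≤ 1 / 12) (hb : ‖b‖ ≤ 1 / 12) (g : B) {l : ℝ} (hl : 1 ≤ l) :
    bt a b g (Real.exp (-l)) 1 ≤ l / 6 + ‖g‖ := by
  obtain ⟨hr, -⟩ := exp_mem hl
  have h1 := Real.log_le_sub_one_of_pos (x := 1 - Real.exp (-l)) (by linarith [hr.2])
  have h2 := Real.log_le_sub_one_of_pos (x := 1 + Real.exp (-l)) (by linarith [hr.1])
  have h3 := Real.log_nonneg (x := 1 + Real.exp (-l)) (by linarith [hr.1])
  rw [bt, log_xc hr.1, xc_one, Real.log_inv, Real.log_exp]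
  nlinarith [norm_nonneg a, norm_nonneg b]

theorem Sq_deriv (ha : ‖a‖ ≤ 1 / 12) (hb : ‖b‖ ≤ 1 / 12) {l : ℝ} (hl : 1 ≤ l) :
    ∃ d, HasDerivAt (Sq a b) d l ∧ ‖d‖ ≤ 27 * kk B ^ 3 * Real.exp (-(l / 2)) := by
  obtain ⟨hr, h1⟩ := exp_mem hl
  have hT := Tr_deriv (rel_two a b) hr
  rw [add_zero, sub_self] at hT
  have hn : ‖Tr a b 0 (Real.exp (-l))‖ ≤ 3 * kk B * Real.exp (l / 6) :=
    (sol_norm a b 0 hr h1 ⟨1, by simp⟩).trans (by
      have := kk_pos B
      have h2 := bt_one ha hb (0 : B) hl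
      rw [norm_zero, add_zero] at h2
      gcongr)
  have hd := ((ex_deriv' b l).fun_mul (hT.scomp l (hasDerivAt_neg' l).exp)).fun_mul
    ((ex_deriv a (-l)).scomp l (hasDerivAt_neg' l))
  set r := Real.exp (-l) with hrl
  set T := Tr a b 0 r
  have r0 := hr.1
  have r2 : 0 < 1 + r := by linarith
  have r3 : 0 < 1 - r ^ 2 := by nlinarith
  refine ⟨ex l b * ((r * (1 + r)⁻¹) • ((b + a) * T) -
    (r * (1 + r)⁻¹ + r * (2 * r * (1 - r ^ 2)⁻¹)) • (T * b)) * ex (-l) a, hd.congr_deriv ?_, ?_⟩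
  · simp only [Function.comp, Md, mul_add, add_mul, mul_sub, sub_mul, smul_mul_assoc, mul_smul_comm,
      mul_assoc, add_zero, zero_add, smul_zero, sub_zero, smul_add, smul_sub, ← hrl]
    match_scalars <;> field_simp <;> ring
  · have h2 : (1 + r)⁻¹ ≤ 1 := inv_le_one_of_one_le₀ (by linarith)
    have h3 : (1 - r ^ 2)⁻¹ ≤ (1 / 2 : ℝ)⁻¹ := inv_anti₀ (by norm_num) (by nlinarith)
    have h4 := inv_pos.2 r2
    have h5 := inv_pos.2 r3
    have h6 : ‖(r * (1 + r)⁻¹) • ((b + a) * T) -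
        (r * (1 + r)⁻¹ + r * (2 * r * (1 - r ^ 2)⁻¹)) • (T * b)‖ ≤ r * ‖T‖ := by
      refine (norm_sub_le _ _).trans ?_
      rw [norm_smul, norm_smul, Real.norm_of_nonneg (by positivity),
        Real.norm_of_nonneg (by positivity)]
      have h7 : ‖(b + a) * T‖ ≤ 1 / 6 * ‖T‖ := (norm_mul_le _ _).trans
        (mul_le_mul_of_nonneg_right ((norm_add_le _ _).trans (by linarith)) (norm_nonneg _))
      have h8 : ‖T * b‖ ≤ ‖T‖ * (1 / 12) := (norm_mul_le _ _).trans
        (mul_le_mul_of_nonneg_left hb (norm_nonneg _))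
      have h9 : 2 * r * (1 - r ^ 2)⁻¹ ≤ 2 := by nlinarith
      calc _ ≤ r * 1 * (1 / 6 * ‖T‖) + (r * 1 + r * 2) * (‖T‖ * (1 / 12)) := by gcongr
        _ ≤ _ := by nlinarith [mul_nonneg r0.le (norm_nonneg T)]
    have hk := kk_pos B
    calc _ ≤ 3 * kk B * Real.exp (l / 12) * (r * (3 * kk B * Real.exp (l / 6))) *
          (3 * kk B * Real.exp (l / 12)) := (norm_mul_le _ _).trans (mul_le_mul
            ((norm_mul_le _ _).trans (mul_le_mul (ex_norm' hb (by linarith)).1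
              (h6.trans (mul_le_mul_of_nonneg_left hn r0.le)) (norm_nonneg _) (by positivity)))
            (ex_norm' ha (by linarith)).2 (norm_nonneg _) (by positivity))
      _ = 27 * kk B ^ 3 * Real.exp (l / 12 + -l + l / 6 + l / 12) := by
          rw [Real.exp_add, Real.exp_add, Real.exp_add]; ring
      _ ≤ _ := by gcongr; linarith

theorem exists_phi (ha : ‖a‖ ≤ 1 / 12) (hb : ‖b‖ ≤ 1 / 12) : ∃ p, IsPhi a b p := by
  refine cauchySeq_tendsto_of_complete (cauchySeq_of_le_geometric (Real.exp (-(1 / 2)))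
    (27 * kk B ^ 3) (by rw [Real.exp_lt_one_iff]; norm_num) fun n => ?_)
  have hn : (0 : ℝ) ≤ n := Nat.cast_nonneg n
  choose! S' h1 h2 using fun (l : ℝ) (hl : 1 ≤ l) => Sq_deriv ha hb hl
  have h3 := norm_image_sub_le_of_norm_deriv_le_segment' (f := Sq a b) (f' := S')
    (a := (n : ℝ) + 1) (b := (n : ℝ) + 1 + 1) (C := 27 * kk B ^ 3 * Real.exp (-(1 / 2)) ^ n)
    (fun x hx => (h1 x (by linarith [hx.1])).hasDerivWithinAt)
    (fun x hx => (h2 x (by linarith [hx.1])).trans (by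
      rw [← Real.exp_nat_mul]
      have := kk_pos B
      gcongr
      linarith [hx.1])) ((n : ℝ) + 1 + 1) ⟨by linarith, le_rfl⟩
  rw [dist_comm, dist_eq_norm]
  push_cast
  simpa using h3

theorem IsPhi.unique (h : IsPhi a b p) (h' : IsPhi a b p') : p = p' := tendsto_nhds_unique h h'

theorem nat_ge (n : ℕ) : (1 : ℝ) ≤ n + 1 := le_add_of_nonneg_left (Nat.cast_nonneg n)

theorem Tr_commute {z : B} (h1 : Commute z a) (h2 : Commute z b) {r : ℝ} (hr : r ∈ Ioo (0 : ℝ) 1) :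
    Commute z (Tr a b 0 r) :=
  sol_commute _ (fun s => by
    rw [Ac_apply _ _ _ hr, Pf, smul_zero, add_zero]
    exact ((h1.smul_right _).sub_right (h2.smul_right _)).smul_right _) ⟨1, by simp⟩

theorem Sq_commute {z : B} (h1 : Commute z a) (h2 : Commute z b) {l : ℝ} (hl : 1 ≤ l) :
    Commute z (Sq a b l) :=
  ((ex_commute h2 _).mul_right (Tr_commute h1 h2 (exp_mem hl).1)).mul_right (ex_commute h1 _)

theorem IsPhi.map {B' : Type} [NormedRing B'] [NormedAlgebra ℝ B'] [CompleteSpace B']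
    (f : B →L[ℝ] B') (h1 : f 1 = 1) (hm : ∀ x y, f (x * y) = f x * f y) (h : IsPhi a b p) :
    IsPhi (f a) (f b) (f p) := by
  have hf : ∀ t z, ex t (f z) = f (ex t z) := fun t z => by
    let F : B →+* B' := ⟨⟨⟨f, h1⟩, hm⟩, map_zero f, map_add f⟩
    rw [ex, ← map_smul]
    exact (NormedSpace.map_exp_of_mem_ball F f.continuous _ (ball _)).symm
  refine ((f.continuous.tendsto p).comp h).congr fun n => ?_
  have hr := (exp_mem (nat_ge n)).1
  simp only [Function.comp, Sq, hm, hf]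
  congr 2
  exact (sol_map f h1 hm _ _ (fun s => by
    rw [Ac_apply _ _ _ hr, Ac_apply _ _ _ hr]; simp [Pf]) ⟨1, by simp⟩).symm

theorem IsPhi.mul (h1 : Commute a a') (h2 : Commute a b') (h3 : Commute b a') (h4 : Commute b b')
    (h : IsPhi a b p) (h' : IsPhi a' b' p') : IsPhi (a + a') (b + b') (p * p') := by
  refine (Tendsto.mul h h').congr fun n => ?_
  have hr := (exp_mem (nat_ge n)).1
  set l : ℝ := n + 1
  set r := Real.exp (-l) with hrl
  have e : Tr (a + a') (b + b') 0 r = Tr a b 0 r * Tr a' b' 0 r := by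
    have e1 : Ac (a + a') (b + b') 0 r = Ac a b 0 r + Ac a' b' 0 r := by
      ext s
      simp only [ContinuousMap.add_apply, Ac_apply _ _ _ hr, Pf]
      module
    unfold Tr
    rw [e1]
    refine sol_add _ _ (fun s t => ?_) ⟨1, by simp⟩
    simp only [Ac_apply _ _ _ hr, Pf, smul_zero, add_zero]
    exact (((((h1.symm.smul_right _).sub_right (h3.symm.smul_right _)).smul_left _).sub_left
      (((h2.symm.smul_right _).sub_right (h4.symm.smul_right _)).smul_left _)).smul_left _).smul_right _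
  have c1 : Commute (ex l b') (Tr a b 0 r) :=
    Tr_commute (ex_commute h2 _).symm (ex_commute h4 _).symm hr
  have c2 : Commute (ex (-l) a) (Tr a' b' 0 r) :=
    Tr_commute (ex_commute h1.symm _).symm (ex_commute h2.symm _).symm hr
  have c3 : Commute (ex (-l) a) (ex l b') := ex_commute (ex_commute h2.symm _).symm _
  simp only [Sq, ← hrl, e, ex_add h1, ex_add h4, mul_assoc]
  rw [c3.left_comm, c2.left_comm, c1.left_comm]

theorem isPhi_one (h : Commute a b) : IsPhi a b 1 := by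
  have hr : Tendsto (fun n : ℕ => Real.exp (-((n : ℝ) + 1))) atTop (𝓝 0) :=
    Real.tendsto_exp_neg_atTop_nhds_zero.comp
      (tendsto_atTop_add_const_right _ _ tendsto_natCast_atTop_atTop)
  have hc : ∀ z : B, Continuous fun t => ex t z := fun z =>
    continuous_iff_continuousAt.2 fun t => (ex_deriv z t).continuousAt
  have hp : Tendsto (fun n : ℕ => Real.log (1 + Real.exp (-((n : ℝ) + 1)))) atTop (𝓝 0) := by
    simpa using (hr.const_add 1).log (by simp)
  have hq : Tendsto (fun n : ℕ => Real.log (1 - Real.exp (-((n : ℝ) + 1)))) atTop (𝓝 0) := by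
    simpa using (hr.const_sub 1).log (by simp)
  have h1 : IsPhi a 0 1 := by
    have h3 := ((hc a).tendsto _).comp hp.neg
    rw [neg_zero, ex_zero] at h3
    refine h3.congr fun n => ?_
    have hr := (exp_mem (nat_ge n)).1
    set l : ℝ := n + 1
    have e := sol_unique (Ac a 0 0 (Real.exp (-l))) (F := fun s => ex (Real.log (xc (Real.exp (-l)) s) + l) a)
      (fun s => by
        refine ((ex_deriv a _).scomp (s : ℝ)
          (((xc_deriv _ _).log (xc_ne hr s).1).add_const l)).congr_deriv ?_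
        simp [Ac_apply _ _ _ hr, Pf, smul_smul, div_eq_mul_inv])
      (by simp [xc, ex_zero]) ⟨1, by simp⟩
    simp only [Function.comp, Sq, ex_zero', one_mul, Tr]
    rw [show sol _ 1 = _ from e, ← ex_add', xc_one, Real.log_inv, add_neg_cancel_right]
  have h2 : IsPhi 0 b 1 := by
    have h3 := ((hc b).tendsto _).comp (hp.neg.sub hq)
    rw [neg_zero, sub_zero, ex_zero] at h3
    refine h3.congr fun n => ?_
    have hr := (exp_mem (nat_ge n)).1
    set l : ℝ := n + 1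
    have e := sol_unique (Ac 0 b 0 (Real.exp (-l)))
      (F := fun s => ex (Real.log (1 - xc (Real.exp (-l)) s) - Real.log (1 - Real.exp (-l))) b)
      (fun s => by
        refine ((ex_deriv b _).scomp (s : ℝ)
          ((((xc_deriv _ _).const_sub 1).log (xc_ne hr s).2.1).sub_const _)).congr_deriv ?_
        simp [Ac_apply _ _ _ hr, Pf, smul_smul, div_eq_mul_inv])
      (by simp [xc, ex_zero]) ⟨1, by simp⟩
    simp only [Function.comp, Sq, ex_zero', mul_one, Tr]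
    rw [show sol _ 1 = _ from e, ← ex_add', log_xc hr.1, Real.log_exp]
    congr 1
    ring
  simpa using IsPhi.mul (Commute.zero_right a) h (Commute.zero_left 0) (Commute.zero_left b) h1 h2

theorem tendsto_S5 {a1 a2 a3 a4 a5 : B} (h : Rel a1 a2 a3 a4 a5) (n1 : ‖a1‖ ≤ 1 / 12)
    (n2 : ‖a2‖ ≤ 1 / 12) (n4 : ‖a4‖ ≤ 1 / 12) (h12 : IsPhi a1 a2 p) :
    Tendsto (fun n : ℕ => ex (n + 1) (a4 + a2) * Tr a1 a2 (a2 + a3 - a5) (Real.exp (-(n + 1))) *
      ex (-(n + 1)) (a1 + a4)) atTop (𝓝 p) := by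
  set g := a2 + a3 - a5
  have hk := kk_pos B
  have hr : Tendsto (fun n : ℕ => (3 * kk B) ^ 4 * (18 * kk B * (‖g‖ + 1) * Real.exp ‖g‖) *
      Real.exp (-(((n : ℝ) + 1) / 2))) atTop (𝓝 0) := by
    simpa using (Real.tendsto_exp_neg_atTop_nhds_zero.comp ((tendsto_atTop_add_const_right _ 1
      tendsto_natCast_atTop_atTop).atTop_div_const two_pos)).const_mul
      ((3 * kk B) ^ 4 * (18 * kk B * (‖g‖ + 1) * Real.exp ‖g‖))
  refine h12.congr_dist (squeeze_zero (fun _ => dist_nonneg) (fun n => ?_) hr)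
  have hl := nat_ge n
  set l : ℝ := n + 1
  obtain ⟨hr, h1⟩ := exp_mem hl
  have e : ex l (a4 + a2) * Tr a1 a2 g (Real.exp (-l)) * ex (-l) (a1 + a4) - Sq a1 a2 l =
      ex l a4 * ex l a2 * (Tr a1 a2 g (Real.exp (-l)) - Tr a1 a2 0 (Real.exp (-l))) *
        ex (-l) a1 * ex (-l) a4 := by
    have c := (ex_commute (Sq_commute h.c41 h.c24.symm hl).symm l).symm
    have e1 : Sq a1 a2 l = ex l a4 * Sq a1 a2 l * ex (-l) a4 := by
      rw [c.eq, mul_assoc, ex_mul_neg, mul_one]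
    rw [e1, Sq, ex_add h.c24.symm, ex_add h.c41.symm]
    noncomm_ring
  have h2 : ‖Tr a1 a2 g (Real.exp (-l)) - Tr a1 a2 0 (Real.exp (-l))‖ ≤
      3 * (6 * kk B * Real.exp (-l) * (‖g‖ + 1)) * Real.exp (l / 6 + ‖g‖) :=
    (sol_sub a1 a2 g hr h1 ⟨1, by simp⟩).trans (by
      have := bt_one n1 n2 g hl
      gcongr)
  have l0 : 0 ≤ l := by linarith
  rw [dist_comm, dist_eq_norm, e]
  calc _ ≤ 3 * kk B * Real.exp (l / 12) * (3 * kk B * Real.exp (l / 12)) *
        (3 * (6 * kk B * Real.exp (-l) * (‖g‖ + 1)) * Real.exp (l / 6 + ‖g‖)) *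
        (3 * kk B * Real.exp (l / 12)) * (3 * kk B * Real.exp (l / 12)) :=
        norm_mul_le_of_le (norm_mul_le_of_le (norm_mul_le_of_le (norm_mul_le_of_le
          (ex_norm' n4 l0).1 (ex_norm' n2 l0).1) h2) (ex_norm' n1 l0).2) (ex_norm' n4 l0).2
    _ = (3 * kk B) ^ 4 * (18 * kk B * (‖g‖ + 1) * Real.exp ‖g‖) *
        Real.exp (l / 12 + l / 12 + -l + l / 6 + l / 12 + l / 12) := by
        simp only [Real.exp_add]; ring
    _ = _ := by congr 2; ring

theorem pentagon {a1 a2 a3 a4 a5 p12 p23 p34 p45 p51 : B} (h : Rel a1 a2 a3 a4 a5)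
    (n1 : ‖a1‖ ≤ 1 / 12) (n2 : ‖a2‖ ≤ 1 / 12) (n3 : ‖a3‖ ≤ 1 / 12) (n4 : ‖a4‖ ≤ 1 / 12)
    (n5 : ‖a5‖ ≤ 1 / 12) (h12 : IsPhi a1 a2 p12) (h23 : IsPhi a2 a3 p23) (h34 : IsPhi a3 a4 p34)
    (h45 : IsPhi a4 a5 p45) (h51 : IsPhi a5 a1 p51) : p34 * p51 * p23 * p45 * p12 = 1 := by
  have t := ((((tendsto_S5 h.shift.shift.shift.shift n3 n4 n1 h34).mul
    (tendsto_S5 h.shift.shift.shift n5 n1 n3 h51)).mul (tendsto_S5 h.shift.shift n2 n3 n5 h23)).mul
    (tendsto_S5 h.shift n4 n5 n2 h45)).mul (tendsto_S5 h n1 n2 n4 h12)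
  refine tendsto_nhds_unique t (tendsto_const_nhds.congr fun n => ?_)
  have e : ∀ (z y : B) (l : ℝ), ex (-l) z * (ex l z * y) = y := fun z y l => by
    rw [← mul_assoc, ex_neg_mul, one_mul]
  have h1 := Tr_prod h (exp_mem (nat_ge n)).1
  have h2 := congrArg (fun y => ex (n + 1) (a1 + a4) * y * ex (-(n + 1)) (a1 + a4)) h1
  simp only [mul_one, ex_mul_neg, mul_assoc] at h2
  simp only [mul_assoc, e, h2]

theorem le_of_deriv {f g : ℝ → ℝ} {f' g' : UI → ℝ} (hf : ∀ s : UI, HasDerivAt f (f' s) s)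
    (hg : ∀ s : UI, HasDerivAt g (g' s) s) (h0 : f 0 ≤ g 0) (h : ∀ s : UI, f' s ≤ g' s) (s : UI) :
    f s ≤ g s :=
  image_le_of_deriv_right_le_deriv_boundary (a := 0) (b := 1)
    (f' := fun x => f' (projIcc 0 1 zero_le_one x)) (B' := fun x => g' (projIcc 0 1 zero_le_one x))
    (fun x hx => (hf ⟨x, hx⟩).continuousAt.continuousWithinAt)
    (fun x hx => by
      rw [projIcc_of_mem _ (Ico_subset_Icc_self hx)]; exact (hf ⟨x, _⟩).hasDerivWithinAt) h0
    (fun x hx => (hg ⟨x, hx⟩).continuousAt.continuousWithinAt)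
    (fun x hx => by
      rw [projIcc_of_mem _ (Ico_subset_Icc_self hx)]; exact (hg ⟨x, _⟩).hasDerivWithinAt)
    (fun _ _ => h _) s.2

theorem dep1 (e : B →L[ℝ] ℝ) (l : ℕ → B →L[ℝ] ℝ) {n : ℕ} (e1 : e 1 = 1) (ea : ∀ z, e (a * z) = 0)
    (eb : ∀ z, e (b * z) = 0) (l1 : ∀ j, l j 1 = 0) (l0a : ∀ z, l 0 (a * z) = 0)
    (l0b : ∀ z, l 0 (b * z) = e z) (la : ∀ j < n, ∀ z, l (j + 1) (a * z) = l j z)
    (lb : ∀ j z, l (j + 1) (b * z) = 0) (lr : ∀ z, l n (z * a) = 0) (h : IsPhi a b p) (hn : 1 ≤ n) :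
    l n p < 0 := by
  have key : ∀ l' : ℝ, 1 ≤ l' → l n (Sq a b l') ≤ -((1 / 6) ^ (n + 1) / (n + 1).factorial) := by
    intro l' hl
    obtain ⟨hr, h1⟩ := exp_mem hl
    set r := Real.exp (-l') with hrl
    obtain ⟨h2, h3⟩ := Ln_mem hr.1 h1
    have hd : ∀ (φ : B →L[ℝ] ℝ) (s : UI), HasDerivAt (fun t => φ (sol (Ac a b 0 r) t))
        (Ln r * ((xc r s)⁻¹ * φ (a * sol (Ac a b 0 r) s) -
          (1 - xc r s)⁻¹ * φ (b * sol (Ac a b 0 r) s))) s := fun φ s => by
      refine (φ.hasFDerivAt.comp_hasDerivAt _ (sol_deriv _ s)).congr_deriv ?_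
      simp [Ac_apply _ _ _ hr, Pf, sub_mul]
    have he : ∀ s : UI, e (sol (Ac a b 0 r) s) = 1 := fun s =>
      sub_eq_zero.1 (eq_zero (W := fun t => e (sol (Ac a b 0 r) t) - 1) (W' := fun _ => 0) (K := 0)
        (fun s => ((hd e s).sub_const 1).congr_deriv (by simp [ea, eb])) (by simp)
        (by simp [sol_zero, e1]) s)
    have hj : ∀ j ≤ n, ∀ s : UI,
        l j (sol (Ac a b 0 r) s) ≤ -((Ln r * s) ^ (j + 1) / (j + 1).factorial) := by
      have hg : ∀ (j : ℕ) (s : UI), HasDerivAt (fun t => -((Ln r * t) ^ (j + 1) / (j + 1).factorial))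
          (-(Ln r * ((Ln r * s) ^ j / j.factorial))) s := fun j s => by
        refine (((((hasDerivAt_id' (s : ℝ)).const_mul (Ln r)).fun_pow (j + 1)).div_const
          ((j + 1).factorial : ℝ)).fun_neg).congr_deriv ?_
        rw [Nat.factorial_succ]
        push_cast
        field_simp
      intro j
      induction j with
      | zero =>
        refine fun _ => le_of_deriv (hd (l 0)) (hg 0) (by simp [sol_zero, l1]) fun s => ?_
        obtain ⟨h4, h5⟩ := xc_mem hr s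
        have h6 : 1 ≤ (1 - xc r s)⁻¹ := (one_le_inv₀ (by linarith)).2 (by linarith)
        simp only [l0a, l0b, he, pow_zero, Nat.factorial_zero, Nat.cast_one]
        nlinarith
      | succ j ih =>
        refine fun hj => le_of_deriv (hd (l (j + 1))) (hg (j + 1)) (by simp [sol_zero, l1]) fun s => ?_
        obtain ⟨h4, h5⟩ := xc_mem hr s
        have h6 : 1 ≤ (xc r s)⁻¹ := (one_le_inv₀ h4).2 h5.le
        have h7 := ih (by omega) s
        have h8 : 0 ≤ (Ln r * s) ^ (j + 1) / (j + 1).factorial :=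
          div_nonneg (pow_nonneg (mul_nonneg (by linarith) s.2.1) _) (Nat.cast_nonneg _)
        rw [la j (by omega), lb, mul_zero, sub_zero, ← mul_neg]
        exact mul_le_mul_of_nonneg_left (by nlinarith) (by linarith)
    obtain ⟨m, rfl⟩ : ∃ m, n = m + 1 := ⟨n - 1, by omega⟩
    have f1 : ∀ y t, l (m + 1) (y * ex t a) = l (m + 1) y := fun y t => by
      have := is_const_of_deriv_eq_zero (f := fun t => l (m + 1) (y * ex t a))
        (fun t => ((l (m + 1)).hasFDerivAt.comp_hasDerivAt t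
          ((ex_deriv' a t).const_mul y)).differentiableAt)
        (fun t => (HasDerivAt.deriv (f := fun t => l (m + 1) (y * ex t a))
          ((l (m + 1)).hasFDerivAt.comp_hasDerivAt t
            ((ex_deriv' a t).const_mul y))).trans (by rw [← mul_assoc, lr])) t 0
      simpa [ex_zero] using this
    have f2 : ∀ y t, l (m + 1) (ex t b * y) = l (m + 1) y := fun y t => by
      have := is_const_of_deriv_eq_zero (f := fun t => l (m + 1) (ex t b * y))
        (fun t => ((l (m + 1)).hasFDerivAt.comp_hasDerivAt t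
          ((ex_deriv b t).mul_const y)).differentiableAt)
        (fun t => (HasDerivAt.deriv (f := fun t => l (m + 1) (ex t b * y))
          ((l (m + 1)).hasFDerivAt.comp_hasDerivAt t
            ((ex_deriv b t).mul_const y))).trans (by rw [mul_assoc, lb])) t 0
      simpa [ex_zero] using this
    rw [Sq, f1, f2]
    refine (hj _ le_rfl ⟨1, by simp⟩).trans (neg_le_neg ?_)
    simp only [mul_one]
    gcongr
  refine (le_of_tendsto' (((l n).continuous.tendsto p).comp h) fun m => key _ (nat_ge m)).trans_lt ?_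
  rw [neg_lt_zero]
  positivity

end

end Pool.Agent.Lib.MP_446a91_nt.Kz
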