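import Pool.Agent.Lib.MP_446a91_nt.CovW
import Pool.Agent.Lib.MP_446a91_nt.DD.KzL

/-! The Drinfeld associator of the KZ equation, modulo degree `> N`. -/

namespace Pool.Agent.Lib.MP_446a91_nt.Kz

/-- All products of `N + 1` members of the family vanish. -/
def Nil {A ι : Type} [Ring A] (N : ℕ) (a : ι → A) : Prop :=
  ∀ w : List ι, w.length = N + 1 → (w.map a).prod = 0

section
variable {A ι κ : Type} [Ring A] [Algebra ℝ A] {N : ℕ} {a : ι → A}

theorem Nil.span (h : Nil N a) {b : κ → A} (hb : ∀ k, b k ∈ Submodule.span ℝ (Set.range a)) :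
    Nil N b := by
  have key : ∀ (v : List κ) (w : List ι), w.length + v.length = N + 1 →
      (w.map a).prod * (v.map b).prod = 0 := by
    intro v
    induction v with
    | nil => intro w hw; simpa using h w hw
    | cons k v ih =>
      intro w hw
      rw [List.map_cons, List.prod_cons]
      generalize b k = z, hb k = hz
      induction hz using Submodule.span_induction with
      | mem z hz =>
        obtain ⟨i, rfl⟩ := hz
        simpa [mul_assoc] using ih (w ++ [i]) (by simp at hw ⊢; omega)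
      | zero => simp
      | add x y _ _ h1 h2 => rw [add_mul, mul_add, h1, h2, add_zero]
      | smul c x _ h1 => rw [smul_mul_assoc, mul_smul_comm, h1, smul_zero]
  intro v hv
  simpa using key v [] (by simpa using hv)

theorem map_evW {A' : Type} [Ring A'] [Algebra ℝ A'] (f : A →ₐ[ℝ] A') (u v : A)
    (p : W ℝ (Fin 2)) : f (evW ![u, v] p) = evW ![f u, f v] p :=
  algHom_eq (φ := f.comp (evW ![u, v])) (fun i => by fin_cases i <;> simp) p

/-- A sum of quadratic monomials. -/
def Qd {A : Type} [Ring A] (a : ι → A) (l : List (ι × ι)) : A := (l.map fun x => a x.1 * a x.2).sum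

theorem exists_norm (S : Type) [Ring S] [Algebra ℝ S] [FiniteDimensional ℝ S] :
    ∃ (M : Type) (_ : NormedRing M) (_ : NormedAlgebra ℝ M), Nonempty (M ≃ₐ[ℝ] S) := by
  let _ := Matrix.linftyOpNormedRing (n := Fin (Module.finrank ℝ S)) (α := ℝ)
  let _ := Matrix.linftyOpNormedAlgebra (n := Fin (Module.finrank ℝ S)) (R := ℝ) (α := ℝ)
  exact ⟨S, NormedRing.induced S _ (Algebra.leftMulMatrix (Module.finBasis ℝ S))
    (Algebra.leftMulMatrix_injective _), NormedAlgebra.induced ℝ S _
      (Algebra.leftMulMatrix (Module.finBasis ℝ S)), ⟨AlgEquiv.refl⟩⟩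

/-- A nilpotent family comes from a family of small elements of a finite-dimensional normed
algebra with the same quadratic relations. -/
theorem exists_model [Finite ι] (h : Nil N a) :
    ∃ (M : Type) (_ : NormedRing M) (_ : NormedAlgebra ℝ M) (_ : FiniteDimensional ℝ M)
      (m : ι → M) (G : M →ₐ[ℝ] A), (∀ i, G (m i) = a i) ∧ (∀ i, ‖m i‖ ≤ 1 / 12) ∧ Nil N m ∧
      ∀ l l', Qd a l = Qd a l' → Qd m l = Qd m l' := by
  let b : ι → ℝ → A := fun i s => s • a i
  have hp : ∀ (w : List ι) (s : ℝ), (w.map b).prod s = s ^ w.length • (w.map a).prod := by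
    intro w s
    induction w with
    | nil => simp
    | cons i w ih => simp [ih, b, pow_succ', smul_smul, mul_comm]
  let S := (evW b : W ℝ ι →ₐ[ℝ] ℝ → A).range
  have : FiniteDimensional ℝ S := by
    have hf := (List.finite_length_le ι N).image fun w => (w.map b).prod
    have := FiniteDimensional.span_of_finite ℝ hf
    refine Submodule.finiteDimensional_of_le (S₁ := S.toSubmodule) (S₂ := Submodule.span ℝ
      ((fun w : List ι => (w.map b).prod) '' {w | w.length ≤ N})) ?_
    rintro _ ⟨p, rfl⟩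
    rw [eq_sum p]
    simp only [AlgHom.toRingHom_eq_coe, RingHom.coe_coe, map_sum, map_smul, evW_wrd]
    refine Submodule.sum_mem _ fun w _ => Submodule.smul_mem _ _ ?_
    by_cases hw : w.length ≤ N
    · exact Submodule.subset_span ⟨w, hw, rfl⟩
    · have : (w.map b).prod = 0 := by
        funext s
        rw [hp, ← List.take_append_drop (N + 1) w, List.map_append, List.prod_append,
          h _ (by simp; omega)]
        simp
      rw [this]; exact zero_mem _
  obtain ⟨M, i1, i2, ⟨e⟩⟩ := exists_norm S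
  let j : M →ₐ[ℝ] ℝ → A := S.val.comp e.toAlgHom
  have hj : Function.Injective j := Subtype.val_injective.comp e.injective
  let m : ι → M := fun i => e.symm ⟨b i, lt i, by simp⟩
  have hm : ∀ i, j (m i) = b i := fun i => by simp [j, m]
  obtain ⟨C, hC⟩ := (Set.finite_range fun i => ‖m i‖).bddAbove
  have h0 : 0 < 12 * (|C| + 1) := by positivity
  have hq : ∀ l s, j (Qd (fun i => (12 * (|C| + 1))⁻¹ • m i) l) s =
      ((12 * (|C| + 1))⁻¹ * s) ^ 2 • Qd a l := by
    intro l s
    induction l with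
    | nil => simp [Qd]
    | cons x l ih =>
      simp only [Qd, List.map_cons, List.sum_cons, map_add, Pi.add_apply, smul_add] at ih ⊢
      rw [ih]
      simp only [map_mul, map_smul, hm, b, Pi.mul_apply, Pi.smul_apply, smul_mul_smul_comm,
        smul_smul, sq]
      rw [mul_mul_mul_comm]
  refine ⟨M, i1, i2, e.symm.toLinearEquiv.finiteDimensional, fun i => (12 * (|C| + 1))⁻¹ • m i,
    (Pi.evalAlgHom ℝ (fun _ => A) (12 * (|C| + 1))).comp j, fun i => ?_, fun i => ?_, ?_,
    fun l l' hl => hj (funext fun s => by rw [hq, hq, hl])⟩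
  · simp only [AlgHom.comp_apply, map_smul, hm, Pi.evalAlgHom_apply, b, smul_smul]
    rw [inv_mul_cancel₀ h0.ne', one_smul]
  · have := hC ⟨i, rfl⟩
    rw [norm_smul, Real.norm_eq_abs, abs_of_pos (inv_pos.2 h0), inv_mul_le_iff₀ h0]
    linarith [le_abs_self C]
  · refine Nil.span (a := m) (fun w hw => hj ?_) fun i =>
      Submodule.smul_mem _ _ (Submodule.subset_span ⟨i, rfl⟩)
    rw [map_list_prod, List.map_map, show j ∘ m = b from funext hm, map_zero]
    funext s
    simp [hp, h w hw]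

end

theorem exists_univ (N : ℕ) : ∃ Φ : W ℝ (Fin 2), ∀ (M : Type) [NormedRing M] [NormedAlgebra ℝ M]
    [CompleteSpace M] (a b : M), Nil N ![a, b] → IsPhi a b (evW ![a, b] Φ) := by
  let r : W ℝ (Fin 2) → W ℝ (Fin 2) → Prop := fun p q =>
    ∃ w : List (Fin 2), w.length = N + 1 ∧ p = wrd w ∧ q = 0
  let π := RingQuot.mkAlgHom ℝ r
  have h : Nil N fun i => π (lt i) := by
    intro w hw
    rw [← evW_wrd (R := ℝ), ← algHom_eq (φ := π) (fun i => by simp),
      RingQuot.mkAlgHom_rel ℝ (s := r) ⟨w, hw, rfl, rfl⟩, map_zero]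
  obtain ⟨T, _, _, _, m, G, hG, hn, -, -⟩ := exists_model h
  have := FiniteDimensional.complete ℝ T
  obtain ⟨φ, hφ⟩ := exists_phi (hn 0) (hn 1)
  obtain ⟨Φ, hΦ⟩ := RingQuot.mkAlgHom_surjective ℝ r (G φ)
  refine ⟨Φ, fun M _ _ _ a b hab => ?_⟩
  let F : RingQuot r →ₐ[ℝ] M := RingQuot.liftAlgHom ℝ ⟨evW ![a, b], by
    rintro _ _ ⟨w, hw, rfl, rfl⟩
    rw [evW_wrd, hab w hw, map_zero]⟩
  have hF : ∀ p, F (π p) = evW ![a, b] p := RingQuot.liftAlgHom_mkAlgHom_apply ℝ _ _
  have := hφ.map (LinearMap.toContinuousLinearMap (F.comp G).toLinearMap) (by simp) (by simp)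
  simpa [hG, ← hΦ, hF, π] using this

/-- The shift representation that detects the coefficient of `x ^ n y`. -/
def sh (n : ℕ) : Fin 2 → Module.End ℝ (ℕ → ℝ) :=
  ![LinearMap.pi fun k => if 2 ≤ k ∧ k ≤ n + 1 then LinearMap.proj (k - 1) else 0,
    LinearMap.pi fun k => if k = 1 then LinearMap.proj 0 else 0]

theorem sh_zero (n k : ℕ) (v : ℕ → ℝ) : sh n 0 v k = if 2 ≤ k ∧ k ≤ n + 1 then v (k - 1) else 0 := by
  by_cases h : 2 ≤ k ∧ k ≤ n + 1 <;> simp [sh, h]

theorem sh_one (n k : ℕ) (v : ℕ → ℝ) : sh n 1 v k = if k = 1 then v 0 else 0 := by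
  by_cases h : k = 1 <;> simp [sh, h]

theorem sh_nil {n N : ℕ} (h : n < N) : Nil N (sh n) := by
  have key : ∀ (w : List (Fin 2)) (v : ℕ → ℝ) (k : ℕ), k < w.length → (w.map (sh n)).prod v k = 0 := by
    intro w v
    induction w with
    | nil => simp
    | cons i w ih =>
      intro k hk
      rw [List.map_cons, List.prod_cons, Module.End.mul_apply]
      rw [List.length_cons] at hk
      obtain rfl | rfl : i = 0 ∨ i = 1 := by omega
      · rw [sh_zero]; split_ifs with h
        exacts [ih _ (by omega), rfl]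
      · rw [sh_one]; split_ifs with h
        exacts [ih _ (by omega), rfl]
  intro w hw
  refine LinearMap.ext fun v => funext fun k => ?_
  by_cases hk : k < w.length
  · exact key w v k hk
  obtain _ | ⟨i, w⟩ := w
  · simp at hw
  rw [List.map_cons, List.prod_cons, Module.End.mul_apply]
  obtain rfl | rfl : i = 0 ∨ i = 1 := by omega
  · rw [sh_zero, if_neg (by omega)]; rfl
  · rw [sh_one, if_neg (by omega)]; rfl

theorem sh_cf {n k : ℕ} (hk : k ≤ n) (p : W ℝ (Fin 2)) :
    evW (sh n) p (Pi.single 0 1) (k + 1) = cf (List.replicate k 0 ++ [1]) p := by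
  have h0 : ∀ w : List (Fin 2), (w.map (sh n)).prod (Pi.single 0 1) 0 = if w = [] then 1 else 0 := by
    rintro (_ | ⟨i, w⟩)
    · simp
    · rw [List.map_cons, List.prod_cons, Module.End.mul_apply]
      obtain rfl | rfl : i = 0 ∨ i = 1 := by omega
      · simp [sh_zero]
      · simp [sh_one]
  have key : ∀ (w : List (Fin 2)) (k : ℕ), k ≤ n → (w.map (sh n)).prod (Pi.single 0 1) (k + 1) =
      if w = List.replicate k 0 ++ [1] then 1 else 0 := by
    intro w
    induction w with
    | nil => simp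
    | cons i w ih =>
      intro k hk
      rw [List.map_cons, List.prod_cons, Module.End.mul_apply]
      obtain rfl | rfl : i = 0 ∨ i = 1 := by omega
      · rw [sh_zero]
        obtain _ | k := k
        · simp
        · rw [if_pos (by omega), Nat.add_sub_cancel, ih k (by omega)]
          simp [List.replicate_succ]
      · rw [sh_one, h0]
        obtain _ | k := k <;> simp [List.replicate_succ]
  exact linW_eq (LinearMap.proj (k + 1) ∘ₗ LinearMap.applyₗ (Pi.single 0 1) ∘ₗ
    (evW (sh n)).toLinearMap) (cf (List.replicate k 0 ++ [1])) p fun w _ =>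
      by simp [evW_wrd, cf_wrd, key w k hk]

theorem exists_kz (N : ℕ) : ∃ Φ : W ℝ (Fin 2),
    (∀ (A : Type) [Ring A] [Algebra ℝ A] (a b a' b' : A), Nil N ![a, b, a', b'] →
      Commute a a' → Commute a b' → Commute b a' → Commute b b' →
      evW ![a + a', b + b'] Φ = evW ![a, b] Φ * evW ![a', b'] Φ) ∧
    (∀ (A : Type) [Ring A] [Algebra ℝ A] (a b : A), Nil N ![a, b] → Commute a b →
      evW ![a, b] Φ = 1) ∧
    (∀ (A : Type) [Ring A] [Algebra ℝ A] (a1 a2 a3 a4 a5 : A), Nil N ![a1, a2, a3, a4, a5] →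
      Commute a1 a3 → Commute a1 a4 → Commute a2 a4 → Commute a2 a5 → Commute a3 a5 →
      ⁅a1, a2⁆ + ⁅a2, a3⁆ + ⁅a3, a4⁆ + ⁅a4, a5⁆ + ⁅a5, a1⁆ = 0 →
      evW ![a3, a4] Φ * evW ![a5, a1] Φ * evW ![a2, a3] Φ * evW ![a4, a5] Φ *
        evW ![a1, a2] Φ = 1) ∧
    ∀ n, 1 ≤ n → n < N → cf (List.replicate n 0 ++ [1]) Φ < 0 := by
  obtain ⟨Φ, hΦ⟩ := exists_univ N
  have pair : ∀ {ι M : Type} [NormedRing M] [NormedAlgebra ℝ M] [CompleteSpace M] {m : ι → M},
      Nil N m → ∀ i k, IsPhi (m i) (m k) (evW ![m i, m k] Φ) := fun hm i k =>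
    hΦ _ _ _ (hm.span fun c => by fin_cases c <;> exact Submodule.subset_span ⟨_, rfl⟩)
  have com : ∀ {ι A M : Type} [Ring A] [Ring M] {a : ι → A} {m : ι → M},
      (∀ l l', Qd a l = Qd a l' → Qd m l = Qd m l') → ∀ i k, Commute (a i) (a k) →
      Commute (m i) (m k) := fun hq i k h => by
    simpa [Qd, commute_iff_eq] using hq [(i, k)] [(k, i)] (by simpa [Qd] using h.eq)
  refine ⟨Φ, fun A _ _ a b a' b' h h1 h2 h3 h4 => ?_, fun A _ _ a b h h1 => ?_,
    fun A _ _ a1 a2 a3 a4 a5 h h1 h2 h3 h4 h5 h6 => ?_, fun n h1 h2 => ?_⟩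
  · obtain ⟨M, _, _, _, m, G, hG, -, hm, hq⟩ := exists_model h
    have := FiniteDimensional.complete ℝ M
    have e := congrArg G <| (hΦ M (m 0 + m 2) (m 1 + m 3) (hm.span fun c => by
      fin_cases c <;> exact add_mem (Submodule.subset_span ⟨_, rfl⟩)
        (Submodule.subset_span ⟨_, rfl⟩))).unique ((pair hm 0 1).mul (com hq 0 2 h1)
        (com hq 0 3 h2) (com hq 1 2 h3) (com hq 1 3 h4) (pair hm 2 3))
    simpa [map_evW, hG] using e
  · obtain ⟨M, _, _, _, m, G, hG, -, hm, hq⟩ := exists_model h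
    have := FiniteDimensional.complete ℝ M
    simpa [map_evW, hG] using congrArg G ((pair hm 0 1).unique (isPhi_one (com hq 0 1 h1)))
  · obtain ⟨M, _, _, _, m, G, hG, hn, hm, hq⟩ := exists_model h
    have := FiniteDimensional.complete ℝ M
    have hr : Rel (m 0) (m 1) (m 2) (m 3) (m 4) := ⟨com hq 0 2 h1, com hq 1 3 h3, com hq 2 4 h5,
      (com hq 0 3 h2).symm, (com hq 1 4 h4).symm, by
        have := hq [(0, 1), (1, 2), (2, 3), (3, 4), (4, 0)] [(1, 0), (2, 1), (3, 2), (4, 3), (0, 4)]
          (by simp only [Ring.lie_def] at h6; simp [Qd]; linear_combination (norm := abel) h6)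
        simpa [Qd, add_assoc] using this⟩
    simpa [map_evW, hG] using congrArg G (pentagon hr (hn 0) (hn 1) (hn 2) (hn 3) (hn 4)
      (pair hm 0 1) (pair hm 1 2) (pair hm 2 3) (pair hm 3 4) (pair hm 4 0))
  · obtain ⟨M, _, _, _, m, G, hG, -, hm, -⟩ := exists_model (sh_nil h2)
    have := FiniteDimensional.complete ℝ M
    let l : ℕ → M →L[ℝ] ℝ := fun k => LinearMap.toContinuousLinearMap
      (LinearMap.proj k ∘ₗ LinearMap.applyₗ (Pi.single 0 1) ∘ₗ G.toLinearMap)
    have hl : ∀ k z, l k z = G z (Pi.single 0 1) k := fun k z => rfl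
    have e := dep1 (l 0) (fun j => l (j + 1)) (by simp [hl]) (fun z => by simp [hl, hG, sh_zero])
      (fun z => by simp [hl, hG, sh_one]) (fun j => by simp [hl])
      (fun z => by simp [hl, hG, sh_zero]) (fun z => by simp [hl, hG, sh_one])
      (fun j hj z => by simp [hl, hG, sh_zero, Nat.succ_le_of_lt hj])
      (fun j z => by simp [hl, hG, sh_one]) (fun z => by
        have : sh n 0 (Pi.single 0 1) = 0 := by
          funext k; rw [sh_zero]; split_ifs with h
          exacts [Pi.single_eq_of_ne (by omega) _, rfl]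
        simp [hl, hG, this]) (pair hm 0 1) h1
    rwa [hl, map_evW, hG, hG, show ![sh n 0, sh n 1] = sh n from
      funext fun i => by fin_cases i <;> rfl, sh_cf le_rfl] at e

end Pool.Agent.Lib.MP_446a91_nt.Kz
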