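import Pool.Agent.Lib.MP_446a91_nt.DD.B3A
import Pool.Agent.Lib.MP_446a91_nt.DD.B2
import Pool.Agent.Lib.MP_446a91_nt.DD.KzMain

/-! The Ihara action on associators; solutions of the pentagon with nonzero depth one part. -/

namespace Pool.Agent.Lib.MP_446a91_nt.B3

open Module TrivSqZeroExt Polynomial

noncomputable section

variable {K : Type} [Field K] [CharZero K] {m n N : ℕ} {p q F G : W K (Fin 2)} {A : Type} [Ring A]
  [Algebra K A]

/-- `Q` is a deformation of `P` to dual numbers in the direction `P' + P g - g' P`. -/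
def Dl (Q : (TrivSqZeroExt A A)[X]) (P : A[X]) (g g' : A) : Prop :=
  ∀ n, (Q.coeff n).fst = P.coeff n ∧
    (Q.coeff n).snd = (derivative P + P * C g - C g' * P).coeff n

theorem Dl.mul {Q Q' : (TrivSqZeroExt A A)[X]} {P P' : A[X]} {g g' g'' : A} (h' : Dl Q' P' g' g'')
    (h : Dl Q P g g') : Dl (Q' * Q) (P' * P) g g'' := fun n => by
  have e : derivative (P' * P) + P' * P * C g - C g'' * (P' * P) =
      P' * (derivative P + P * C g - C g' * P) + (derivative P' + P' * C g' - C g'' * P') * P := by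
    rw [derivative_mul]; noncomm_ring
  rw [e, coeff_add, coeff_mul, coeff_mul, coeff_mul, coeff_mul, fst_sum, snd_sum,
    ← Finset.sum_add_distrib]
  exact ⟨Finset.sum_congr rfl fun x _ => by rw [fst_mul, (h _).1, (h' _).1],
    Finset.sum_congr rfl fun x _ => by
      rw [snd_mul, (h _).1, (h' _).1, (h _).2, (h' _).2, smul_eq_mul, op_smul_eq_mul]⟩

theorem Dl.one : Dl 1 (1 : A[X]) 0 0 := fun n => by
  simp only [coeff_one]
  split_ifs <;> simp

include K in
theorem Dl.step {Q Q' : (TrivSqZeroExt A A)[X]} {P P' : A[X]} {g g' : A} (h : Dl Q P g g')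
    (h' : Dl Q' P' g g') (e : Q.coeff n = Q'.coeff n) : P.coeff (n + 1) = P'.coeff (n + 1) := by
  have e1 := (h n).1
  have e2 := (h n).2
  rw [e, (h' n).1] at e1
  rw [e, (h' n).2] at e2
  simp only [coeff_sub, coeff_add, coeff_mul_C, coeff_C_mul, coeff_derivative, e1, sub_left_inj,
    add_left_inj] at e2
  have e3 : ∀ x : A, x * ((n : A) + 1) = ((n : K) + 1) • x := fun x => by
    rw [add_smul, one_smul, Nat.cast_smul_eq_nsmul, mul_add, mul_one, nsmul_eq_mul']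
  rw [e3, e3] at e2
  exact (smul_right_injective A (Nat.cast_add_one_ne_zero n) e2).symm

/-- The exponential of the Ihara action, modulo degree `> N`. -/
def exK (N : ℕ) (p F : W K (Fin 2)) : W K (Fin 2) :=
  ∑ j ∈ Finset.range (N + 1), (j.factorial : K)⁻¹ • (sK p ^ j) F

/-- The same with a parameter, evaluated. -/
def Et (N : ℕ) (p F : W K (Fin 2)) (u v : A) : A[X] :=
  ∑ j ∈ Finset.range (N + 1), monomial j ((j.factorial : K)⁻¹ • evK u v ((sK p ^ j) F))

/-- Evaluation at `1`. -/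
def ev1 : A[X] →+* A := eval₂RingHom' (RingHom.id A) 1 fun _ => Commute.one_right _

omit [CharZero K] in
theorem ev1_Et (u v : A) : ev1 (Et N p F u v) = evK u v (exK N p F) := by
  simp [Et, exK, ev1, eval₂RingHom']

omit [CharZero K] in
theorem coeff_Et {τ u v : A} (h : Ct N τ) (hu : τ ∣ u) (hv : τ ∣ v) (hp : p ∈ Hg K m) (hm : 1 ≤ m)
    (n : ℕ) : (Et N p F u v).coeff n = (n.factorial : K)⁻¹ • evK u v ((sK p ^ n) F) := by
  simp only [Et, finsetSum_coeff, coeff_monomial, Finset.sum_ite_eq', Finset.mem_range]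
  split_ifs with hn
  · rfl
  · rw [evK_nil h hu hv (Spn_mono (sK_pow hp (mem_Fil_zero F) n) fun i hi => by nlinarith),
      smul_zero]

theorem Ct.dual {τ : A} (h : Ct N τ) : Ct N (inl τ : TrivSqZeroExt A A) :=
  ⟨fun x => by ext <;> simp [h.1], by rw [inl_pow, h.2, inl_zero]⟩

theorem dvd_dual {τ u : A} (h : Ct N τ) (hu : τ ∣ u) (g : A) :
    (inl τ : TrivSqZeroExt A A) ∣ inl u + inr (cm u g) := by
  obtain ⟨u, rfl⟩ := hu
  refine ⟨inl u + inr (cm u g), ?_⟩
  ext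
  · simp
  · simp [cm, mul_sub, mul_assoc, ← h.1, ← mul_assoc g]

theorem dvd_inl {τ u : A} (hu : τ ∣ u) : (inl τ : TrivSqZeroExt A A) ∣ inl u := by
  obtain ⟨u, rfl⟩ := hu
  exact ⟨inl u, inl_mul _ _ _⟩

theorem Et_dual {τ u v g g' : A} (h : Ct N τ) (hu : τ ∣ u) (hv : τ ∣ v) (hp : p ∈ Hg K m)
    (hm : 1 ≤ m) {U V : TrivSqZeroExt A A} (hU : U = inl u + inr (cm u g))
    (hV : V = inl v + inr (cm v g')) (hg : g' = g + evK u v p) :
    Dl (Et N p F U V) (Et N p F u v) g g' := fun n => by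
  subst hU hV hg
  rw [coeff_Et h.dual (dvd_dual h hu _) (dvd_dual h hv _) hp hm, evK_dual, coeff_sub, coeff_add,
    coeff_derivative, coeff_mul_C, coeff_C_mul, coeff_Et h hu hv hp hm, coeff_Et h hu hv hp hm]
  refine ⟨by simp, ?_⟩
  have e3 : ∀ x : A, x * ((n : A) + 1) = ((n : K) + 1) • x := fun x => by
    rw [add_smul, one_smul, Nat.cast_smul_eq_nsmul, mul_add, mul_one, nsmul_eq_mul']
  have e4 : ((n : K) + 1) * ((n + 1).factorial : K)⁻¹ = (n.factorial : K)⁻¹ := by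
    rw [Nat.factorial_succ]
    have := Nat.cast_add_one_ne_zero (R := K) n
    push_cast
    field_simp
  rw [e3, smul_smul, e4, pow_succ', End.mul_apply]
  generalize (sK p ^ n) F = Z
  simp only [sK, cm, snd_smul, snd_add, snd_inl, snd_inr, LinearMap.add_apply, LM_apply, map_add,
    map_mul, zero_add, smul_zero, smul_mul_assoc, mul_smul_comm, add_mul, smul_add, smul_sub]
  abel

/-- Group-like modulo degree `> N`. -/
def Grp (N : ℕ) (F : W K (Fin 2)) : Prop :=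
  ∀ (A : Type) [Ring A] [Algebra K A] (τ a b a' b' : A), Ct N τ → τ ∣ a → τ ∣ b → τ ∣ a' → τ ∣ b' →
    a * a' = a' * a → a * b' = b' * a → b * a' = a' * b → b * b' = b' * b →
    evK (a + a') (b + b') F = evK a b F * evK a' b' F

/-- The pentagon modulo degree `> N`. -/
def PT (N : ℕ) (F : W K (Fin 2)) : Prop :=
  ∀ (A : Type) [Ring A] [Algebra K A] (τ a1 a2 a3 a4 a5 : A), Ct N τ → τ ∣ a1 → τ ∣ a2 → τ ∣ a3 →
    τ ∣ a4 → τ ∣ a5 → Rel5 a1 a2 a3 a4 a5 →
    evK a3 a4 F * evK a5 a1 F * evK a2 a3 F * evK a4 a5 F * evK a1 a2 F = 1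

theorem cm_eq {u z : A} (g : A) (h : z * u = u * z) : cm u (g + z) = cm u g := by
  simp only [cm]; linear_combination (norm := noncomm_ring) -h

theorem PT.act (h : PT N F) (hm : 3 ≤ m) (hp : p ∈ LK K m) (hu : UPC p) : PT N (exK N p F) := by
  have hg := LK_Hg hp
  have m1 : 1 ≤ m := by omega
  have key : ∀ n, ∀ (A : Type) [Ring A] [Algebra K A] (τ a1 a2 a3 a4 a5 : A), Ct N τ → τ ∣ a1 →
      τ ∣ a2 → τ ∣ a3 → τ ∣ a4 → τ ∣ a5 → Rel5 a1 a2 a3 a4 a5 →
      (Et N p F a3 a4 * Et N p F a5 a1 * Et N p F a2 a3 * Et N p F a4 a5 *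
        Et N p F a1 a2).coeff n = (1 : A[X]).coeff n := by
    intro n
    induction n with
    | zero =>
      intro A _ _ τ a1 a2 a3 a4 a5 t d1 d2 d3 d4 d5 r
      simpa [coeff_Et t _ _ hg m1, d1, d2, d3, d4, d5] using h A τ _ _ _ _ _ t d1 d2 d3 d4 d5 r
    | succ n ih =>
      intro A _ _ τ a1 a2 a3 a4 a5 t d1 d2 d3 d4 d5 r
      have e := hu A _ _ _ _ _ r
      have c4 := evK_comm r.h41 r.h24.symm p
      have c2 := evK_comm r.h24 r.h52.symm p
      have c5 := evK_comm r.h52 r.h35.symm p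
      have c3 := evK_comm r.h35 r.h13.symm p
      have c1 := evK_comm r.h13 r.h41.symm p
      refine Dl.step (K := K) ?_ Dl.one (ih _ _ _ _ _ _ _ t.dual (dvd_inl d1) (dvd_dual t d2 _)
        (dvd_dual t d3 _) (dvd_inl d4) (dvd_dual t d5 _) (rel5_dual hu hm hp r))
      refine ((((Et_dual t d3 d4 hg m1 ?_ ?_ e.symm).mul (Et_dual t d5 d1 hg m1 ?_ ?_ rfl)).mul
        (Et_dual t d2 d3 hg m1 ?_ rfl rfl)).mul (Et_dual t d4 d5 hg m1 ?_ rfl rfl)).mul
        (Et_dual t d1 d2 hg m1 ?_ rfl (zero_add _).symm)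
      · rw [cm_eq _ c3.symm]
      · simp [cm]
      · rw [cm_eq _ c5.symm]
      · rw [← cm_eq _ c1.symm, e]; simp [cm]
      · rw [cm_eq _ c2.symm]
      · simp [cm, c4]
      · simp [cm]
  intro A _ _ τ a1 a2 a3 a4 a5 t d1 d2 d3 d4 d5 r
  simpa [ev1_Et] using congrArg ev1 (Polynomial.ext fun n => key n A τ _ _ _ _ _ t d1 d2 d3 d4 d5 r)

theorem cm_comm {w u g : A} (h1 : w * u = u * w) (h2 : w * g = g * w) :
    w * cm u g = cm u g * w :=
  Commute.sub_right (Commute.mul_right h1 h2) (Commute.mul_right h2 h1)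

theorem dual_comm {u v z z' : A} (h1 : u * v = v * u) (h2 : u * z' = z' * u) (h3 : v * z = z * v) :
    (inl u + inr z : TrivSqZeroExt A A) * (inl v + inr z') = (inl v + inr z') * (inl u + inr z) := by
  ext <;> simp [h1, h2, h3, add_comm]

theorem Grp.act (h : Grp N F) (m1 : 1 ≤ m) (hp : p ∈ LK K m) : Grp N (exK N p F) := by
  have hg := LK_Hg hp
  have key : ∀ n, ∀ (A : Type) [Ring A] [Algebra K A] (τ a b a' b' : A), Ct N τ → τ ∣ a → τ ∣ b →
      τ ∣ a' → τ ∣ b' → a * a' = a' * a → a * b' = b' * a → b * a' = a' * b → b * b' = b' * b →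
      (Et N p F (a + a') (b + b')).coeff n = (Et N p F a b * Et N p F a' b').coeff n := by
    intro n
    induction n with
    | zero =>
      intro A _ _ τ a b a' b' t d1 d2 d3 d4 c1 c2 c3 c4
      simpa [coeff_Et t _ _ hg m1, d1, d2, d3, d4, dvd_add] using
        h A τ _ _ _ _ t d1 d2 d3 d4 c1 c2 c3 c4
    | succ n ih =>
      intro A _ _ τ a b a' b' t d1 d2 d3 d4 c1 c2 c3 c4
      have e := LK_prim hp A _ _ _ _ c1 c2 c3 c4
      have x1 := evK_comm c1 c2 p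
      have x2 := evK_comm c3 c4 p
      have x3 := evK_comm c1.symm c3.symm p
      have x4 := evK_comm c2.symm c4.symm p
      refine Dl.step (K := K) (Et_dual t (dvd_add d1 d3) (dvd_add d2 d4) hg m1 ?_ ?_ ?_)
        ((Et_dual t d1 d2 hg m1 ?_ ?_ rfl).mul (Et_dual t d3 d4 hg m1 rfl rfl (zero_add _).symm))
        (ih _ _ _ _ _ _ t.dual (dvd_dual t d1 0) (dvd_dual t d2 (evK a b p)) (dvd_dual t d3 0)
          (dvd_dual t d4 (evK a' b' p)) (dual_comm c1 (by simp [cm]) (by simp [cm]))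
          (dual_comm c2 (cm_comm c2 x1) (by simp [cm]))
          (dual_comm c3 (by simp [cm]) (cm_comm c3.symm x3))
          (dual_comm c4 (cm_comm c4 x2) (cm_comm c4.symm x4)))
      · ext <;> simp [cm]
      · ext
        · simp
        · simp only [cm, snd_add, snd_inl, snd_inr]
          linear_combination (norm := noncomm_ring) -x2 - x4
      · rw [e, zero_add, add_comm]
      · simp [cm, x1]
      · rw [add_comm (evK a' b' p), cm_eq _ x2.symm]
  intro A _ _ τ a b a' b' t d1 d2 d3 d4 c1 c2 c3 c4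
  simpa [ev1_Et] using congrArg ev1
    (Polynomial.ext fun n => key n A τ _ _ _ _ t d1 d2 d3 d4 c1 c2 c3 c4)

/-- `f ≡ 1` modulo `τ`, and `f' = f + τ ^ m x`. -/
def Prx (m : ℕ) (τ f' f x : A) : Prop := (∃ c, f = 1 + τ * c) ∧ f' = f + τ ^ m * x

theorem Prx.mul {τ f' f x g' g y : A} (t : Ct m τ) (hm : 1 ≤ m) (h : Prx m τ f' f x)
    (h' : Prx m τ g' g y) : Prx m τ (f' * g') (f * g) (x + y) := by
  obtain ⟨⟨c, rfl⟩, rfl⟩ := h
  obtain ⟨⟨d, rfl⟩, rfl⟩ := h'
  have c1 : ∀ z, Commute z (τ ^ m) := fun z => (Commute.symm (t.1 z)).pow_right m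
  have e1 : τ * c * τ ^ m = 0 := by rw [t.1, mul_assoc, ← pow_succ', t.2, mul_zero]
  have e2 : τ ^ m * x * τ = 0 := by rw [← (c1 x).eq, mul_assoc, ← pow_succ, t.2, mul_zero]
  have e3 : τ ^ m * x * τ ^ m = 0 := by
    rw [← (c1 x).eq, mul_assoc, ← pow_add, pow_eq_zero_of_le (by omega) t.2, mul_zero]
  refine ⟨⟨c + d + c * (τ * d), by noncomm_ring⟩, ?_⟩
  generalize τ ^ m = σ at *
  linear_combination (norm := noncomm_ring) e1 * y + e2 * d + e3 * y

theorem tau_mul {τ : A} (h : ∀ x, τ * x = x * τ) (u v : A) :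
    τ * u * (τ * v) = τ * τ * (u * v) := by
  rw [mul_assoc, mul_assoc, ← mul_assoc u, ← h u, mul_assoc]

theorem first_diff (h1 : Grp N F) (h2 : PT N F) (h3 : Grp N G) (h4 : PT N G) (h5 : F - 1 ∈ Fil K 1)
    (h6 : G - F ∈ Fil K m) (hm : 1 ≤ m) (hN : m ≤ N) :
    ∃ p ∈ LK K m, UPC p ∧ G - F - p ∈ Fil K (m + 1) := by
  obtain ⟨p, hp, h7⟩ := Fil_split h6
  have key : ∀ {A B : Type} [Ring A] [Algebra K A] [Ring B] [Algebra K B] (ι : A →ₐ[K] B) {τ : B},
      Ct m τ → ∀ u v : A, Prx m τ (evK (τ * ι u) (τ * ι v) G) (evK (τ * ι u) (τ * ι v) F)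
        (ι (evK u v p)) := fun ι τ t u v => by
    obtain ⟨c, hc⟩ := evK_dvd t.1 (Dvd.intro (ι u) rfl) (Dvd.intro (ι v) rfl) h5
    have e := evK_nil t (Dvd.intro (ι u) rfl) (Dvd.intro (ι v) rfl) h7
    rw [map_sub, map_sub, evK_tau t.1 _ _ hp, ← map_evK, sub_sub, sub_eq_zero] at e
    rw [map_sub, map_one, pow_one, sub_eq_iff_eq_add'] at hc
    exact ⟨⟨c, hc⟩, e⟩
  refine ⟨p, Prim.mem_LK (fun A _ _ a b a' b' c1 c2 c3 c4 => ?_) hp hm,
    fun A _ _ a1 a2 a3 a4 a5 r => ?_, h7⟩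
  · obtain ⟨B, _, _, ι, τ, t, hi⟩ := exists_trunc K A m
    have c : ∀ {u v : A}, u * v = v * u → τ * ι u * (τ * ι v) = τ * ι v * (τ * ι u) := fun h => by
      rw [tau_mul t.1, tau_mul t.1, ← map_mul, ← map_mul, h]
    have d : ∀ u : A, τ ∣ τ * ι u := fun u => Dvd.intro _ rfl
    have e1 := (key ι t (a + a') (b + b')).2
    have e2 := ((key ι t a b).mul t hm (key ι t a' b')).2
    rw [map_add, map_add, mul_add, mul_add,
      h1 B τ _ _ _ _ (t.mono hN) (d _) (d _) (d _) (d _) (c c1) (c c2) (c c3) (c c4),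
      h3 B τ _ _ _ _ (t.mono hN) (d _) (d _) (d _) (d _) (c c1) (c c2) (c c3) (c c4), e2,
      add_right_inj] at e1
    exact sub_eq_zero.1 (hi _ (by rw [map_sub, map_add, mul_sub, e1, sub_self]))
  · obtain ⟨B, _, _, ι, τ, t, hi⟩ := exists_trunc K A m
    have c : ∀ {u v : A}, u * v = v * u → τ * ι u * (τ * ι v) = τ * ι v * (τ * ι u) := fun h => by
      rw [tau_mul t.1, tau_mul t.1, ← map_mul, ← map_mul, h]
    have d : ∀ u : A, τ ∣ τ * ι u := fun u => Dvd.intro _ rfl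
    have r' : Rel5 (τ * ι a1) (τ * ι a2) (τ * ι a3) (τ * ι a4) (τ * ι a5) :=
      ⟨c r.h13, c r.h24, c r.h35, c r.h41, c r.h52, by
        have := congrArg (fun z => τ * τ * ι z) r.hs
        simpa [cm, tau_mul t.1, mul_add, mul_sub] using this⟩
    have e := (((((key ι t a3 a4).mul t hm (key ι t a5 a1)).mul t hm (key ι t a2 a3)).mul t hm
      (key ι t a4 a5)).mul t hm (key ι t a1 a2)).2
    rw [h2 B τ _ _ _ _ _ (t.mono hN) (d _) (d _) (d _) (d _) (d _) r',
      h4 B τ _ _ _ _ _ (t.mono hN) (d _) (d _) (d _) (d _) (d _) r', left_eq_add] at e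
    refine hi _ (Eq.trans ?_ e)
    simp only [map_add]
    congr 1
    abel

omit [CharZero K] in
theorem exK_sub (hp : p ∈ Hg K m) (hm : 1 ≤ m) (hN : 1 ≤ N) (h : F - 1 ∈ Fil K 1) :
    exK N p F - F - p ∈ Fil K (m + 1) := by
  obtain ⟨N, rfl⟩ := Nat.exists_eq_add_of_le' hN
  have e : exK (N + 1) p F - F - p = ∑ j ∈ Finset.range N,
      ((j + 1 + 1).factorial : K)⁻¹ • (sK p ^ (j + 1 + 1)) F + sK p (F - 1) := by
    have e1 : sK p 1 = p := by simp [sK, dK, der_one]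
    simp [exK, Finset.sum_range_succ', e1, add_sub_assoc]
  rw [e]
  exact add_mem (Submodule.sum_mem _ fun j _ => Submodule.smul_mem _ _
    (Spn_mono (sK_pow hp (mem_Fil_zero F) _) fun i hi => by nlinarith)) (sK_Fil hp h)

omit [CharZero K] in
theorem dep_Hg (hp : p ∈ Hg K m) (hN : 1 ≤ N) (h : m ≠ N) : dep N p = 0 :=
  cf_Spn hp (by simp; omega)

theorem dep_exK (hp : p ∈ LK K m) (hm : 2 ≤ m) (h : m < N) : dep N (exK N p F) = dep N F := by
  simp [exK, Finset.sum_range_succ', pow_succ', dep_sK hm hp,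
    dep_Hg (LK_Hg hp) (by omega) h.ne]

theorem nil_of {ι : Type} {τ : A} (t : Ct N τ) {a : ι → A} (h : ∀ i, τ ∣ a i) : Kz.Nil N a := by
  intro w hw
  suffices τ ^ w.length ∣ (w.map a).prod by simpa [hw, t.2] using this
  clear hw
  induction w with
  | nil => simp
  | cons i w ih =>
    obtain ⟨c, hc⟩ := h i
    obtain ⟨d, hd⟩ := ih
    refine ⟨c * d, ?_⟩
    rw [List.map_cons, List.prod_cons, hc, hd, List.length_cons, pow_succ', mul_assoc, mul_assoc,
      ((Commute.symm (t.1 c)).pow_right _).left_comm]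

theorem _root_.Pool.Agent.Lib.MP_446a91_nt.exists_real (k : ℕ) :
    ∃ p ∈ LK ℝ (2 * k + 3), UPC p ∧ dep (2 * k + 3) p ≠ 0 := by
  set N := 2 * k + 3 with hN
  obtain ⟨Φ, h1, h2, h3, h4⟩ := Kz.exists_kz N
  have g1 : Grp N Φ := fun A _ _ τ a b a' b' t d1 d2 d3 d4 c1 c2 c3 c4 =>
    h1 A a b a' b' (nil_of t fun i => by fin_cases i <;> assumption) c1 c2 c3 c4
  have g2 : PT N Φ := fun A _ _ τ a1 a2 a3 a4 a5 t d1 d2 d3 d4 d5 r =>
    h3 A a1 a2 a3 a4 a5 (nil_of t fun i => by fin_cases i <;> assumption) r.h13 r.h41.symm r.h24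
      r.h52.symm r.h35 r.hs
  have lo : ∀ m ≤ 1, Φ - 1 ∈ Fil ℝ m → Φ - 1 ∈ Fil ℝ (m + 1) := fun m hm h =>
    low h fun B _ _ τ u v t d1 d2 => by
      have n1 : Kz.Nil 1 ![u, v] := nil_of (t.mono hm) fun i => by fin_cases i <;> assumption
      rw [map_one]
      refine h2 B u v (nil_of (t.mono (by omega)) fun i => by fin_cases i <;> assumption) ?_
      exact Eq.trans (by simpa using n1 [0, 1] rfl) (by simpa using (n1 [1, 0] rfl).symm)
  have f2 := lo 1 le_rfl (lo 0 zero_le_one (mem_Fil_zero _))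
  let ν : W ℝ (Fin 2) →ₐ[ℝ] W ℝ (Fin 2) := evK (-lt 0 : W ℝ (Fin 2)) (-lt 1)
  have n1 : ∀ j, ∀ q ∈ Hg ℝ j, ν q = (-1 : ℝ) ^ j • q := fun j q hq => by
    have := evK_tau (τ := (-1 : W ℝ (Fin 2))) (by simp) (lt 0) (lt 1) hq
    rw [evK_id, neg_one_mul, neg_one_mul] at this
    rw [this, Algebra.smul_def, map_pow, map_neg, map_one]
  have n2 : ∀ (A : Type) [Ring A] [Algebra ℝ A] (u v : A), evK u v (ν Φ) = evK (-u) (-v) Φ :=
    fun A _ _ u v => by rw [map_evK]; simp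
  have g3 : Grp N (ν Φ) := fun A _ _ τ a b a' b' t d1 d2 d3 d4 c1 c2 c3 c4 => by
    rw [n2, n2, n2, neg_add, neg_add]
    exact g1 A τ _ _ _ _ t d1.neg_right d2.neg_right d3.neg_right d4.neg_right (by simp [c1])
      (by simp [c2]) (by simp [c3]) (by simp [c4])
  have g4 : PT N (ν Φ) := fun A _ _ τ a1 a2 a3 a4 a5 t d1 d2 d3 d4 d5 r => by
    simp only [n2]
    exact g2 A τ _ _ _ _ _ t d1.neg_right d2.neg_right d3.neg_right d4.neg_right d5.neg_right
      ⟨by simp [r.h13], by simp [r.h24], by simp [r.h35], by simp [r.h41], by simp [r.h52],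
        by simpa [cm] using r.hs⟩
  have f3 : ν Φ - Φ ∈ Fil ℝ 3 := by
    obtain ⟨q, q1, q2⟩ := Fil_split f2
    have e : ν Φ - Φ = ν (Φ - 1 - q) - (Φ - 1 - q) := by simp [n1 2 q q1]
    rw [e]
    exact sub_mem (Spn_map ν.toLinearMap q2 fun w hw => by
      rw [AlgHom.toLinearMap_apply, n1 _ _ (wrd_mem rfl)]
      exact Submodule.smul_mem _ _ (wrd_mem hw)) q2
  have d1 : dep N (ν Φ) = -dep N Φ :=
    Spn_eq (dep N ∘ₗ ν.toLinearMap) (-dep N) (mem_Fil_zero Φ) fun w _ => by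
      simp only [LinearMap.comp_apply, AlgHom.toLinearMap_apply, n1 _ _ (wrd_mem rfl), map_smul,
        LinearMap.neg_apply]
      by_cases hw : w.length = N
      · rw [hw, hN, pow_add, pow_mul]; norm_num
      · rw [dep_Hg (wrd_mem rfl) (by omega) hw]; simp
  have key : ∀ m, 3 ≤ m → m ≤ N → ∃ F, Grp N F ∧ PT N F ∧ F - 1 ∈ Fil ℝ 1 ∧ ν Φ - F ∈ Fil ℝ m ∧
      dep N F = dep N Φ := by
    intro m hm
    induction m, hm using Nat.le_induction with
    | base => exact fun _ => ⟨Φ, g1, g2, Spn_mono f2 (by omega), f3, rfl⟩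
    | succ m hm ih =>
      intro hmN
      obtain ⟨F, a1, a2, a3, a4, a5⟩ := ih (by omega)
      obtain ⟨p, p1, p2, p3⟩ := first_diff a1 a2 g3 g4 a3 a4 (by omega) (by omega)
      have e := exK_sub (N := N) (LK_Hg p1) (by omega) (by omega) a3
      refine ⟨exK N p F, a1.act (by omega) p1, a2.act hm p1 p2, ?_, ?_,
        (dep_exK p1 (by omega) hmN).trans a5⟩
      · have := add_mem (add_mem (Spn_mono (Q := (1 ≤ ·)) e (by omega)) a3)
          (Spn_mono (Q := (1 ≤ ·)) (LK_Hg p1) (by omega))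
        convert this using 1
        abel
      · convert sub_mem p3 e using 1
        abel
  obtain ⟨F, a1, a2, a3, a4, a5⟩ := key N (by omega) le_rfl
  obtain ⟨p, p1, p2, p3⟩ := first_diff a1 a2 g3 g4 a3 a4 (by omega) le_rfl
  refine ⟨p, p1, p2, fun h => ?_⟩
  have e : dep N (ν Φ - F - p) = 0 := cf_Spn p3 (by simp; omega)
  have e' : dep N Φ < 0 := h4 (N - 1) (by omega) (by omega)
  rw [map_sub, map_sub, d1, a5, h] at e
  linarith

end

end Pool.Agent.Lib.MP_446a91_nt.B3
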