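import Pool.Agent.Lib.MP_446a91_nt.DD.KDefs

/-! Degree filtration, truncated algebras, primitive elements are Lie (MP_446a91_nt). -/

namespace Pool.Agent.Lib.MP_446a91_nt.B3

open Module TrivSqZeroExt

noncomputable section

variable {K : Type} [Field K] {m n N : ℕ} {p q F G : W K (Fin 2)} {A : Type} [Ring A] [Algebra K A]

variable (K) in
/-- The span of the words whose length satisfies `P`. -/
def Spn (P : ℕ → Prop) : Submodule K (W K (Fin 2)) :=
  Submodule.span K {x | ∃ w : List (Fin 2), P w.length ∧ x = wrd w}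

variable (K) in
/-- Polynomials without terms of degree `< k`. -/
abbrev Fil (k : ℕ) : Submodule K (W K (Fin 2)) := Spn K (k ≤ ·)

variable (K) in
/-- Homogeneous polynomials. -/
abbrev Hg (k : ℕ) : Submodule K (W K (Fin 2)) := Spn K (· = k)

theorem wrd_mem {P : ℕ → Prop} {w : List (Fin 2)} (h : P w.length) : wrd w ∈ Spn K P :=
  Submodule.subset_span ⟨w, h, rfl⟩

theorem Spn_ind {P : ℕ → Prop} {C : W K (Fin 2) → Prop} (h : F ∈ Spn K P)
    (hw : ∀ w : List (Fin 2), P w.length → C (wrd w)) (h0 : C 0)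
    (ha : ∀ u v, C u → C v → C (u + v)) (hs : ∀ (c : K) u, C u → C (c • u)) : C F := by
  induction h using Submodule.span_induction with
  | mem u hu => obtain ⟨w, h, rfl⟩ := hu; exact hw w h
  | zero => exact h0
  | add u v _ _ h1 h2 => exact ha u v h1 h2
  | smul c u _ h => exact hs c u h

theorem Spn_map {P : ℕ → Prop} {Z : Type} [AddCommGroup Z] [Module K Z] (f : W K (Fin 2) →ₗ[K] Z)
    {S : Submodule K Z} (h : F ∈ Spn K P) (hw : ∀ w : List (Fin 2), P w.length → f (wrd w) ∈ S) :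
    f F ∈ S :=
  Spn_ind (C := fun F => f F ∈ S) h hw (by simp) (fun u v h1 h2 => by simpa using add_mem h1 h2)
    fun c u h => by simpa using S.smul_mem c h

theorem Spn_eq {P : ℕ → Prop} {Z : Type} [AddCommGroup Z] [Module K Z]
    (f g : W K (Fin 2) →ₗ[K] Z) (h : F ∈ Spn K P)
    (hw : ∀ w : List (Fin 2), P w.length → f (wrd w) = g (wrd w)) : f F = g F :=
  Spn_ind (C := fun F => f F = g F) h hw (by simp) (fun u v h1 h2 => by simp [h1, h2])
    fun c u h => by simp [h]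

theorem Spn_mono {P Q : ℕ → Prop} (h : F ∈ Spn K P) (hw : ∀ i, P i → Q i) : F ∈ Spn K Q :=
  Spn_map LinearMap.id h fun _ h => wrd_mem (hw _ h)

theorem Spn_mul {P Q S : ℕ → Prop} (h : F ∈ Spn K P) (h' : G ∈ Spn K Q)
    (hw : ∀ i j, P i → Q j → S (i + j)) : F * G ∈ Spn K S :=
  Spn_map (LinearMap.mulRight K G) h fun v hv => Spn_map (LinearMap.mulLeft K (wrd v)) h'
    fun w hw' => by
      rw [LinearMap.mulLeft_apply, wrd_mul]
      exact wrd_mem (by rw [List.length_append]; exact hw _ _ hv hw')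

theorem mem_Fil_zero (F : W K (Fin 2)) : F ∈ Fil K 0 := by
  rw [eq_sum F]
  exact Submodule.sum_mem _ fun w _ => Submodule.smul_mem _ _ (wrd_mem (Nat.zero_le _))

theorem lt_mem (i : Fin 2) : (lt i : W K (Fin 2)) ∈ Hg K 1 := wrd_mem rfl

theorem Fil_split (h : F ∈ Fil K m) : ∃ p ∈ Hg K m, F - p ∈ Fil K (m + 1) := by
  refine Spn_ind (C := fun F => ∃ p ∈ Hg K m, F - p ∈ Fil K (m + 1)) h (fun w hw => ?_)
    ⟨0, zero_mem _, by simp⟩ ?_ ?_
  · rcases hw.eq_or_lt with e | e
    exacts [⟨wrd w, wrd_mem e.symm, by simp⟩, ⟨0, zero_mem _, by rw [sub_zero]; exact wrd_mem e⟩]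
  · rintro u v ⟨a, h1, h2⟩ ⟨b, h3, h4⟩
    exact ⟨a + b, add_mem h1 h3, by rw [add_sub_add_comm]; exact add_mem h2 h4⟩
  · rintro c u ⟨a, h1, h2⟩
    exact ⟨c • a, Submodule.smul_mem _ _ h1, by rw [← smul_sub]; exact Submodule.smul_mem _ _ h2⟩

theorem LK_of {S : ℕ → Submodule K (W K (Fin 2))} (h1 : ∀ i, lt i ∈ S 1)
    (h2 : ∀ i j u v, u ∈ S i → v ∈ S j → cm u v ∈ S (i + j)) (hp : p ∈ LK K n) : p ∈ S n := by
  refine Submodule.span_le.2 (fun q hq => ?_) hp
  refine Sp_induction (P := fun q => q ∈ S n) hq (fun q hq => ?_) (zero_mem _)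
    (fun _ _ => add_mem) fun _ => neg_mem
  clear hp
  rename_i hq'
  clear hq'
  induction hq with
  | of i => exact h1 i
  | lie _ _ a b => exact h2 _ _ _ _ a b

theorem LK_Hg (hp : p ∈ LK K n) : p ∈ Hg K n :=
  LK_of (S := Hg K) lt_mem (fun _ _ _ _ a b => sub_mem (Spn_mul a b (by omega))
    (Spn_mul b a (by omega))) hp

theorem cm_lt_mem (i : Fin 2) (hp : p ∈ LK K n) : cm (lt i) p ∈ LK K (1 + n) := by
  induction hp using Submodule.span_induction with
  | mem u hu => exact Submodule.subset_span (cm_mem (gen_mem lt (fun _ => 1) i) hu)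
  | zero => simp [cm]
  | add u v _ _ h1 h2 =>
    have : cm (lt i) (u + v) = cm (lt i) u + cm (lt i) v := by simp only [cm]; noncomm_ring
    rw [this]; exact add_mem h1 h2
  | smul c u _ h =>
    have : cm (lt i) (c • u) = c • cm (lt i) u := by simp [cm, smul_sub]
    rw [this]; exact Submodule.smul_mem _ _ h

theorem sK_Fil {k : ℕ} (hp : p ∈ Hg K m) (h : F ∈ Fil K k) : sK p F ∈ Fil K (m + k) := by
  refine add_mem (Spn_map (dK p) h fun w hw => ?_) (Spn_mul hp h (by omega))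
  suffices dK p (wrd w) ∈ Fil K (m + w.length) from Spn_mono this (by omega)
  clear hw
  induction w with
  | nil => simp [dK, wrd_nil, der_one]
  | cons i w ih =>
    rw [wrd_cons, dK, der_lt_mul]
    refine add_mem (Spn_mul (P := (· = m + 1)) ?_ (wrd_mem (P := (· = w.length)) rfl)
      (by simp; omega)) (Spn_mul (lt_mem i) ih (by simp; omega))
    fin_cases i
    · simp
    · exact sub_mem (Spn_mul (lt_mem 1) hp (by omega)) (Spn_mul hp (lt_mem 1) (by omega))

theorem sK_pow {k : ℕ} (hp : p ∈ Hg K m) (h : F ∈ Fil K k) (j : ℕ) :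
    (sK p ^ j) F ∈ Fil K (j * m + k) := by
  induction j with
  | zero => simpa using h
  | succ j ih =>
    rw [pow_succ', End.mul_apply]
    exact Spn_mono (sK_Fil hp ih) fun i hi => by nlinarith

theorem cf_Spn {P : ℕ → Prop} (h : F ∈ Spn K P) {w : List (Fin 2)} (hw : ¬ P w.length) :
    cf w F = 0 :=
  Spn_eq (cf w) 0 h fun v hv => by
    rw [cf_wrd, if_neg (by rintro rfl; exact hw hv), LinearMap.zero_apply]

/-- `τ` is central and `τ ^ (N + 1) = 0`. -/
def Ct (N : ℕ) (τ : A) : Prop := (∀ x, τ * x = x * τ) ∧ τ ^ (N + 1) = 0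

theorem evK_cons (u v : A) (i : Fin 2) (w : List (Fin 2)) :
    evK u v (wrd (i :: w) : W K (Fin 2)) = ![u, v] i * evK u v (wrd w : W K (Fin 2)) := by
  rw [wrd_cons, map_mul, evK, evW_lt]

theorem evK_tau {τ : A} (h : ∀ x, τ * x = x * τ) (u v : A) (hp : p ∈ Hg K m) :
    evK (τ * u) (τ * v) p = τ ^ m * evK u v p := by
  refine Spn_eq (evK (τ * u) (τ * v)).toLinearMap
    (LinearMap.mulLeft K (τ ^ m) ∘ₗ (evK u v).toLinearMap) hp ?_
  rintro w rfl
  clear hp
  induction w with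
  | nil => simp [wrd_nil]
  | cons i w ih =>
    have e : ![τ * u, τ * v] i = τ * ![u, v] i := by fin_cases i <;> rfl
    have c : Commute (![u, v] i) τ := (h _).symm
    simp only [AlgHom.toLinearMap_apply, LinearMap.comp_apply, LinearMap.mulLeft_apply] at ih ⊢
    rw [evK_cons, evK_cons, ih, e, List.length_cons, pow_succ', mul_assoc, mul_assoc,
      (c.pow_right _).left_comm]

theorem evK_dvd {τ u v : A} (h : ∀ x, τ * x = x * τ) (hu : τ ∣ u) (hv : τ ∣ v) (hp : F ∈ Fil K m) :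
    τ ^ m ∣ evK u v F := by
  obtain ⟨u, rfl⟩ := hu
  obtain ⟨v, rfl⟩ := hv
  refine Spn_ind (C := fun F => τ ^ m ∣ evK (τ * u) (τ * v) F) hp (fun w hw => ?_) (by simp) ?_ ?_
  · rw [evK_tau h u v (wrd_mem rfl)]
    exact (pow_dvd_pow τ hw).trans (Dvd.intro _ rfl)
  · rintro a b ⟨c, hc⟩ ⟨d, hd⟩
    exact ⟨c + d, by rw [map_add, hc, hd, mul_add]⟩
  · rintro c a ⟨d, hd⟩
    exact ⟨c • d, by rw [map_smul, hd, mul_smul_comm]⟩

theorem evK_nil {τ u v : A} (h : Ct N τ) (hu : τ ∣ u) (hv : τ ∣ v) (hp : F ∈ Fil K (N + 1)) :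
    evK u v F = 0 := by
  simpa [h.2] using evK_dvd h.1 hu hv hp

theorem Ct.mono {τ : A} (h : Ct m τ) (hm : m ≤ N) : Ct N τ :=
  ⟨h.1, pow_eq_zero_of_le (by omega) h.2⟩

variable (K A) in
theorem exists_trunc (m : ℕ) : ∃ (B : Type) (_ : Ring B) (_ : Algebra K B) (ι : A →ₐ[K] B) (τ : B),
    Ct m τ ∧ ∀ r, τ ^ m * ι r = 0 → r = 0 := by
  let I : Ideal (Polynomial A) := Ideal.span {Polynomial.X ^ (m + 1)}
  have : I.IsTwoSided := ⟨fun b h => by
    obtain ⟨c, rfl⟩ := Ideal.mem_span_singleton'.1 h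
    exact Ideal.mem_span_singleton'.2 ⟨c * b, by rw [mul_assoc, mul_assoc, Polynomial.X_pow_mul]⟩⟩
  refine ⟨Polynomial A ⧸ I, inferInstance, inferInstance,
    (Ideal.Quotient.mkₐ K I).comp Polynomial.CAlgHom, Ideal.Quotient.mk I Polynomial.X,
    ⟨fun x => ?_, ?_⟩, fun r h => ?_⟩
  · obtain ⟨x, rfl⟩ := Ideal.Quotient.mk_surjective x
    rw [← map_mul, ← map_mul, Polynomial.X_mul]
  · rw [← map_pow]
    exact Ideal.Quotient.eq_zero_iff_mem.2 (Ideal.subset_span rfl)
  · have h1 : Ideal.Quotient.mk I (Polynomial.X ^ m * Polynomial.C r) = 0 := by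
      rw [map_mul, map_pow]; exact h
    obtain ⟨c, hc⟩ := Ideal.mem_span_singleton'.1 (Ideal.Quotient.eq_zero_iff_mem.1 h1)
    have h2 := congrArg (fun P => Polynomial.coeff P m) hc
    simpa [Polynomial.coeff_mul_X_pow', Polynomial.X_pow_mul] using h2.symm

theorem low (h : F - G ∈ Fil K m) (e : ∀ (B : Type) [Ring B] [Algebra K B] (τ u v : B), Ct m τ →
    τ ∣ u → τ ∣ v → evK u v F = evK u v G) : F - G ∈ Fil K (m + 1) := by
  obtain ⟨p, h1, h2⟩ := Fil_split h
  obtain ⟨B, _, _, ι, τ, h3, h4⟩ := exists_trunc K (W K (Fin 2)) m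
  have h5 := evK_nil h3 (Dvd.intro (ι (lt 0)) rfl) (Dvd.intro (ι (lt 1)) rfl) h2
  rw [map_sub, map_sub, e B τ _ _ h3 (Dvd.intro _ rfl) (Dvd.intro _ rfl), sub_self, zero_sub,
    neg_eq_zero, evK_tau h3.1 _ _ h1, ← map_evK, evK_id] at h5
  simpa [h4 p h5] using h2

/-- Primitive elements. -/
def Prim (p : W K (Fin 2)) : Prop :=
  ∀ (A : Type) [Ring A] [Algebra K A] (a b a' b' : A), a * a' = a' * a → a * b' = b' * a →
    b * a' = a' * b → b * b' = b' * b → evK (a + a') (b + b') p = evK a b p + evK a' b' p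

theorem LK_prim (hp : p ∈ LK K n) : Prim p := by
  intro A _ _ a b a' b' h1 h2 h3 h4
  let S : Submodule K (W K (Fin 2)) := LinearMap.ker ((evK (a + a') (b + b')).toLinearMap -
    (evK a b).toLinearMap - (evK a' b').toLinearMap)
  have hS : ∀ q, q ∈ S ↔ evK (a + a') (b + b') q = evK a b q + evK a' b' q := fun q => by
    simp [S, sub_sub, sub_eq_zero]
  have c : ∀ u v : W K (Fin 2), evK a b u * evK a' b' v = evK a' b' v * evK a b u := fun u v =>
    evK_comm (evK_comm h1.symm h3.symm u).symm (evK_comm h2.symm h4.symm u).symm v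
  refine (hS p).1 (LK_of (S := fun _ => S) (fun i => (hS _).2 ?_) (fun _ _ u v hu hv => (hS _).2 ?_) hp)
  · fin_cases i <;> simp
  · rw [map_cm, map_cm, map_cm, (hS u).1 hu, (hS v).1 hv]
    simp only [cm]
    linear_combination (norm := noncomm_ring) c u v - c v u

variable (K) in
/-- Linear operators on polynomials. -/
abbrev EW : Type := End K (W K (Fin 2))

theorem Prim.mem_LK [CharZero K] (h : Prim p) (hp : p ∈ Hg K m) (hm : 1 ≤ m) : p ∈ LK K m := by
  let L : Fin 2 → EW K := fun i => LM K (lt i)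
  let R : Fin 2 → EW K := fun i => -LinearMap.mulRight K (lt i)
  let τ : TrivSqZeroExt (EW K) (EW K) := inl 1 + inr 1
  have ht : ∀ x, τ * x = x * τ := fun x => by ext <;> simp [τ, add_comm]
  have hc : ∀ i j, τ * inl (L i) * inl (R j) = inl (R j) * (τ * inl (L i)) := fun i j => by
    rw [← mul_assoc, ← ht, mul_assoc, mul_assoc, ← inl_mul, ← inl_mul]
    congr 2
    exact LinearMap.ext fun x => by simp [L, R, mul_assoc]
  have e := h _ _ _ _ _ (hc 0 0) (hc 0 1) (hc 1 0) (hc 1 1)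
  set U : Fin 2 → TrivSqZeroExt (EW K) (EW K) := fun i => τ * inl (L i) + inl (R i) with hU
  have key : ∀ w : List (Fin 2), w ≠ [] → (evK (U 0) (U 1) (wrd w : W K (Fin 2))).fst 1 = 0 ∧
      (evK (U 0) (U 1) (wrd w : W K (Fin 2))).snd 1 ∈ LK K w.length := by
    intro w
    induction w with
    | nil => simp
    | cons i w ih =>
      intro _
      have e1 : ![U 0, U 1] i = U i := by fin_cases i <;> rfl
      rw [evK_cons, e1]
      by_cases hw : w = []
      · subst hw
        have : lt i ∈ LK K 1 := Submodule.subset_span (gen_mem lt (fun _ => 1) i)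
        simpa [U, τ, L, R, wrd_nil] using this
      · obtain ⟨h1, h2⟩ := ih hw
        refine ⟨by simp [h1], ?_⟩
        have := cm_lt_mem i h2
        rw [List.length_cons, add_comm]
        generalize evK (U 0) (U 1) (wrd w : W K (Fin 2)) = z at *
        convert this using 1
        simp [U, τ, L, R, h1, cm, sub_eq_add_neg]
  have h1 : (evK (U 0) (U 1) p).snd 1 ∈ LK K m :=
    Spn_map (LinearMap.applyₗ 1 ∘ₗ (sndHom (EW K) (EW K)).restrictScalars K ∘ₗ (evK (U 0) (U 1)).toLinearMap)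
      hp fun w hw => hw ▸ (key w (by rintro rfl; simp at hw; omega)).2
  have h2 : ∀ u v : EW K, evK (inl u : TrivSqZeroExt (EW K) (EW K)) (inl v) p = inl (evK u v p) := fun u v =>
    (map_evK (inlAlgHom K (EW K) (EW K)) u v p).symm
  have h3 : ∀ k : ℕ, τ ^ k = inl 1 + inr (k : EW K) := fun k => by
    induction k with
    | zero => simp
    | succ k ih => rw [pow_succ, ih]; ext <;> simp [τ, add_comm]
  have h4 : evK (L 0) (L 1) p = LM K p := by rw [← map_evK, evK_id]
  rw [e, evK_tau ht _ _ hp, h2, h2, h3, h4] at h1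
  have h5 : (m : K) • p ∈ LK K m := by simpa [Nat.cast_smul_eq_nsmul] using h1
  exact (Submodule.smul_mem_iff _ (Nat.cast_ne_zero.2 (by omega))).1 h5

end

end Pool.Agent.Lib.MP_446a91_nt.B3
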