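import Pool.Agent.Lib.MP_446a91_nt.DD.Lie
import Pool.Agent.Lib.MP_446a91_nt.CovRep

/-! The pentagon of an integral polynomial holds in every ring (MP_446a91_nt). -/

namespace Pool.Agent.Lib.MP_446a91_nt

open Module

noncomputable section

namespace Tr

abbrev MZ : Type := Bas →₀ ℤ

def fz (t : Fin 3) : End ℤ MZ := Finsupp.lmapDomain ℤ ℤ fun p : Bas => (t :: p.1, p.2)

theorem fz_single (t : Fin 3) (V : List (Fin 3)) (β : List (Fin 2)) :
    fz t (Finsupp.single (V, β) 1) = Finsupp.single (t :: V, β) 1 := by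
  simp [fz]

def act (i : Fin 2) : List (Fin 3) → List (Fin 2) → MZ
  | [], β => Finsupp.single ([], i :: β) 1
  | t :: V, β => fz t (act i V β) + del fz i t (Finsupp.single (V, β) 1)

def bz (i : Fin 2) : End ℤ MZ := Finsupp.linearCombination ℤ fun p : Bas => act i p.1 p.2

variable {R : Type} [Ring R] (s : Fin 3 → R) (c : Fin 2 → R)

def muZ : MZ →ₗ[ℤ] R :=
  Finsupp.linearCombination ℤ fun p : Bas => (p.1.map s).prod * (p.2.map c).prod

theorem muZ_single (V : List (Fin 3)) (β : List (Fin 2)) :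
    muZ s c (Finsupp.single (V, β) 1) = (V.map s).prod * (β.map c).prod := by
  simp [muZ]

theorem MZ_ext {H H' : MZ →ₗ[ℤ] R}
    (h : ∀ V β, H (Finsupp.single (V, β) 1) = H' (Finsupp.single (V, β) 1)) (v : MZ) :
    H v = H' v := by
  refine LinearMap.congr_fun (Finsupp.lhom_ext' fun p => LinearMap.ext_ring ?_) v
  simpa using h p.1 p.2

theorem muZ_fz (t : Fin 3) (v : MZ) : muZ s c (fz t v) = s t * muZ s c v :=
  MZ_ext (H := muZ s c ∘ₗ fz t) (H' := LinearMap.mulLeft ℤ (s t) ∘ₗ muZ s c)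
    (fun V β => by simp [fz_single, muZ_single, mul_assoc]) v

theorem muZ_del (i : Fin 2) (t : Fin 3) (v : MZ) :
    muZ s c (del fz i t v) = del s i t * muZ s c v := by
  fin_cases i <;> fin_cases t <;> simp [del, muZ_fz, sub_mul, mul_assoc]

theorem muZ_bz (h : ∀ i t, c i * s t = s t * c i + del s i t) (i : Fin 2) (v : MZ) :
    muZ s c (bz i v) = c i * muZ s c v := by
  refine MZ_ext (H := muZ s c ∘ₗ bz i) (H' := LinearMap.mulLeft ℤ (c i) ∘ₗ muZ s c)
    (fun V β => ?_) v
  have e : bz i (Finsupp.single (V, β) 1) = act i V β := by simp [bz]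
  rw [LinearMap.comp_apply, LinearMap.comp_apply, e, LinearMap.mulLeft_apply]
  clear e
  induction V with
  | nil => simp [act, muZ_single]
  | cons t V ih =>
    rw [act, map_add, muZ_fz, ih, muZ_del, ← fz_single, muZ_fz, ← mul_assoc (c i), h]
    noncomm_ring

theorem muZ_ev2 {S T : End ℤ MZ} {a b : R} (ha : ∀ v, muZ s c (S v) = a * muZ s c v)
    (hb : ∀ v, muZ s c (T v) = b * muZ s c v) (p : W ℤ (Fin 2)) :
    muZ s c (ev2 S T p (Finsupp.single ([], []) 1)) = ev2 a b p := by
  induction p using W_ind with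
  | one => simp [muZ_single]
  | mul i p ih => fin_cases i <;> simp [ha, hb, ih]
  | add p q h1 h2 => simp [h1, h2]
  | smul r p ih => simp only [map_zsmul, LinearMap.smul_apply, ih]

/-- The defect of the pentagon in the integral model. -/
def defect (p : W ℤ (Fin 2)) : MZ :=
  (ev2 (fz 0) (fz 1 + fz 2) p + ev2 (-(bz 0 + bz 1)) (bz 1) p -
    (ev2 (fz 1) (bz 1) p + ev2 (-(bz 0 + bz 1)) (fz 2 + bz 1) p + ev2 (fz 0) (fz 1) p))
    (Finsupp.single ([], []) 1)

theorem muZ_defect (h : ∀ i t, c i * s t = s t * c i + del s i t) (p : W ℤ (Fin 2)) :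
    muZ s c (defect p) = ev2 (s 0) (s 1 + s 2) p + ev2 (-(c 0 + c 1)) (c 1) p -
      (ev2 (s 1) (c 1) p + ev2 (-(c 0 + c 1)) (s 2 + c 1) p + ev2 (s 0) (s 1) p) := by
  have e : ∀ v, muZ s c ((-(bz 0 + bz 1)) v) = -(c 0 + c 1) * muZ s c v := fun v => by
    simp [muZ_bz s c h, add_mul]
  simp only [defect, LinearMap.sub_apply, LinearMap.add_apply, map_add, map_sub]
  rw [muZ_ev2 s c (muZ_fz s c 0) (b := s 1 + s 2) fun v => by simp [muZ_fz, add_mul],
    muZ_ev2 s c e (muZ_bz s c h 1), muZ_ev2 s c (muZ_fz s c 1) (muZ_bz s c h 1),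
    muZ_ev2 s c e (b := s 2 + c 1) fun v => by simp [muZ_fz, muZ_bz s c h, add_mul],
    muZ_ev2 s c (muZ_fz s c 0) (muZ_fz s c 1)]

theorem muZ_inj {v : MZ} (h : muZ fb bs v = 0) : v = 0 := by
  have key : ∀ V β, ((List.map fb V).prod * (List.map bs β).prod) OM.o =
      Finsupp.single (V, β) 1 := by
    intro V β
    induction V with
    | nil =>
      induction β with
      | nil => simp [OM]
      | cons i β ih =>
        simp only [List.map_nil, List.prod_nil, one_mul, List.map_cons, List.prod_cons,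
          End.mul_apply] at ih ⊢
        rw [ih, bs_single, basAct]
    | cons t V ih => rw [List.map_cons, List.prod_cons, mul_assoc, End.mul_apply, ih, fb_single]
  ext q
  have := MZ_ext (R := ℚ) (H := ((Finsupp.lapply q : MM →ₗ[ℚ] ℚ) ∘ₗ
      LinearMap.applyₗ OM.o).restrictScalars ℤ ∘ₗ muZ fb bs)
    (H' := Algebra.linearMap ℤ ℚ ∘ₗ Finsupp.lapply q) (fun V β => by
      simp [muZ_single, -End.mul_apply, key, Finsupp.single_apply]) v
  rw [LinearMap.comp_apply, h, map_zero] at this
  simpa using this.symm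

end Tr

open Tr in
theorem up_of_grt {n : ℕ} (hn : 2 ≤ n) {ψ : FL} (h : ψ ∈ grt n)
    {p : W ℤ (Fin 2)} (hp : evZ lt p = iota ψ) : UP p := by
  have h0 : defect p = 0 := by
    refine muZ_inj ?_
    have := pentagon_ops OM hn h
    simp only [ev_evZ _ _ hp] at this
    rw [muZ_defect _ _ bs_fb, sub_eq_zero]
    have e : OM.b + OM.d = bs 0 := by simp [OM]
    rw [e] at this
    exact this
  intro R _ a b d e f r1 r2 r3 r4 r5 r6
  have := muZ_defect ![a, e, d] ![b + d, f] (fun i t => by
    fin_cases i <;> fin_cases t <;> simp [del]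
    · exact r3.symm
    · linear_combination (norm := noncomm_ring) r2
    · linear_combination (norm := noncomm_ring) r3 + r4
    · exact r1.symm
    · linear_combination (norm := noncomm_ring) - r5
    · linear_combination (norm := noncomm_ring) r5 + r6) p
  rw [h0, map_zero, eq_comm, sub_eq_zero] at this
  exact this

end

end Pool.Agent.Lib.MP_446a91_nt
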