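import Pool.Agent.Lib.MP_446a91_nt.DD.S1
import Pool.Agent.Lib.MP_446a91_nt.CovSmall
import Pool.Agent.Lib.MP_446a91_nt.DD.B3
import Pool.Agent.Lib.MP_446a91_nt.DD.B2
import Pool.Agent.Lib.MP_446a91_nt.DD.UpGrt

/-! From the free Lie algebra to noncommutative polynomials and back (MP_446a91_nt). -/

namespace Pool.Agent.Lib.MP_446a91_nt

open Module Desc TensorProduct

attribute [local instance 100] LieRing.ofAssociativeRing

noncomputable section

/-- Applying a rational linear form to the coefficients of a real Lie polynomial. -/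
theorem coeff_form {n : ℕ} {p : W ℝ (Fin 2)} (hp : p ∈ LK ℝ n) : ∀ l : ℝ →ₗ[ℚ] ℚ,
    ∃ q ∈ LK ℚ n, (∀ w, cf w q = l (cf w p)) ∧ ∀ (R : Type) [Ring R] [Algebra ℚ R] (a b : R),
      TensorProduct.lid ℚ R (l.rTensor R (evK (1 ⊗ₜ a : ℝ ⊗[ℚ] R) (1 ⊗ₜ b) p)) = evK a b q := by
  refine LK_induction (P := fun p => ∀ l : ℝ →ₗ[ℚ] ℚ,
    ∃ q ∈ LK ℚ n, (∀ w, cf w q = l (cf w p)) ∧ ∀ (R : Type) [Ring R] [Algebra ℚ R] (a b : R),
      TensorProduct.lid ℚ R (l.rTensor R (evK (1 ⊗ₜ a : ℝ ⊗[ℚ] R) (1 ⊗ₜ b) p)) = evK a b q) hp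
    (fun q hq l => ?_) (fun u v h1 h2 l => ?_) (fun c u h l => ?_)
  · refine ⟨l 1 • evZ lt q, Submodule.smul_mem _ _ (evZ_mem_LK hq), fun w => ?_, fun R _ _ a b => ?_⟩
    · rw [map_smul, cf_evZ, cf_evZ, ← zsmul_one (cf w q), ← zsmul_one (cf w q), map_zsmul]
      simp [mul_comm]
    · have := map_ev2 (Algebra.TensorProduct.includeRight : R →ₐ[ℚ] ℝ ⊗[ℚ] R).toRingHom a b q
      simp only [AlgHom.toRingHom_eq_coe, RingHom.coe_coe,
        Algebra.TensorProduct.includeRight_apply] at this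
      rw [map_smul, evK_evZ, evK_evZ, ← this]
      simp
  · obtain ⟨a, ha, a1, a2⟩ := h1 l
    obtain ⟨b, hb, b1, b2⟩ := h2 l
    exact ⟨a + b, add_mem ha hb, fun w => by simp only [map_add, a1, b1],
      fun R _ _ x y => by simp only [map_add, a2, b2]⟩
  · obtain ⟨a, ha, a1, a2⟩ := h (l ∘ₗ LinearMap.mulLeft ℚ c)
    refine ⟨a, ha, fun w => by simp [a1], fun R _ _ x y => ?_⟩
    rw [← a2, map_smul]
    generalize evK (1 ⊗ₜ x : ℝ ⊗[ℚ] R) (1 ⊗ₜ y) u = z
    induction z with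
    | zero => simp
    | tmul s t => simp [TensorProduct.smul_tmul']
    | add s t h1 h2 => simp only [smul_add, map_add, h1, h2]

theorem Rel5.map {R R' : Type} [Ring R] [Ring R'] (f : R →+* R') {a1 a2 a3 a4 a5 : R}
    (r : Rel5 a1 a2 a3 a4 a5) : Rel5 (f a1) (f a2) (f a3) (f a4) (f a5) where
  h13 := by rw [← map_mul, r.h13, map_mul]
  h24 := by rw [← map_mul, r.h24, map_mul]
  h35 := by rw [← map_mul, r.h35, map_mul]
  h41 := by rw [← map_mul, r.h41, map_mul]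
  h52 := by rw [← map_mul, r.h52, map_mul]
  hs := by simpa only [map_add, map_cm, map_zero] using congrArg f r.hs

theorem exists_rat (k : ℕ) :
    ∃ p ∈ LK ℚ (2 * k + 3), UPC p ∧ dep (2 * k + 3) p ≠ 0 := by
  obtain ⟨p, hp, h1, h2⟩ := exists_real k
  obtain ⟨l, hl⟩ := Module.Projective.exists_dual_ne_zero ℚ h2
  obtain ⟨q, hq, q1, q2⟩ := coeff_form hp l
  refine ⟨q, hq, fun R _ _ a b c d e r => ?_, fun h => hl ((q1 _).symm.trans h)⟩
  have := h1 (ℝ ⊗[ℚ] R) _ _ _ _ _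
    (r.map (Algebra.TensorProduct.includeRight : R →ₐ[ℚ] ℝ ⊗[ℚ] R).toRingHom)
  simp only [AlgHom.toRingHom_eq_coe, RingHom.coe_coe,
    Algebra.TensorProduct.includeRight_apply] at this
  simp only [← q2, ← map_add, this, map_zero]

theorem iota_mem_LK {n : ℕ} {ψ : FL} (h : ψ ∈ deg n) : iota ψ ∈ LK ℚ n := by
  induction h using Submodule.span_induction with
  | mem u hu =>
    refine Submodule.subset_span ?_
    induction hu with
    | of i => rw [iota_of]; exact gen_mem (lt : Fin 2 → W ℚ (Fin 2)) (fun _ => 1) i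
    | lie _ _ h1 h2 => rw [LieHom.map_lie]; exact cm_mem h1 h2
  | zero => simp
  | add u v _ _ h1 h2 => rw [map_add]; exact add_mem h1 h2
  | smul c u _ h => rw [map_smul]; exact Submodule.smul_mem _ c h

theorem exists_deg {n : ℕ} {p : W ℚ (Fin 2)} (h : p ∈ LK ℚ n) : ∃ ψ ∈ deg n, iota ψ = p := by
  have : LK ℚ n ≤ (deg n).map iota.toLinearMap := by
    refine Submodule.span_le.2 fun u hu => ?_
    refine Sp_induction (P := fun u => u ∈ (deg n).map iota.toLinearMap) hu (fun u hu' => ?_)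
      (zero_mem _) (fun _ _ h1 h2 => add_mem h1 h2) fun _ h1 => neg_mem h1
    have : ∃ ψ, IsBr n ψ ∧ iota ψ = u := by
      clear hu h
      induction hu' with
      | of i => exact ⟨_, IsBr.of i, iota_of i⟩
      | lie _ _ h1 h2 =>
        obtain ⟨a, a1, rfl⟩ := h1
        obtain ⟨b, b1, rfl⟩ := h2
        exact ⟨_, a1.lie b1, iota.map_lie a b⟩
    obtain ⟨ψ, h1, h2⟩ := this
    exact ⟨ψ, Submodule.subset_span h1, h2⟩
  exact this h

theorem iota_injective : Function.Injective iota := by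
  rw [injective_iff_map_eq_zero]
  intro u hu
  have : FreeLieAlgebra.lift ℚ (lt : Fin 2 → W ℚ (Fin 2)) = iota :=
    FreeLieAlgebra.hom_ext fun i => by rw [iota_of, FreeLieAlgebra.lift_of_apply]; rfl
  exact free_inj (by rw [this]; exact hu)

theorem ev_evK {g A : Type} [LieRing g] [LieAlgebra ℚ g] [Ring A] [Algebra ℚ A]
    (ρ : g →ₗ⁅ℚ⁆ A) (u v : g) (ψ : FL) :
    ρ (ev u v ψ) = evK (K := ℚ) (ρ u) (ρ v) (iota ψ) := by
  rw [ev_map, ev_eq]; rfl

theorem t_symm (i j : Fin 4) : t i j = t j i := by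
  have : tf i j = tf j i := by
    unfold tf
    split_ifs <;> first | rfl | omega
  rw [t, t, this]

theorem t_rel1 {i j k l : Fin 4} (h : i ≠ j ∧ k ≠ l ∧ i ≠ k ∧ i ≠ l ∧ j ≠ k ∧ j ≠ l) :
    ⁅t i j, t k l⁆ = 0 :=
  (LieSubmodule.Quotient.mk_eq_zero' (N := relIdeal) (m := ⁅tf i j, tf k l⁆)).2
    (LieSubmodule.subset_lieSpan (Or.inl ⟨i, j, k, l, h.1, h.2.1, h.2.2.1, h.2.2.2.1, h.2.2.2.2.1,
      h.2.2.2.2.2, rfl⟩))

theorem t_rel2 {i j k : Fin 4} (h : i ≠ j ∧ i ≠ k ∧ j ≠ k) : ⁅t i j, t i k + t j k⁆ = 0 :=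
  (LieSubmodule.Quotient.mk_eq_zero' (N := relIdeal) (m := ⁅tf i j, tf i k + tf j k⁆)).2
    (LieSubmodule.subset_lieSpan (Or.inr ⟨i, j, k, h.1, h.2.1, h.2.2, rfl⟩))

theorem pentagon_of_upk {n : ℕ} (hn : 2 ≤ n) {ψ : FL} (h : ψ ∈ deg n)
    (hu : UPK (K := ℚ) (iota ψ)) : Pentagon ψ := by
  obtain ⟨A, _, _, ρ, hρ⟩ := PBW.exists_faithful ℚ T4
  have c : ∀ {u v : T4}, ⁅u, v⁆ = 0 → ρ u * ρ v = ρ v * ρ u := fun {u v} h => by
    rw [← sub_eq_zero, ← LieRing.of_associative_ring_bracket, ← LieHom.map_lie, h, map_zero]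
  have r1 := c (t_rel1 (i := 0) (j := 1) (k := 2) (l := 3) (by decide))
  have r2 := c (t_rel1 (i := 0) (j := 2) (k := 1) (l := 3) (by decide))
  have r3 := c (t_rel2 (i := 0) (j := 1) (k := 2) (by decide))
  have r4 := c (t_rel2 (i := 1) (j := 2) (k := 0) (by decide))
  have r5 := c (t_rel2 (i := 1) (j := 2) (k := 3) (by decide))
  have r6 := c (t_rel2 (i := 2) (j := 3) (k := 1) (by decide))
  rw [t_symm 1 0, t_symm 2 0] at r4
  rw [t_symm 2 1, t_symm 3 1] at r6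
  refine sub_eq_zero.1 (hρ _ ?_)
  simp only [evT, map_sub, map_add, ev_evK] at r3 r4 r5 r6 ⊢
  generalize ρ (t 0 1) = a at *
  generalize ρ (t 0 2) = c at *
  generalize ρ (t 1 2) = e at *
  generalize ρ (t 1 3) = d at *
  generalize ρ (t 2 3) = f at *
  have hp := iota_mem_LK h
  have h0 := hu A a e f (a + c + e) (e + d + f)
    ⟨r1, by linear_combination (norm := noncomm_ring) r4,
      by linear_combination (norm := noncomm_ring) r6,
      by linear_combination (norm := noncomm_ring) -r3,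
      by linear_combination (norm := noncomm_ring) -r5,
      by simp only [cm]; linear_combination (norm := noncomm_ring) r5 - r4 - r1 + r2⟩
  have s1 := evK_shift (u := a) (v := e + d) (z := 0) (z' := f) (by simp) (by simp) r1.symm r6
    (by simp) hn hp
  have s2 := evK_shift (u := c + e) (v := f) (z := a) (z' := 0) r3 r1 (by simp) (by simp)
    (by simp) hn hp
  have s3 := evK_shift (u := a + c) (v := d + f) (z := e) (z' := e) r4 r5 r4 r5 rfl hn hp
  rw [add_zero] at s1 s2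
  rw [← s1, ← s2, ← s3, show c + e + a = a + c + e by abel, show d + f + e = e + d + f by abel,
    h0, sub_self]

theorem mem_grt_iff {n : ℕ} (hn : 3 ≤ n) {ψ : FL} (h : ψ ∈ deg n) :
    ψ ∈ grt n ↔ UPC (K := ℚ) (iota ψ) := by
  have hp := iota_mem_LK h
  have hn2 : 2 ≤ n := by omega
  refine ⟨fun hψ => (upk_iff_upc hn2 hp).1 fun R _ _ a b c d e r => ?_,
    fun hu => ⟨h, iota_injective ?_, fun z hz => iota_injective ?_,
      pentagon_of_upk hn2 h ((upk_iff_upc hn2 hp).2 hu)⟩⟩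
  · obtain ⟨m, hm, q, hq, e1⟩ := exists_int2 hp
    have h1 := (grt n).smul_mem (m : ℚ) hψ
    have h2 := (up_of_grt hn2 h1 (p := q)
      (by rw [e1, map_smul, Int.cast_smul_eq_zsmul])).five hn2 hq r.h13 r.h24 r.h35 r.h41 r.h52 r.hs
    simp only [← evK_evZ (K := ℚ), e1, map_zsmul, ← smul_add] at h2
    rw [← Int.cast_smul_eq_zsmul ℚ, ← Int.cast_smul_eq_zsmul ℚ] at h2
    exact smul_right_injective R (by exact_mod_cast hm) h2
  · rw [map_neg, ev_evK, ev_evK]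
    exact hu.skew hn2 hp _ _
  · rw [map_add, map_add, ev_evK, ev_evK, ev_evK, map_zero]
    exact hu.hex hn hp (by rw [← map_add, ← map_add, hz, map_zero])

theorem grt_small {n : ℕ} (hn : n ≤ 2) : grt n = ⊥ :=
  eq_bot_iff.2 fun _ h => grt_le_two hn h

theorem exists_iharaD : ∃ D : FL → LieDerivation ℚ FL FL,
    (∀ ψ, D ψ genX = 0 ∧ D ψ genY = ⁅genY, ψ⁆) ∧
    ∀ ψ φ, iota (D ψ φ) = dK (K := ℚ) (iota ψ) (iota φ) := by
  have e0 : iota genX = (lt 0 : W ℚ (Fin 2)) := iota_of 0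
  have e1 : iota genY = (lt 1 : W ℚ (Fin 2)) := iota_of 1
  have lie : ∀ ψ u v, dK (K := ℚ) (iota ψ) (iota ⁅u, v⁆) =
      ⁅iota u, dK (K := ℚ) (iota ψ) (iota v)⁆ - ⁅iota v, dK (K := ℚ) (iota ψ) (iota u)⁆ := by
    intro ψ u v
    simp only [LieHom.map_lie, LieRing.of_associative_ring_bracket, map_sub, dK_der _ _ _]
    abel
  have key : ∀ ψ φ, ∃ χ, iota χ = dK (K := ℚ) (iota ψ) (iota φ) := fun ψ φ => by
    refine free_induction (P := fun φ => ∃ χ, iota χ = dK (K := ℚ) (iota ψ) (iota φ)) φ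
      (fun i => ?_) ⟨0, by simp⟩ ?_ ?_ ?_
    · fin_cases i
      · refine ⟨0, ?_⟩
        change _ = dK _ (iota genX)
        rw [e0, dK_zero, map_zero]
      · refine ⟨⁅genY, ψ⁆, ?_⟩
        change _ = dK _ (iota genY)
        rw [LieHom.map_lie, e1, dK_one]
        rfl
    · rintro u v ⟨a, h1⟩ ⟨b, h2⟩
      exact ⟨a + b, by simp only [map_add, h1, h2]⟩
    · rintro c u ⟨a, h1⟩
      exact ⟨c • a, by simp only [map_smul, h1]⟩
    · rintro u v ⟨a, h1⟩ ⟨b, h2⟩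
      exact ⟨⁅u, b⁆ - ⁅v, a⁆, by rw [lie, map_sub, LieHom.map_lie, LieHom.map_lie, h1, h2]⟩
  choose d hd using key
  refine ⟨fun ψ =>
    { toFun := d ψ
      map_add' := fun u v => iota_injective (by simp only [map_add, hd])
      map_smul' := fun c u => iota_injective (by simp only [map_smul, hd, RingHom.id_apply])
      leibniz' := fun u v => iota_injective ?_ }, fun ψ => ⟨iota_injective ?_, iota_injective ?_⟩,
    hd⟩
  · change iota (d ψ ⁅u, v⁆) = iota (⁅u, d ψ v⁆ - ⁅v, d ψ u⁆)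
    rw [hd, lie, map_sub, LieHom.map_lie, LieHom.map_lie, hd, hd]
  · change iota (d ψ genX) = _
    rw [hd, e0, dK_zero, map_zero]
  · change iota (d ψ genY) = _
    rw [hd, e1, dK_one, LieHom.map_lie, e1]
    rfl

end

end Pool.Agent.Lib.MP_446a91_nt
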