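import Pool.Agent.Lib.MP_446a91_nt.CovDefs

/-! Ihara's bracket and the depth one coefficient (MP_446a91_nt). -/

namespace Pool.Agent.Lib.MP_446a91_nt

open scoped TensorProduct

attribute [local instance 100] LieRing.ofAssociativeRing

noncomputable section

/-- `B` is Ihara's bracket `{ψ, φ} = [ψ, φ] + D_ψ φ - D_φ ψ`, where `D_ψ` is the derivation with
`D_ψ x = 0` and `D_ψ y = [y, ψ]`. -/
def IsIhara (B : FL →ₗ[ℚ] FL →ₗ[ℚ] FL) : Prop :=
  ∃ D : FL → LieDerivation ℚ FL FL, (∀ ψ, D ψ genX = 0 ∧ D ψ genY = ⁅genY, ψ⁆) ∧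
    ∀ ψ φ, B ψ φ = ⁅ψ, φ⁆ + D ψ φ - D φ ψ

/-- A Lie polynomial seen as a noncommutative polynomial in `x, y` (letters `0, 1`). -/
def toPoly : FL →ₗ⁅ℚ⁆ MonoidAlgebra ℚ (FreeMonoid (Fin 2)) :=
  FreeLieAlgebra.lift ℚ fun i => MonoidAlgebra.single (FreeMonoid.of i) 1

/-- The coefficient of the word `x ^ (n - 1) y`; for a Lie polynomial of degree `n` this is the
coefficient of `ad(x) ^ (n - 1) y`. -/
def dep1 (n : ℕ) : FL →ₗ[ℚ] ℚ :=
  Finsupp.lapply (FreeMonoid.ofList (List.replicate (n - 1) 0 ++ [1])) ∘ₗ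
    (MonoidAlgebra.coeffLinearEquiv ℚ).toLinearMap ∘ₗ toPoly.toLinearMap

/-- One element of `grt ⊗ K` in each odd degree `2 k + 3`, with nonzero depth one coefficient. -/
def IsGens (K : Type) [Field K] [CharZero K] (σ : ℕ → K ⊗[ℚ] FL) : Prop :=
  ∀ k, σ k ∈ (grt (2 * k + 3)).baseChange K ∧ (dep1 (2 * k + 3)).baseChange K (σ k) ≠ 0

end

end Pool.Agent.Lib.MP_446a91_nt
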