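import Pool.Agent.Lib.MP_446a91_nt.DD.HoffA

/-! A representation of the braid algebra in characteristic two (MP_446a91_nt). -/

namespace Pool.Agent.Lib.MP_446a91_nt

open Module

noncomputable section

section ad
variable {k X : Type} [CommRing k]

/-- Inner derivations. -/
def adE (p : W k X) : End k (W k X) := LinearMap.mulLeft k p - LinearMap.mulRight k p

theorem adE_apply (p u : W k X) : adE p u = cm p u := rfl

theorem adE_isDer (p : W k X) : IsDer (adE p) := fun a b => by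
  simp only [adE_apply, cm]; noncomm_ring

theorem IsDer.cm {D : End k (W k X)} (h : IsDer D) (u v : W k X) :
    D (cm u v) = cm (D u) v + cm u (D v) := by
  simp only [MP_446a91_nt.cm, map_sub, h _ _]; noncomm_ring

theorem IsDer.ad {D : End k (W k X)} (h : IsDer D) (p : W k X) :
    MP_446a91_nt.cm D (adE p) = adE (D p) := by
  refine LinearMap.ext fun u => ?_
  change D (adE p u) - adE p (D u) = _
  simp only [adE_apply, h.cm]; abel

theorem IsDer.add {D E : End k (W k X)} (h : IsDer D) (h' : IsDer E) :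
    IsDer (D + E : End k (W k X)) := fun a b => by
  simp only [LinearMap.add_apply, h _ _, h' _ _]; noncomm_ring

theorem IsDer.cmD {D E : End k (W k X)} (h : IsDer D) (h' : IsDer E) :
    IsDer (MP_446a91_nt.cm D E : End k (W k X)) := h.comm h'

theorem isDer_zeroW : IsDer (0 : End k (W k X)) := fun a b => by simp

theorem adE_add (p q : W k X) : adE (p + q) = adE p + adE q :=
  LinearMap.ext fun u => cm_add_left p q u
theorem adE_neg (p : W k X) : adE (-p) = -adE p := LinearMap.ext fun u => cm_neg_left p u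
theorem adE_zero : adE (0 : W k X) = 0 := LinearMap.ext fun u => cm_zero_left u
theorem adE_cm (p q : W k X) : adE (cm p q) = cm (adE p) (adE q) := ((adE_isDer p).ad q).symm

theorem evZ_ad {S : Type} {w : S → ℕ} {n : ℕ} {q : W ℤ S} (hq : q ∈ Sp lt w n) (g : S → W k X) :
    evZ (fun s => adE (g s)) q = adE (evZ g q) := by
  refine Sp_induction (P := fun q => evZ (fun s => adE (g s)) q = adE (evZ g q)) hq
    (fun u hu => ?_) (by simp [adE_zero]) (fun u v h1 h2 => by simp [h1, h2, adE_add])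
    (fun u h => by simp [h, adE_neg])
  clear hq
  induction hu with
  | of s => simp
  | lie _ _ h1 h2 => rw [map_cm, map_cm, h1, h2, adE_cm]

theorem inner_val {D E : End k (W k X)} (hD : IsDer D) (hE : IsDer E) (P : AddSubgroup (W k X))
    (pc : ∀ u ∈ P, ∀ v ∈ P, cm u v ∈ P) (pD : ∀ u ∈ P, D u ∈ P) (pE : ∀ u ∈ P, E u ∈ P)
    {c : W k X} (hc : c ∈ P) (h : cm D E = adE c) {n : ℕ} (hn : 2 ≤ n) {p : W ℤ (Fin 2)}
    (hp : p ∈ L2 n) : ∃ ω ∈ P, ev2 D E p = adE ω := by
  have key : ∀ m u, Br (lt : Fin 2 → W ℤ (Fin 2)) (fun _ => 1) m u →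
      (m = 1 ∧ (ev2 D E u = D ∨ ev2 D E u = E)) ∨ ∃ ω ∈ P, ev2 D E u = adE ω := by
    intro m u hu
    induction hu with
    | of i => fin_cases i <;> simp
    | @lie a b u v _ _ h1 h2 =>
      right
      rw [map_cm]
      rcases h1 with ⟨-, h1 | h1⟩ | ⟨ω, m1, h1⟩ <;> rcases h2 with ⟨-, h2 | h2⟩ | ⟨ω', m2, h2⟩ <;>
        rw [h1, h2]
      · exact ⟨0, zero_mem _, by simp [adE_zero]⟩
      · exact ⟨c, hc, h⟩
      · exact ⟨_, pD _ m2, hD.ad _⟩
      · exact ⟨-c, neg_mem hc, by rw [cm_swap, h, adE_neg]⟩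
      · exact ⟨0, zero_mem _, by simp [adE_zero]⟩
      · exact ⟨_, pE _ m2, hE.ad _⟩
      · exact ⟨_, neg_mem (pD _ m1), by rw [cm_swap, hD.ad, adE_neg]⟩
      · exact ⟨_, neg_mem (pE _ m1), by rw [cm_swap, hE.ad, adE_neg]⟩
      · exact ⟨_, pc _ m1 _ m2, (adE_cm _ _).symm⟩
  refine Sp_induction (P := fun p => ∃ ω ∈ P, ev2 D E p = adE ω) hp (fun u hu => ?_)
    ⟨0, zero_mem _, by simp [adE_zero]⟩ ?_ ?_
  · rcases key n u hu with ⟨h, -⟩ | h
    exacts [by omega, h]
  · rintro u v ⟨a, ha, h1⟩ ⟨b, hb, h2⟩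
    exact ⟨a + b, add_mem ha hb, by rw [map_add, h1, h2, adE_add]⟩
  · rintro u ⟨a, ha, h1⟩
    exact ⟨-a, neg_mem ha, by rw [map_neg, h1, adE_neg]⟩

theorem cf_cons_mul [DecidableEq X] (r i : X) (w : List X) (q : W k X) :
    cf (i :: w) (lt r * q) = if r = i then cf w q else 0 :=
  linW_eq (cf (i :: w) ∘ₗ LinearMap.mulLeft k (lt r)) (if r = i then cf w else 0) q
    (fun v _ => by by_cases h : r = i <;> simp [← wrd_cons, cf_wrd, h]) |>.trans
    (by split_ifs <;> simp)

theorem cf_concat_mul [DecidableEq X] (r i : X) (w : List X) (q : W k X) :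
    cf (w ++ [i]) (q * lt r) = if r = i then cf w q else 0 :=
  linW_eq (cf (w ++ [i]) ∘ₗ LinearMap.mulRight k (lt r)) (if r = i then cf w else 0) q
    (fun v _ => by by_cases h : r = i <;> simp [lt, wrd_mul, cf_wrd, h]) |>.trans
    (by split_ifs <;> simp)

/-- An element commuting with two different letters is a scalar. -/
theorem central_fix [DecidableEq X] {i j : X} (hij : i ≠ j) {z : W k X} (hi : cm z (lt i) = 0)
    (hj : cm z (lt j) = 0) (κ : W k X →ₐ[k] W k X) : κ z = z := by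
  have key : ∀ (r : X), cm z (lt r) = 0 → ∀ w l, r ≠ l → cf (w ++ [l]) z = 0 := by
    intro r hr w l hl
    have h := congrArg (cf (r :: (w ++ [l]))) (sub_eq_zero.1 hr)
    rw [cf_cons_mul, if_pos rfl, ← List.cons_append, cf_concat_mul, if_neg hl] at h
    exact h.symm
  refine linW_eq κ.toLinearMap LinearMap.id z fun w hw => ?_
  rcases List.eq_nil_or_concat w with rfl | ⟨w, l, rfl⟩
  · simp [wrd_nil]
  · rw [List.concat_eq_append] at hw
    by_cases h : i = l
    · exact absurd (key j hj w l (h ▸ hij.symm)) hw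
    · exact absurd (key i hi w l h) hw

end ad

/-- Letters `x`, `e`, `c`. -/
abbrev A2 : Type := W (ZMod 2) (Fin 3)

namespace Rep2

theorem two : (2 : A2) = 0 := by
  have : (2 : A2) = algebraMap (ZMod 2) A2 2 := (map_ofNat _ 2).symm
  rw [this, show (2 : ZMod 2) = 0 from rfl, map_zero]

theorem neg2 (u : A2) : -u = u := by linear_combination (norm := noncomm_ring) -(two * u)

theorem add2 (u : A2) : u + u = 0 := by linear_combination (norm := noncomm_ring) two * u

theorem swap2 (u v : A2) : cm u v = cm v u := by rw [cm_swap, neg2]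

theorem twoE : (2 : End (ZMod 2) A2) = 0 := LinearMap.ext fun u => by
  rw [End.ofNat_apply, two_nsmul]; exact add2 u

def dl : End (ZMod 2) A2 := der ![lt 1, 0, 0]
def a1 : End (ZMod 2) A2 := der ![lt 2, cm (lt 0) (lt 2), 0]
def a2 : End (ZMod 2) A2 := adE (lt 0)
def a3 : End (ZMod 2) A2 := adE (lt 0) + dl
def a4 : End (ZMod 2) A2 := der ![0, cm (lt 0) (lt 2), 0]
def a5 : End (ZMod 2) A2 := der ![0, 0, cm (lt 0) (lt 1)]

theorem dd : IsDer dl := der_isDer _
theorem d1 : IsDer a1 := der_isDer _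
theorem d2 : IsDer a2 := adE_isDer _
theorem d3 : IsDer a3 := d2.add dd
theorem d4 : IsDer a4 := der_isDer _
theorem d5 : IsDer a5 := der_isDer _

theorem cm_apply (D E : End (ZMod 2) A2) (u : A2) : cm D E u = D (E u) - E (D u) := rfl

theorem l0 : dl (lt 0) = lt 1 ∧ dl (lt 1) = 0 ∧ dl (lt 2) = 0 := by simp [dl]
theorem l1 : a1 (lt 0) = lt 2 ∧ a1 (lt 1) = cm (lt 0) (lt 2) ∧ a1 (lt 2) = 0 := by simp [a1]
theorem l4 : a4 (lt 0) = 0 ∧ a4 (lt 1) = cm (lt 0) (lt 2) ∧ a4 (lt 2) = 0 := by simp [a4]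
theorem l5 : a5 (lt 0) = 0 ∧ a5 (lt 1) = 0 ∧ a5 (lt 2) = cm (lt 0) (lt 1) := by simp [a5]

theorem c1d : cm a1 dl = adE (lt 2) := der_ext (d1.cmD dd) (adE_isDer _) fun i => by
  fin_cases i <;> simp [cm_apply, adE_apply, l0, l1, dd.cm, neg2, swap2 (lt 2)]
theorem c4d : cm a4 dl = adE (lt 2) := der_ext (d4.cmD dd) (adE_isDer _) fun i => by
  fin_cases i <;> simp [cm_apply, adE_apply, l0, l4, dd.cm, neg2, swap2 (lt 2)]
theorem c5d : cm a5 dl = 0 := der_ext (d5.cmD dd) isDer_zeroW fun i => by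
  fin_cases i <;> simp [cm_apply, l0, l5, dd.cm]
theorem c14 : cm a1 a4 = 0 := der_ext (d1.cmD d4) isDer_zeroW fun i => by
  fin_cases i <;> simp [cm_apply, l1, l4, d1.cm, d4.cm]
theorem c12 : cm a1 a2 = adE (lt 2) := by rw [a2, d1.ad, l1.1]
theorem c42 : cm a4 a2 = 0 := by rw [a2, d4.ad, l4.1, adE_zero]
theorem c52 : cm a5 a2 = 0 := by rw [a2, d5.ad, l5.1, adE_zero]
theorem cd2 : cm dl a2 = adE (lt 1) := by rw [a2, dd.ad, l0.1]
theorem c13 : cm a1 a3 = 0 := by
  rw [show a3 = a2 + dl from rfl, cm_add_right, c12, c1d, ← adE_add, add2, adE_zero]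
theorem c43 : cm a4 a3 = adE (lt 2) := by
  rw [show a3 = a2 + dl from rfl, cm_add_right, c42, c4d, zero_add]
theorem c53 : cm a5 a3 = 0 := by
  rw [show a3 = a2 + dl from rfl, cm_add_right, c52, c5d, zero_add]
theorem c32 : cm a3 a2 = adE (lt 1) := by
  rw [show a3 = a2 + dl from rfl, cm_add_left, cm_self, cd2, zero_add]

theorem negE (D : End (ZMod 2) A2) : -D = D := LinearMap.ext fun _ => neg2 _
theorem swapE (D E : End (ZMod 2) A2) : cm D E = cm E D := by rw [cm_swap, negE]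

theorem f54 : cm a5 a4 (lt 0) = 0 ∧ cm a5 a4 (lt 1) = cm (lt 0) (cm (lt 0) (lt 1)) ∧
    cm a5 a4 (lt 2) = cm (lt 0) (cm (lt 0) (lt 2)) := by
  simp [cm_apply, l4, l5, d4.cm, d5.cm, neg2]

theorem c15 : cm a1 a5 = cm a5 a4 + adE (lt 1) :=
  der_ext (d1.cmD d5) ((d5.cmD d4).add (adE_isDer _)) fun i => by
    fin_cases i <;>
      simp [f54, cm_apply a1, adE_apply, l1, l5, d1.cm, d5.cm, neg2, swap2 (lt 1), add_comm]

theorem h54a : cm a5 (cm a5 a4) = 0 := der_ext (d5.cmD (d5.cmD d4)) isDer_zeroW fun i => by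
  fin_cases i <;> simp [cm_apply a5 (cm a5 a4), f54, l5, d5.cm, (d5.cmD d4).cm]
theorem h54b : cm a4 (cm a5 a4) = 0 := der_ext (d4.cmD (d5.cmD d4)) isDer_zeroW fun i => by
  fin_cases i <;> simp [cm_apply a4 (cm a5 a4), f54, l4, d4.cm, (d5.cmD d4).cm]
theorem h51a : cm a5 (cm a5 a1) = 0 := by
  rw [swapE a5 a1, c15, cm_add_right, h54a, d5.ad, l5.2.1, adE_zero, add_zero]
theorem h51b : cm a1 (cm a5 a1) = 0 := by
  have : cm a1 (cm a5 a4) = adE (cm (lt 0) (lt 2)) :=
    der_ext (d1.cmD (d5.cmD d4)) (adE_isDer _) fun i => by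
      fin_cases i <;> simp [cm_apply a1 (cm a5 a4), f54, l1, d1.cm, (d5.cmD d4).cm, adE_apply]
      · exact (cm_swap _ _).symm
      · rw [cm_add_right, cm_leibniz (lt 0) (lt 2) (lt 1)]
        linear_combination (norm := abel) add2 (cm (lt 2) (cm (lt 0) (lt 1)))
      · exact swap2 _ _
  rw [swapE a5 a1, c15, cm_add_right, this, d1.ad, l1.2.1, ← adE_add, add2, adE_zero]

theorem six : cm a3 a2 + cm a2 a1 + cm a1 a5 + cm a5 a4 + cm a4 a3 = 0 := by
  rw [c32, swapE a2 a1, c12, c15, c43]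
  linear_combination (norm := noncomm_ring) twoE * (adE (lt 1) + adE (lt 2) + cm a5 a4)

theorem ad_sq (u : A2) : adE u * adE u = adE (u * u) := LinearMap.ext fun v => by
  simp only [End.mul_apply, adE_apply, cm]
  linear_combination (norm := noncomm_ring) two * (v * u * u - u * v * u)

theorem dl_sq : dl * dl = 0 := by
  refine der_ext (fun a b => ?_) isDer_zeroW fun i => by fin_cases i <;> simp [l0]
  simp only [End.mul_apply, dd _ _, map_add]
  linear_combination (norm := abel) add2 (dl a * dl b)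

theorem a3_sq : a3 * a3 = adE (lt 0 * lt 0 + lt 1) := by
  have h := cd2
  rw [cm] at h
  rw [adE_add, ← ad_sq, show a3 = a2 + dl from rfl, show adE (lt 0) = a2 from rfl]
  linear_combination (norm := noncomm_ring) h + dl_sq + twoE * (a2 * dl)

/-- Killing the letter `c`. -/
def kp : A2 →ₐ[ZMod 2] A2 := evW ![lt 0, lt 1, 0]

def Fix : AddSubgroup A2 where
  carrier := {u | kp u = u}
  zero_mem' := map_zero _
  add_mem' := fun {a b} ha hb => by
    change kp (a + b) = a + b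
    rw [map_add, ha, hb]
  neg_mem' := fun {a} ha => by
    change kp (-a) = -a
    rw [map_neg, ha]

theorem kp_a3 (u : A2) : kp (a3 u) = a3 (kp u) :=
  der_inter kp.toRingHom d3 (E := a3.toAddMonoidHom) d3
    (fun r => by simp [Algebra.algebraMap_eq_smul_one, d3.one])
    (fun i => by fin_cases i <;> simp [a3, adE_apply, l0, kp, map_cm]) u

theorem main {n : ℕ} (hn : 3 ≤ n) {p : W ℤ (Fin 2)} (hp : p ∈ L2 n) (h : UP p) {q : W ℤ (Fin 3)}
    (hq : q ∈ Sp lt w3 n) (hz : Zq q) (e : ∀ (R : Type) [Ring R] (x y : R), (2 : R) = 0 →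
      cm y (cm x y) = 0 → ev2 x y p = e3 x y q) :
    evZ (![lt 0 * lt 0 + lt 1, lt 2, cm (lt 0) (lt 2)] : Fin 3 → A2) q =
      evZ ![lt 0 * lt 0, lt 2, cm (lt 0) (lt 2)] q := by
  have sw : ∀ {D E : End (ZMod 2) A2}, cm D E = 0 → E * D = D * E := fun h =>
    (sub_eq_zero.1 h).symm
  have h5 := h.five (by omega) hp (a1 := a3) (a2 := a2) (a3 := a1) (a4 := a5) (a5 := a4)
    (sw c13) (sw c52) (sw c14).symm (sw c53).symm (sw c42).symm six
  have x34 : cm a3 a4 = adE (lt 2) := by rw [swapE, c43]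
  have x21 : cm a2 a1 = adE (lt 2) := by rw [swapE, c12]
  obtain ⟨ω, hω, h32⟩ := inner_val d3 d2 Fix
    (fun u hu v hv => by
      change kp _ = _
      rw [map_cm, hu, hv])
    (fun u hu => by
      change kp _ = _
      rw [kp_a3, hu])
    (fun u hu => by
      change kp (cm _ _) = cm _ _
      rw [map_cm, hu]; simp [kp])
    (c := lt 1) (by change kp _ = _; simp [kp]) c32 (by omega : 2 ≤ n) hp
  rw [ev2_heis h51a h51b hn hp, ev2_heis h54a h54b hn hp, h32,
    e _ a3 a4 twoE (by rw [x34, d4.ad, l4.2.2, adE_zero]),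
    e _ a2 a1 twoE (by rw [x21, d1.ad, l1.2.2, adE_zero]), e3, e3, x34, x21, a3_sq, d3.ad, d2.ad,
    show a2 * a2 = adE (lt 0 * lt 0) from ad_sq _, add_zero, add_zero,
    show a3 (lt 2) = cm (lt 0) (lt 2) by simp [a3, adE_apply, l0],
    show a2 (lt 2) = cm (lt 0) (lt 2) from rfl] at h5
  have e1 : ∀ a b c : A2, (![adE a, adE b, adE c] : Fin 3 → End (ZMod 2) A2) =
      fun s => adE (![a, b, c] s) := fun a b c => by funext s; fin_cases s <;> rfl
  rw [e1, e1, evZ_ad hq, evZ_ad hq] at h5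
  have kq : ∀ z : A2, kp (evZ ![z, lt 2, cm (lt 0) (lt 2)] q) = 0 := fun z => by
    have := map_evZ kp.toRingHom ![z, lt 2, cm (lt 0) (lt 2)] q
    refine this.trans (Eq.trans ?_ (hz A2 (kp z)))
    congr 2
    funext s; fin_cases s <;> simp [kp, map_cm]
  set u := evZ (![lt 0 * lt 0 + lt 1, lt 2, cm (lt 0) (lt 2)] : Fin 3 → A2) q with hu
  set v := evZ (![lt 0 * lt 0, lt 2, cm (lt 0) (lt 2)] : Fin 3 → A2) q with hv
  have h0 : adE (u + -(v + ω)) = 0 := by rw [adE_add, adE_neg, adE_add, h5, add_neg_cancel]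
  have h1 := central_fix (i := 0) (j := 1) (by decide) (LinearMap.congr_fun h0 (lt 0))
    (LinearMap.congr_fun h0 (lt 1)) kp
  have h2 : kp ω = ω := hω
  rw [map_add, map_neg, map_add, h2, hu, hv, kq, kq, ← hu, ← hv] at h1
  linear_combination (norm := abel) -h1

end Rep2

/-- Modulo `2` and the square of the second letter, a solution of the pentagon is a Lie
polynomial in the elements `ad(c)^i d`, `c = [x, y]`, `d = [x, c]`. -/
theorem hoff {n : ℕ} (hn : 3 ≤ n) {p : W ℤ (Fin 2)} (hp : p ∈ L2 n) (h : UP p) :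
    ∃ r ∈ Lm n, ∀ (R : Type) [Ring R] (x y : R), (2 : R) = 0 → cm y (cm x y) = 0 →
      ev2 x y p = evZ (sgen (cm x y) (cm x (cm x y))) r := by
  obtain ⟨q, hq, hz, e⟩ := tilde (by omega) hp
  obtain ⟨r, hr, e'⟩ := exists_mot hn hq
  refine ⟨r, hr, fun R _ x y h2 hy => ?_⟩
  let _ : Algebra (ZMod 2) R := ZMod.algebra' R (ringChar R) (ringChar.dvd (by exact_mod_cast h2))
  let μ : A2 →ₐ[ZMod 2] R := evW ![x, x * x, cm x y]
  have h1 := congrArg μ.toRingHom (Rep2.main hn hp h hq hz e)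
  rw [map_evZ, map_evZ] at h1
  rw [e R x y h2 hy, ← e', e3]
  refine Eq.trans ?_ (h1.symm.trans ?_)
  · congr 2
    funext s; fin_cases s <;> simp [μ, map_cm]
  · congr 2
    funext s; fin_cases s <;> simp [μ, map_cm]
    linear_combination (norm := noncomm_ring) h2 * (x * x)

end

end Pool.Agent.Lib.MP_446a91_nt
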