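import Pool.Agent.Lib.MP_446a91_nt.DD.Lie

/-! Lie polynomials, pentagon and Ihara action over a coefficient ring `K` (MP_446a91_nt). -/

namespace Pool.Agent.Lib.MP_446a91_nt

open Module

noncomputable section

/-- The relations of `t₁₂, t₂₃, t₃₄, t₄₅, t₅₁` in the sphere braid algebra on five strands. -/
structure Rel5 {R : Type} [Ring R] (a1 a2 a3 a4 a5 : R) : Prop where
  h13 : a1 * a3 = a3 * a1
  h24 : a2 * a4 = a4 * a2
  h35 : a3 * a5 = a5 * a3
  h41 : a4 * a1 = a1 * a4
  h52 : a5 * a2 = a2 * a5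
  hs : cm a1 a2 + cm a2 a3 + cm a3 a4 + cm a4 a5 + cm a5 a1 = 0

variable {K : Type} [CommRing K]

/-- Evaluation of a polynomial in two letters in a `K`-algebra. -/
def evK {R : Type} [Ring R] [Algebra K R] (u v : R) : W K (Fin 2) →ₐ[K] R := evW ![u, v]

@[simp] theorem evK_zero {R : Type} [Ring R] [Algebra K R] (u v : R) :
    evK u v (lt 0 : W K (Fin 2)) = u := by simp [evK]

@[simp] theorem evK_one {R : Type} [Ring R] [Algebra K R] (u v : R) :
    evK u v (lt 1 : W K (Fin 2)) = v := by simp [evK]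

theorem map_evK {R R' : Type} [Ring R] [Algebra K R] [Ring R'] [Algebra K R'] (f : R →ₐ[K] R')
    (u v : R) (p : W K (Fin 2)) : f (evK u v p) = evK (f u) (f v) p :=
  algHom_eq (φ := f.comp (evK u v)) (fun i => by fin_cases i <;> simp) p

theorem evK_id (p : W K (Fin 2)) : evK (lt 0 : W K (Fin 2)) (lt 1) p = p :=
  algHom_eq (φ' := AlgHom.id K _) (fun i => by fin_cases i <;> simp) p

theorem evK_evZ {R : Type} [Ring R] [Algebra K R] (u v : R) (p : W ℤ (Fin 2)) :
    evK u v (evZ (lt : Fin 2 → W K (Fin 2)) p) = ev2 u v p := evW_evZ _ p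

variable (K) in
/-- Lie polynomials of degree `n` in two letters over `K`. -/
def LK (n : ℕ) : Submodule K (W K (Fin 2)) :=
  Submodule.span K (Sp (lt : Fin 2 → W K (Fin 2)) (fun _ => 1) n : Set (W K (Fin 2)))

theorem LK_induction {n : ℕ} {P : W K (Fin 2) → Prop} {p : W K (Fin 2)} (hp : p ∈ LK K n)
    (hb : ∀ q ∈ L2 n, P (evZ lt q)) (ha : ∀ u v, P u → P v → P (u + v))
    (hs : ∀ (c : K) u, P u → P (c • u)) : P p := by
  induction hp using Submodule.span_induction with
  | mem u hu =>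
    have e : (lt : Fin 2 → W K (Fin 2)) = fun s => evZ (lt : Fin 2 → W K (Fin 2)) (lt s) := by
      funext s; simp
    rw [e] at hu
    obtain ⟨q, hq, rfl⟩ := Sp_lift _ hu
    exact hb q hq
  | zero => simpa using hb 0 (zero_mem _)
  | add u v _ _ h1 h2 => exact ha u v h1 h2
  | smul c u _ h => exact hs c u h

theorem evZ_mem_LK {n : ℕ} {q : W ℤ (Fin 2)} (hq : q ∈ L2 n) :
    evZ (lt : Fin 2 → W K (Fin 2)) q ∈ LK K n :=
  Submodule.subset_span (by simpa using Sp_map (evZ (lt : Fin 2 → W K (Fin 2))) hq)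

/-- The additive pentagon in every `K`-algebra. -/
def UPK (p : W K (Fin 2)) : Prop :=
  ∀ (R : Type) [Ring R] [Algebra K R] (a1 a2 a3 a4 a5 : R), Rel5 a1 a2 a3 a4 a5 →
    evK a1 a5 p + evK a4 a3 p = evK a2 a3 p + evK a4 a5 p + evK a1 a2 p

/-- The additive pentagon in cyclic form. -/
def UPC (p : W K (Fin 2)) : Prop :=
  ∀ (R : Type) [Ring R] [Algebra K R] (a1 a2 a3 a4 a5 : R), Rel5 a1 a2 a3 a4 a5 →
    evK a1 a2 p + evK a4 a5 p + evK a2 a3 p + evK a5 a1 p + evK a3 a4 p = 0

/-- The derivation `x ↦ 0`, `y ↦ [y, p]`. -/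
def dK (p : W K (Fin 2)) : End K (W K (Fin 2)) := der ![0, cm (lt 1) p]

/-- The infinitesimal Ihara action `F ↦ D_p F + p F`. -/
def sK (p : W K (Fin 2)) : End K (W K (Fin 2)) := dK p + LM K p

/-- The Ihara bracket `[p, q] + D_p q - D_q p`. -/
def ihK (p q : W K (Fin 2)) : W K (Fin 2) := sK p q - sK q p

/-- The coefficient of `x ^ (n - 1) y`. -/
def dep (n : ℕ) : W K (Fin 2) →ₗ[K] K := cf (List.replicate (n - 1) 0 ++ [1])

section shift
variable {R : Type} [Ring R] [Algebra K R] {n : ℕ} {p : W K (Fin 2)}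

theorem evK_comm {u v z : R} (hu : z * u = u * z) (hv : z * v = v * z) (p : W K (Fin 2)) :
    z * evK u v p = evK u v p * z := by
  induction p using W_ind with
  | one => simp
  | mul i p ih =>
    have h : z * evK u v (lt i : W K (Fin 2)) = evK u v (lt i : W K (Fin 2)) * z := by
      fin_cases i
      · simpa using hu
      · simpa using hv
    rw [map_mul, ← mul_assoc, h, mul_assoc, ih, mul_assoc]
  | add p q h1 h2 => rw [map_add, mul_add, add_mul, h1, h2]
  | smul r p ih => rw [map_smul, mul_smul_comm, smul_mul_assoc, ih]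

theorem evK_shift {u v z z' : R} (hu : z * u = u * z) (hv : z * v = v * z)
    (hu' : z' * u = u * z') (hv' : z' * v = v * z') (hz : z * z' = z' * z) (hn : 2 ≤ n)
    (hp : p ∈ LK K n) : evK (u + z) (v + z') p = evK u v p := by
  refine LK_induction (P := fun p => evK (u + z) (v + z') p = evK u v p) hp (fun q hq => ?_)
    (fun a b h1 h2 => by simp [h1, h2]) (fun c a h => by simp [h])
  rw [evK_evZ, evK_evZ, ev2_shift hu hv hu' hv' hz hn hq]

theorem evK_of_comm {u v : R} (h : u * v = v * u) (hn : 2 ≤ n) (hp : p ∈ LK K n) :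
    evK u v p = 0 := by
  have h1 := evK_shift (u := (0 : R)) (v := 0) (z := u) (z' := v) (by simp) (by simp) (by simp)
    (by simp) h hn hp
  have h2 := evK_shift (u := (0 : R)) (v := 0) (z := 0) (z' := 0) (by simp) (by simp) (by simp)
    (by simp) rfl hn hp
  rw [zero_add, zero_add] at h1
  rw [h1]
  clear h1 h2
  refine LK_induction (P := fun p => evK (0 : R) 0 p = 0) hp (fun q hq => ?_)
    (fun a b h1 h2 => by simp [h1, h2]) (fun c a h => by simp [h])
  rw [evK_evZ]
  refine Sp_induction (P := fun q => ev2 (0 : R) 0 q = 0) hq (fun q hq => ?_) (by simp)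
    (fun a b h1 h2 => by simp [h1, h2]) (fun a h1 => by simp [h1])
  clear hn hp
  rename_i hq'
  clear hq'
  induction hq with
  | of i => fin_cases i <;> simp
  | lie _ _ h1 h2 => rw [map_cm, h1, h2]; simp [cm]

/-- Homogeneity. -/
theorem evK_smul (c : K) (u v : R) (hp : p ∈ LK K n) :
    evK (c • u) (c • v) p = c ^ n • evK u v p := by
  refine LK_induction (P := fun p => evK (c • u) (c • v) p = c ^ n • evK u v p) hp
    (fun q hq => ?_) (fun a b h1 h2 => by simp [h1, h2])
    (fun c' a h => by simp only [map_smul, h, smul_comm c'])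
  rw [evK_evZ, evK_evZ]
  refine Sp_induction (P := fun q => ev2 (c • u) (c • v) q = c ^ n • ev2 u v q) hq
    (fun q hq => ?_) (by simp) (fun a b h1 h2 => by simp [h1, h2]) (fun a h1 => by simp [h1])
  clear hp
  rename_i hq'
  clear hq'
  induction hq with
  | of i => fin_cases i <;> simp
  | lie _ _ h1 h2 =>
    rw [map_cm, map_cm, h1, h2]
    simp only [cm, smul_mul_smul_comm, smul_sub, pow_add, mul_comm]

end shift

end

end Pool.Agent.Lib.MP_446a91_nt
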