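import Pool.Agent.Lib.MP_446a91_nt.DD.KzT

/-! The flat connection on the pentagon and the five horizontal transports. -/

set_option autoImplicit false

namespace Pool.Agent.Lib.MP_446a91_nt.Kz

open Set Filter Topology

noncomputable section

variable {B : Type} [NormedRing B] [NormedAlgebra ℝ B] [CompleteSpace B]

/-- The relations of the five dihedral generators. -/
structure Rel {R : Type} [Ring R] (a1 a2 a3 a4 a5 : R) : Prop where
  c13 : Commute a1 a3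
  c24 : Commute a2 a4
  c35 : Commute a3 a5
  c41 : Commute a4 a1
  c52 : Commute a5 a2
  six : a1 * a2 + a2 * a3 + a3 * a4 + a4 * a5 + a5 * a1 =
    a2 * a1 + a3 * a2 + a4 * a3 + a5 * a4 + a1 * a5

theorem Rel.shift {R : Type} [Ring R] {a1 a2 a3 a4 a5 : R} (h : Rel a1 a2 a3 a4 a5) :
    Rel a4 a5 a1 a2 a3 :=
  ⟨h.c41, h.c52, h.c13, h.c24, h.c35, by linear_combination (norm := abel) h.six⟩

theorem rel_two {R : Type} [Ring R] (a b : R) : Rel a b 0 0 b :=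
  ⟨by simp, by simp, by simp, by simp, Commute.refl b, by simp [add_comm]⟩

/-- Length of the horizontal segment. -/
def Ln (r : ℝ) : ℝ := (1 + r)⁻¹ - r

/-- The point on the horizontal segment. -/
def xc (r s : ℝ) : ℝ := r + s * Ln r

theorem xc_mem {r : ℝ} (hr : r ∈ Ioo (0 : ℝ) 1) (s : UI) : xc r s ∈ Ioo (0 : ℝ) 1 := by
  have h1 : (1 + r)⁻¹ ∈ Ioo (0 : ℝ) 1 :=
    ⟨inv_pos.2 (by linarith [hr.1]), inv_lt_one_of_one_lt₀ (by linarith [hr.1])⟩
  have h := (convex_Ioo (0 : ℝ) 1).add_smul_sub_mem hr h1 s.2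
  simpa [xc, Ln] using h

theorem xc_ne {r : ℝ} (hr : r ∈ Ioo (0 : ℝ) 1) (s : UI) :
    xc r s ≠ 0 ∧ 1 - xc r s ≠ 0 ∧ 1 - xc r s * r ≠ 0 := by
  obtain ⟨h1, h2⟩ := xc_mem hr s
  exact ⟨h1.ne', by linarith, by nlinarith [hr.1, hr.2]⟩

theorem Ln_deriv {r : ℝ} (hr : 0 < r) : HasDerivAt Ln (-((1 + r) ^ 2)⁻¹ - 1) r := by
  refine ((((hasDerivAt_id' r).const_add 1).fun_inv (by linarith)).fun_sub
    (hasDerivAt_id' r)).congr_deriv ?_
  ring

/-- The `dx` component. -/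
def Pf (a b g : B) (x y : ℝ) : B := x⁻¹ • a - (1 - x)⁻¹ • b + (y * (1 - x * y)⁻¹) • g

omit [CompleteSpace B] in
theorem Pf_deriv (a b g : B) {x y : ℝ → ℝ} {x' y' t : ℝ} (hx : HasDerivAt x x' t)
    (hy : HasDerivAt y y' t) (h0 : x t ≠ 0) (h1 : 1 - x t ≠ 0) (h2 : 1 - x t * y t ≠ 0) :
    HasDerivAt (fun t => Pf a b g (x t) (y t))
      (x' • (-((x t ^ 2)⁻¹ • a) - ((1 - x t) ^ 2)⁻¹ • b + (y t ^ 2 * ((1 - x t * y t) ^ 2)⁻¹) • g) +
        y' • ((1 - x t * y t) ^ 2)⁻¹ • g) t := by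
  refine ((((hx.fun_inv h0).smul_const a).fun_sub
    (((hx.const_sub 1).fun_inv h1).smul_const b)).fun_add
    ((hy.fun_mul (((hx.fun_mul hy).const_sub 1).fun_inv h2)).smul_const g)).congr_deriv ?_
  match_scalars <;> (field_simp; try ring)

omit [CompleteSpace B] in
theorem Pf_commute {a1 a2 a3 a4 a5 : B} (h : Rel a1 a2 a3 a4 a5) {x y : ℝ} (hx : x ≠ 0) (hy : y ≠ 0)
    (h1 : 1 - x ≠ 0) (h2 : 1 - y ≠ 0) (h3 : 1 - x * y ≠ 0) :
    Commute (Pf a1 a2 (a2 + a3 - a5) x y) (Pf a4 a3 (a2 + a3 - a5) y x) := by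
  have e := eq_sub_of_add_eq' h.six.symm
  have h4 : 1 - y * x ≠ 0 := by rwa [mul_comm]
  unfold Commute SemiconjBy Pf
  simp only [mul_add, add_mul, mul_sub, sub_mul, smul_mul_assoc, mul_smul_comm, h.c13.eq.symm,
    h.c24.eq.symm, h.c35.eq.symm, h.c41.eq, h.c52.eq, e]
  match_scalars <;> field_simp <;> ring

/-- Multiplication of a scalar function with a vector. -/
def sm (z : B) : C(UI, ℝ) →L[ℝ] C(UI, B) :=
  (ContinuousLinearMap.toSpanSingleton ℝ z).compLeftContinuous ℝ UI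

/-- The segment as an element of the algebra of continuous functions. -/
def xY (r : ℝ) : C(UI, ℝ) := r • 1 + Ln r • ⟨Subtype.val, continuous_subtype_val⟩

theorem xY_apply (r : ℝ) (s : UI) : xY r s = xc r s := by simp [xY, xc, mul_comm]

theorem inverse_apply {f : C(UI, ℝ)} (h : IsUnit f) (s : UI) : Ring.inverse f s = (f s)⁻¹ :=
  eq_inv_of_mul_eq_one_right (congrArg (fun g : C(UI, ℝ) => g s) (Ring.mul_inverse_cancel f h))

theorem xY_unit {r : ℝ} (hr : r ∈ Ioo (0 : ℝ) 1) :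
    IsUnit (xY r) ∧ IsUnit (1 - xY r) ∧ IsUnit (1 - r • xY r) := by
  simp only [ContinuousMap.isUnit_iff_forall_ne_zero, ContinuousMap.sub_apply,
    ContinuousMap.one_apply, ContinuousMap.smul_apply, xY_apply, smul_eq_mul, mul_comm r]
  exact ⟨fun s => (xc_ne hr s).1, fun s => (xc_ne hr s).2.1, fun s => (xc_ne hr s).2.2⟩

/-- The coefficient of the equation along the segment at height `r`. -/
def Ac (a b g : B) (r : ℝ) : C(UI, B) :=
  Ln r • (sm a (Ring.inverse (xY r)) - sm b (Ring.inverse (1 - xY r)) +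
    r • sm g (Ring.inverse (1 - r • xY r)))

omit [CompleteSpace B] in
theorem Ac_apply (a b g : B) {r : ℝ} (hr : r ∈ Ioo (0 : ℝ) 1) (s : UI) :
    Ac a b g r s = Ln r • Pf a b g (xc r s) r := by
  obtain ⟨h1, h2, h3⟩ := xY_unit hr
  simp [Ac, Pf, sm, inverse_apply h1, inverse_apply h2, inverse_apply h3, xY_apply, smul_smul,
    mul_comm r]

theorem gen_diff' {X Y : Type} [NormedAddCommGroup X] [NormedSpace ℝ X] [NormedRing Y]
    [NormedAlgebra ℝ Y] [CompleteSpace Y] (k : Y →L[ℝ] X) {A : ℝ → Y} {r : ℝ}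
    (h : DifferentiableAt ℝ A r) (hu : IsUnit (A r)) :
    DifferentiableAt ℝ (fun ρ => k (Ring.inverse (A ρ))) r :=
  k.differentiableAt.comp r (h.inverse hu)

omit [CompleteSpace B] in
theorem Ac_diff (a b g : B) {r : ℝ} (hr : r ∈ Ioo (0 : ℝ) 1) : DifferentiableAt ℝ (Ac a b g) r := by
  obtain ⟨h1, h2, h3⟩ := xY_unit hr
  have hL := (Ln_deriv hr.1).differentiableAt
  have hx : DifferentiableAt ℝ xY r :=
    (differentiableAt_id.smul_const _).add (hL.smul_const _)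
  exact hL.smul (((gen_diff' (X := C(UI, B)) (Y := C(UI, ℝ)) (sm a) hx h1).sub
    (gen_diff' (X := C(UI, B)) (Y := C(UI, ℝ)) (sm b) (hx.const_sub 1) h2)).add
    (differentiableAt_id.smul (gen_diff' (X := C(UI, B)) (Y := C(UI, ℝ)) (sm g)
      ((differentiableAt_id.smul hx).const_sub 1) h3)))

/-- The transport along the segment at height `r`. -/
def Tr (a b g : B) (r : ℝ) : B := sol (Ac a b g r) 1

/-- The connection along the diagonal. -/
def Md (a1 a2 a3 a4 a5 : B) (r : ℝ) : B :=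
  r⁻¹ • (a1 + a4) - (1 + r)⁻¹ • (a2 + a3) - (2 * r * (1 - r ^ 2)⁻¹) • a5

theorem Tr_deriv {a1 a2 a3 a4 a5 : B} (h : Rel a1 a2 a3 a4 a5) {r : ℝ} (hr : r ∈ Ioo (0 : ℝ) 1) :
    HasDerivAt (Tr a1 a2 (a2 + a3 - a5)) (Md a4 a5 a1 a2 a3 r * Tr a1 a2 (a2 + a3 - a5) r -
      Tr a1 a2 (a2 + a3 - a5) r * Md a1 a2 a3 a4 a5 r) r := by
  set g := a2 + a3 - a5 with hg
  set L' := -((1 + r) ^ 2)⁻¹ - 1 with hL'
  have hL : HasDerivAt Ln L' r := Ln_deriv hr.1
  have r0 := hr.1.ne'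
  have r1 : 1 - r ≠ 0 := by linarith [hr.2]
  have r2 : 1 + r ≠ 0 := by linarith [hr.1]
  have r3 : 1 - r ^ 2 ≠ 0 := by nlinarith [hr.1, hr.2]
  have hxs : ∀ s, HasDerivAt (xc r) (Ln r) s := fun s => by
    exact (((hasDerivAt_id' s).mul_const (Ln r)).const_add r).congr_deriv (one_mul _)
  have key := rect (Ac_diff a1 a2 g hr)
    (Q := fun s => (1 + s * L') • Pf a1 a2 g (xc r s) r + Pf a4 a3 g r (xc r s))
    (P' := fun s => Ln r • ((1 + s * L') • (-((xc r s ^ 2)⁻¹ • a1) - ((1 - xc r s) ^ 2)⁻¹ • a2 +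
      (r ^ 2 * ((1 - xc r s * r) ^ 2)⁻¹) • g) + (1 : ℝ) • ((1 - xc r s * r) ^ 2)⁻¹ • g) +
      L' • Pf a1 a2 g (xc r s) r)
    (Q' := fun s => (1 + s * L') • (Ln r • (-((xc r s ^ 2)⁻¹ • a1) - ((1 - xc r s) ^ 2)⁻¹ • a2 +
      (r ^ 2 * ((1 - xc r s * r) ^ 2)⁻¹) • g) + (0 : ℝ) • ((1 - xc r s * r) ^ 2)⁻¹ • g) +
      (1 * L') • Pf a1 a2 g (xc r s) r + ((0 : ℝ) • (-((r ^ 2)⁻¹ • a4) - ((1 - r) ^ 2)⁻¹ • a3 +
      (xc r s ^ 2 * ((1 - r * xc r s) ^ 2)⁻¹) • g) + Ln r • ((1 - r * xc r s) ^ 2)⁻¹ • g))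
    (fun s => (hL.fun_smul (Pf_deriv a1 a2 g (x := fun ρ => xc ρ s)
      ((hasDerivAt_id' r).fun_add (hL.const_mul (s : ℝ))) (hasDerivAt_id' r) (xc_ne hr s).1
      (xc_ne hr s).2.1 (xc_ne hr s).2.2)).congr_of_eventuallyEq (by
        filter_upwards [Ioo_mem_nhds hr.1 hr.2] with ρ hρ using Ac_apply a1 a2 g hρ s))
    (fun s => ((((hasDerivAt_id' (s : ℝ)).mul_const L').const_add 1).fun_smul
      (Pf_deriv a1 a2 g (hxs s) (hasDerivAt_const _ r) (xc_ne hr s).1 (xc_ne hr s).2.1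
        (xc_ne hr s).2.2)).fun_add (Pf_deriv a4 a3 g (hasDerivAt_const _ r) (hxs s) r0 r1
          (by rw [mul_comm]; exact (xc_ne hr s).2.2)))
    (fun s => by
      rw [Ac_apply a1 a2 g hr s, (((Commute.refl _).smul_right _).add_right
        (Pf_commute h (xc_ne hr s).1 r0 (xc_ne hr s).2.1 r1 (xc_ne hr s).2.2)).smul_left _ |>.eq,
        mul_comm r (xc r s)]
      congr 1
      module)
  refine key.congr_deriv ?_
  have r4 : 1 - r * r ≠ 0 := by rwa [← pow_two]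
  have e1 : 1 - (1 + r)⁻¹ = r * (1 + r)⁻¹ := by field_simp; ring
  have e2 : 1 - (1 + r)⁻¹ * r = (1 + r)⁻¹ := by field_simp; ring
  have e3 : 1 - r * (1 + r)⁻¹ = (1 + r)⁻¹ := by field_simp; ring
  have e4 : 1 - r ^ 2 = (1 - r) * (1 + r) := by ring
  have e5 : 1 - r * r = (1 - r) * (1 + r) := by ring
  congr 2
  · simp only [xc, Ln, Pf, Md, hg, hL', one_mul, add_sub_cancel, e1, e2, e3, e4]
    match_scalars <;> field_simp <;> ring
  · simp only [xc, Ln, Pf, Md, hg, hL', zero_mul, add_zero, e4, e5]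
    match_scalars <;> field_simp <;> ring

theorem Tr_center (a b g : B) {c : ℝ} (hc : Ln c = 0) : Tr a b g c = 1 := by
  have h := sol_unique (Ac a b g c) (F := fun _ => 1)
    (fun s => by simpa [Ac, hc] using hasDerivAt_const (s : ℝ) (1 : B)) rfl ⟨1, by simp⟩
  exact h

theorem exists_center : ∃ c ∈ Ioo (0 : ℝ) 1, Ln c = 0 := by
  have h5 : √5 ^ 2 = 5 := Real.sq_sqrt (by norm_num)
  have h0 := Real.sqrt_nonneg 5
  have h1 : 1 < √5 := by nlinarith
  have h3 : √5 < 3 := by nlinarith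
  refine ⟨(√5 - 1) / 2, ⟨by linarith, by linarith⟩, ?_⟩
  rw [Ln, sub_eq_zero]
  exact inv_eq_of_mul_eq_one_right (by nlinarith)

/-- The product of the five transports is one. -/
theorem Tr_prod {a1 a2 a3 a4 a5 : B} (h : Rel a1 a2 a3 a4 a5) {r : ℝ} (hr : r ∈ Ioo (0 : ℝ) 1) :
    Tr a3 a4 (a4 + a5 - a2) r * Tr a5 a1 (a1 + a2 - a4) r * Tr a2 a3 (a3 + a4 - a1) r *
      Tr a4 a5 (a5 + a1 - a3) r * Tr a1 a2 (a2 + a3 - a5) r = 1 := by
  obtain ⟨c, hc, hc0⟩ := exists_center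
  set Pi : ℝ → B := fun r => Tr a3 a4 (a4 + a5 - a2) r * Tr a5 a1 (a1 + a2 - a4) r *
    Tr a2 a3 (a3 + a4 - a1) r * Tr a4 a5 (a5 + a1 - a3) r * Tr a1 a2 (a2 + a3 - a5) r with hPi
  set M := Md a1 a2 a3 a4 a5
  have hd : ∀ ρ ∈ Ioo (0 : ℝ) 1, HasDerivAt Pi (M ρ * (Pi ρ - 1) - (Pi ρ - 1) * M ρ) ρ := fun ρ hρ => by
    refine (((((Tr_deriv h.shift.shift.shift.shift hρ).fun_mul
      (Tr_deriv h.shift.shift.shift hρ)).fun_mul (Tr_deriv h.shift.shift hρ)).fun_mul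
      (Tr_deriv h.shift hρ)).fun_mul (Tr_deriv h hρ)).congr_deriv ?_
    simp only [hPi]
    noncomm_ring
  have hm : ∀ s : UI, c + s * (r - c) ∈ Ioo (0 : ℝ) 1 := fun s =>
    (convex_Ioo (0 : ℝ) 1).add_smul_sub_mem hc hr s.2
  have hcont : Continuous fun s : UI => M (c + s * (r - c)) := by
    unfold M Md
    refine ((Continuous.smul (Continuous.inv₀ (by fun_prop) fun s => (hm s).1.ne')
      continuous_const).sub (Continuous.smul (Continuous.inv₀ (by fun_prop)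
        fun s => by linarith [(hm s).1]) continuous_const)).sub (Continuous.smul
          (Continuous.mul (by fun_prop) (Continuous.inv₀ (by fun_prop)
            fun s => by nlinarith [(hm s).1, (hm s).2])) continuous_const)
  set Mc : C(UI, B) := ⟨_, hcont⟩
  have hz := eq_zero (W := fun s => Pi (c + s * (r - c)) - 1) (K := |r - c| * (2 * ‖Mc‖))
    (W' := fun s => (r - c) • (M (c + s * (r - c)) * (Pi (c + s * (r - c)) - 1) -
      (Pi (c + s * (r - c)) - 1) * M (c + s * (r - c))))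
    (fun s => by
      have h1 : HasDerivAt (fun s : ℝ => c + s * (r - c)) (r - c) s := by
        simpa using ((hasDerivAt_id' (s : ℝ)).mul_const (r - c)).const_add c
      exact ((hd _ (hm s)).scomp (s : ℝ) h1).sub_const 1)
    (fun s => by
      have h1 : ‖M (c + s * (r - c))‖ ≤ ‖Mc‖ := Mc.norm_coe_le_norm s
      rw [norm_smul, Real.norm_eq_abs, mul_assoc]
      refine mul_le_mul_of_nonneg_left ((norm_sub_le _ _).trans ?_) (abs_nonneg _)
      refine (add_le_add (norm_mul_le _ _) (norm_mul_le _ _)).trans ?_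
      nlinarith [norm_nonneg (Pi (c + s * (r - c)) - 1)])
    (by simp [hPi, Tr_center _ _ _ hc0]) ⟨1, by simp⟩
  simpa [sub_eq_zero] using hz

end

end Pool.Agent.Lib.MP_446a91_nt.Kz
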