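import Mathlib

/-! Linear differential equations on the unit interval in a Banach algebra (MP_446a91_nt). -/

set_option autoImplicit false

namespace Pool.Agent.Lib.MP_446a91_nt.Kz

open Set Filter Topology

noncomputable section

/-- The unit interval. -/
abbrev UI : Type := Icc (0 : ℝ) 1

variable {B : Type} [NormedRing B] [NormedAlgebra ℝ B] [CompleteSpace B]

/-- Extension of a function on the unit interval to the line. -/
def xt (f : C(UI, B)) (t : ℝ) : B := f (projIcc 0 1 zero_le_one t)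

omit [NormedAlgebra ℝ B] [CompleteSpace B] in
theorem xt_cont (f : C(UI, B)) : Continuous (xt f) := f.continuous.comp continuous_projIcc

omit [NormedAlgebra ℝ B] [CompleteSpace B] in
theorem xt_coe (f : C(UI, B)) (s : UI) : xt f s = f s := by simp [xt]

omit [NormedAlgebra ℝ B] [CompleteSpace B] in
theorem xt_norm (f : C(UI, B)) (t : ℝ) : ‖xt f t‖ ≤ ‖f‖ := f.norm_coe_le_norm _

/-- The primitive. -/
def prim (f : C(UI, B)) (s : ℝ) : B := ∫ t in (0 : ℝ)..s, xt f t

theorem prim_deriv (f : C(UI, B)) (s : ℝ) : HasDerivAt (prim f) (xt f s) s :=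
  ((xt_cont f).integral_hasStrictDerivAt 0 s).hasDerivAt

theorem prim_cont (f : C(UI, B)) : Continuous (prim f) :=
  continuous_iff_continuousAt.2 fun s => (prim_deriv f s).continuousAt

/-- The Volterra operator. -/
def vol : C(UI, B) →L[ℝ] C(UI, B) :=
  LinearMap.mkContinuous
    { toFun := fun f => ⟨fun s => prim f s, (prim_cont f).comp continuous_subtype_val⟩
      map_add' := fun f g => by
        ext s
        exact intervalIntegral.integral_add ((xt_cont f).intervalIntegrable _ _)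
          ((xt_cont g).intervalIntegrable _ _)
      map_smul' := fun c f => by
        ext s
        exact intervalIntegral.integral_smul c _ } 1 fun f => by
      rw [one_mul, ContinuousMap.norm_le _ (norm_nonneg _)]
      intro s
      refine (intervalIntegral.norm_integral_le_of_norm_le_const (C := ‖f‖)
        fun t _ => xt_norm f t).trans ?_
      rw [sub_zero, abs_of_nonneg s.2.1]
      exact mul_le_of_le_one_right (norm_nonneg _) s.2.2

theorem vol_apply (f : C(UI, B)) (s : UI) : vol f s = prim f s := rfl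

/-- The operator `f ↦ ∫ A f`. -/
def kop : C(UI, B) →L[ℝ] C(UI, B) →L[ℝ] C(UI, B) :=
  (ContinuousLinearMap.compL ℝ C(UI, B) C(UI, B) C(UI, B) vol).comp
    (ContinuousLinearMap.mul ℝ C(UI, B))

theorem kop_apply (A f : C(UI, B)) : kop A f = vol (A * f) := rfl

theorem kop_pow (A f : C(UI, B)) (n : ℕ) (s : UI) :
    ‖(kop A ^ n) f s‖ ≤ ‖f‖ * (‖A‖ * s) ^ n / n.factorial := by
  induction n generalizing s with
  | zero => simpa using f.norm_coe_le_norm s
  | succ n ih =>
    rw [pow_succ', mul_apply_eq_comp, kop_apply, vol_apply]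
    have h := image_norm_le_of_norm_deriv_right_le_deriv_boundary (a := 0) (b := 1)
      (f := prim (A * (kop A ^ n) f)) (prim_cont _).continuousOn
      (fun x _ => (prim_deriv _ x).hasDerivWithinAt)
      (B := fun x => ‖f‖ * (‖A‖ * x) ^ (n + 1) / (n + 1).factorial)
      (B' := fun x => ‖A‖ * (‖f‖ * (‖A‖ * x) ^ n / n.factorial)) (by simp [prim])
      (fun x => by
        refine (((((hasDerivAt_id x).const_mul ‖A‖).fun_pow (n + 1)).const_mul ‖f‖).div_const
          ((n + 1).factorial : ℝ)).congr_deriv ?_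
        rw [Nat.factorial_succ]
        push_cast
        simp only [id]
        field_simp)
      (fun x hx => by
        have := xt_coe (A * (kop A ^ n) f) ⟨x, Ico_subset_Icc_self hx⟩
        rw [show xt _ x = _ from this, ContinuousMap.mul_apply]
        exact (norm_mul_le _ _).trans (mul_le_mul (A.norm_coe_le_norm _) (ih _) (norm_nonneg _)
          (norm_nonneg _)))
    exact h s.2

theorem gen_unit {R : Type} [Ring R] {x : R} {n : ℕ} (h : IsUnit (1 - x ^ n)) : IsUnit (1 - x) := by
  rw [← mul_neg_geom_sum] at h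
  exact (((Commute.one_left _).sub_left
    (Commute.sum_right _ _ _ fun i _ => Commute.self_pow _ i)).isUnit_mul_iff.1 h).1

theorem gen_diff {X : Type} [NormedAddCommGroup X] [NormedSpace ℝ X] [CompleteSpace X]
    (k : X →L[ℝ] X →L[ℝ] X) {A : ℝ → X} {r : ℝ} (h : DifferentiableAt ℝ A r)
    (hu : IsUnit (1 - k (A r))) (v : X) :
    DifferentiableAt ℝ (fun ρ => Ring.inverse (1 - k (A ρ)) v) r :=
  (((k.differentiableAt.comp r h).const_sub 1).inverse hu).clm_apply (differentiableAt_const _)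

theorem kop_unit (A : C(UI, B)) : IsUnit (1 - kop A) := by
  obtain ⟨n, hn⟩ := ((FloorSemiring.tendsto_pow_div_factorial_atTop ‖A‖).eventually
    (gt_mem_nhds one_pos)).exists
  have h1 : ‖kop A ^ n‖ < 1 := by
    refine lt_of_le_of_lt (ContinuousLinearMap.opNorm_le_bound _ (by positivity) fun f => ?_) hn
    rw [ContinuousMap.norm_le _ (by positivity)]
    intro s
    refine (kop_pow A f n s).trans ?_
    rw [mul_div_assoc, mul_comm]
    gcongr
    · exact mul_nonneg (norm_nonneg _) s.2.1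
    · exact mul_le_of_le_one_right (norm_nonneg _) s.2.2
  have h2 : IsUnit (1 - kop A ^ n) := 
    isUnit_one_sub_of_norm_lt_one (R := C(UI, B) →L[ℝ] C(UI, B)) h1
  exact gen_unit (R := C(UI, B) →L[ℝ] C(UI, B)) h2

/-- The solution of `F = 1 + ∫ A F`. -/
def tr (A : C(UI, B)) : C(UI, B) := Ring.inverse (1 - kop A) 1

theorem tr_eq (A : C(UI, B)) : tr A = 1 + kop A (tr A) := by
  have h := congrArg (fun T : C(UI, B) →L[ℝ] C(UI, B) => T 1) (Ring.mul_inverse_cancel _ (kop_unit A))
  simp only [mul_apply_eq_comp, sub_apply, one_apply_eq_self] at h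
  exact eq_add_of_sub_eq h

/-- The solution as a function on the line. -/
def sol (A : C(UI, B)) (s : ℝ) : B := 1 + prim (A * tr A) s

theorem sol_coe (A : C(UI, B)) (s : UI) : sol A s = tr A s := by
  conv_rhs => rw [tr_eq]
  rfl

theorem sol_zero (A : C(UI, B)) : sol A 0 = 1 := by simp [sol, prim]

theorem sol_deriv (A : C(UI, B)) (s : UI) : HasDerivAt (sol A) (A s * sol A s) s := by
  have h := (prim_deriv (A * tr A) s).const_add 1
  rwa [xt_coe, ContinuousMap.mul_apply, ← sol_coe] at h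

omit [CompleteSpace B] in
/-- Uniqueness. -/
theorem eq_zero {W W' : ℝ → B} {K : ℝ} (h : ∀ s : UI, HasDerivAt W (W' s) s)
    (hb : ∀ s : UI, ‖W' s‖ ≤ K * ‖W s‖) (h0 : W 0 = 0) (s : UI) : W s = 0 :=
  eq_zero_of_abs_deriv_le_mul_abs_self_of_eq_zero_right (a := 0) (b := 1)
    (fun x hx => (h ⟨x, hx⟩).continuousAt.continuousWithinAt)
    (fun x hx => (h ⟨x, Ico_subset_Icc_self hx⟩).hasDerivWithinAt) h0
    (fun x hx => hb ⟨x, Ico_subset_Icc_self hx⟩) s s.2

omit [CompleteSpace B] in
theorem eq_zero' (A : C(UI, B)) {W : ℝ → B} (h : ∀ s : UI, HasDerivAt W (A s * W s) s)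
    (h0 : W 0 = 0) (s : UI) : W s = 0 :=
  eq_zero (W' := fun t => xt A t * W t) (K := ‖A‖) (fun s => by rw [xt_coe]; exact h s)
    (fun s => (norm_mul_le _ _).trans (mul_le_mul_of_nonneg_right (xt_norm A s) (norm_nonneg _)))
    h0 s

theorem sol_unique (A : C(UI, B)) {F : ℝ → B} (h : ∀ s : UI, HasDerivAt F (A s * F s) s)
    (h0 : F 0 = 1) (s : UI) : sol A s = F s :=
  sub_eq_zero.1 (eq_zero' A (W := fun t => sol A t - F t)
    (fun s => by rw [mul_sub]; exact (sol_deriv A s).sub (h s)) (by simp [sol_zero, h0]) s)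

theorem sol_commute (A : C(UI, B)) {z : B} (h : ∀ s, Commute z (A s)) (s : UI) :
    Commute z (sol A s) :=
  sub_eq_zero.1 (eq_zero' A (W := fun t => z * sol A t - sol A t * z) (fun s => by
    refine (((sol_deriv A s).const_mul z).fun_sub ((sol_deriv A s).mul_const z)).congr_deriv ?_
    rw [mul_sub, ← mul_assoc, ← mul_assoc, ← mul_assoc, (h s).eq]) (by simp [sol_zero]) s)

theorem sol_add (A A' : C(UI, B)) (h : ∀ s t, Commute (A' s) (A t)) (s : UI) :
    sol (A + A') s = sol A s * sol A' s :=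
  sol_unique _ (F := fun t => sol A t * sol A' t) (fun s => by
    refine ((sol_deriv A s).fun_mul (sol_deriv A' s)).congr_deriv ?_
    rw [ContinuousMap.add_apply, add_mul, ← mul_assoc (A' s), (sol_commute A (h s) s).eq]
    simp only [mul_assoc]) (by simp [sol_zero]) s

theorem sol_map {B' : Type} [NormedRing B'] [NormedAlgebra ℝ B'] [CompleteSpace B']
    (φ : B →L[ℝ] B') (h1 : φ 1 = 1) (hm : ∀ x y, φ (x * y) = φ x * φ y) (A : C(UI, B))
    (A' : C(UI, B')) (h : ∀ s, A' s = φ (A s)) (s : UI) : sol A' s = φ (sol A s) :=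
  sol_unique _ (F := fun t => φ (sol A t)) (fun s => by
    rw [h, ← hm]; exact φ.hasFDerivAt.comp_hasDerivAt _ (sol_deriv A s)) (by simp [sol_zero, h1]) s

omit [CompleteSpace B] in
/-- Gronwall with a variable coefficient. -/
theorem gron {W W' : ℝ → B} {β β' : ℝ → ℝ} {κ : ℝ} (hκ : 0 < κ)
    (h : ∀ s : UI, HasDerivAt W (W' s) s) (hβ : ∀ s : UI, HasDerivAt β (β' s) s)
    (hb : ∀ s : UI, ‖W' s‖ ≤ β' s * ‖W s‖ + κ * Real.exp (β s)) (h0 : ‖W 0‖ ≤ κ * Real.exp (β 0))
    (s : UI) : ‖W s‖ ≤ 3 * κ * Real.exp (β s) := by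
  have hB : ∀ x : UI, HasDerivAt (fun x => κ * (1 + 2 * x) * Real.exp (β x))
      (κ * 2 * Real.exp (β x) + κ * (1 + 2 * x) * (Real.exp (β x) * β' x)) x := fun x => by
    refine ((((((hasDerivAt_id' (x : ℝ)).const_mul 2).const_add 1).const_mul κ).fun_mul
      (hβ x).exp)).congr_deriv ?_
    simp
  have h1 := image_norm_le_of_norm_deriv_right_lt_deriv_boundary' (a := 0) (b := 1)
    (fun x hx => (h ⟨x, hx⟩).continuousAt.continuousWithinAt)
    (fun x hx => (h ⟨x, Ico_subset_Icc_self hx⟩).hasDerivWithinAt)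
    (B := fun x => κ * (1 + 2 * x) * Real.exp (β x))
    (B' := fun x => κ * 2 * Real.exp (β x) + κ * (1 + 2 * x) * (Real.exp (β x) * β' x))
    (by simpa using h0)
    (fun x hx => (hB ⟨x, hx⟩).continuousAt.continuousWithinAt)
    (fun x hx => (hB ⟨x, Ico_subset_Icc_self hx⟩).hasDerivWithinAt)
    (fun x hx he => by
      have h2 := hb ⟨x, Ico_subset_Icc_self hx⟩
      have h3 := mul_pos hκ (Real.exp_pos (β x))
      simp only at h2 he ⊢
      rw [he] at h2
      nlinarith) s.2
  refine h1.trans ?_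
  have h3 := mul_pos hκ (Real.exp_pos (β s))
  nlinarith [s.2.2]

theorem tr_diff {A : ℝ → C(UI, B)} {r : ℝ} (h : DifferentiableAt ℝ A r) :
    DifferentiableAt ℝ (fun ρ => tr (A ρ)) r :=
  gen_diff (X := C(UI, B)) kop h (kop_unit _) 1

/-- The derivative of the solution with respect to a parameter, for a flat connection. -/
theorem rect {A : ℝ → C(UI, B)} {r : ℝ} (h : DifferentiableAt ℝ A r) {P' Q Q' : ℝ → B}
    (hP : ∀ s : UI, HasDerivAt (fun ρ => A ρ s) (P' s) r) (hQ : ∀ s : UI, HasDerivAt Q (Q' s) s)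
    (flat : ∀ s : UI, P' s + A r s * Q s = Q' s + Q s * A r s) :
    HasDerivAt (fun ρ => sol (A ρ) 1) (Q 1 * sol (A r) 1 - sol (A r) 1 * Q 0) r := by
  have hA := h.hasDerivAt
  have hD := (tr_diff h).hasDerivAt
  set A' := deriv A r
  set D := deriv (fun ρ => tr (A ρ)) r
  have ev : ∀ {G : ℝ → C(UI, B)} {G' : C(UI, B)} (s : UI), HasDerivAt G G' r →
      HasDerivAt (fun ρ => G ρ s) (G' s) r := fun s hG =>
    (ContinuousMap.evalCLM (M := B) ℝ s).hasFDerivAt.comp_hasDerivAt r hG
  have e1 : ∀ s : UI, A' s = P' s := fun s => (ev s hA).unique (hP s)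
  have e2 : D = vol (A' * tr (A r) + A r * D) := by
    have h1 := ((vol (B := B)).hasFDerivAt.comp_hasDerivAt r (hA.mul hD)).const_add 1
    refine hD.unique (h1.congr_of_eventuallyEq (Eventually.of_forall fun ρ => tr_eq (A ρ)))
  have e3 : ∀ s : UI, D s = prim (A' * tr (A r) + A r * D) s := fun s => by
    conv_lhs => rw [e2]
    rfl
  have e4 := eq_zero' (A r) (W := fun t => prim (A' * tr (A r) + A r * D) t -
      (Q t * sol (A r) t - sol (A r) t * Q 0)) (fun s => by
    refine ((prim_deriv _ s).fun_sub (((hQ s).fun_mul (sol_deriv (A r) s)).fun_sub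
      ((sol_deriv (A r) s).mul_const (Q 0)))).congr_deriv ?_
    rw [xt_coe, ← e3, ContinuousMap.add_apply, ContinuousMap.mul_apply, ContinuousMap.mul_apply,
      e1, ← sol_coe, eq_sub_of_add_eq (flat s)]
    noncomm_ring) (by simp [prim, sol_zero]) ⟨1, by simp⟩
  have e5 := ev ⟨1, by simp⟩ hD
  rw [e3, sub_eq_zero.1 e4] at e5
  exact e5.congr_of_eventuallyEq (Eventually.of_forall fun ρ => sol_coe (A ρ) ⟨1, by simp⟩)

end

end Pool.Agent.Lib.MP_446a91_nt.Kz
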