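import Pool.Agent.Lib.MP_446a91_nt.CovW

/-! Integral Lie polynomials and the universal pentagon (MP_446a91_nt). -/

namespace Pool.Agent.Lib.MP_446a91_nt

noncomputable section

/-- Evaluation of a polynomial in two letters. -/
def ev2 {R : Type} [Ring R] (u v : R) : W ℤ (Fin 2) →+* R := evZ ![u, v]

@[simp] theorem ev2_zero {R : Type} [Ring R] (u v : R) : ev2 u v (lt 0) = u := by simp [ev2]
@[simp] theorem ev2_one {R : Type} [Ring R] (u v : R) : ev2 u v (lt 1) = v := by simp [ev2]

theorem map_ev2 {R R' : Type} [Ring R] [Ring R'] (f : R →+* R') (u v : R) (p : W ℤ (Fin 2)) :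
    f (ev2 u v p) = ev2 (f u) (f v) p := by
  rw [ev2, map_evZ, ev2]
  congr 2
  funext i; fin_cases i <;> rfl

/-- The commutator. -/
def cm {R : Type} [Ring R] (u v : R) : R := u * v - v * u

theorem map_cm {R R' F : Type} [Ring R] [Ring R'] [FunLike F R R'] [RingHomClass F R R'] (f : F)
    (u v : R) : f (cm u v) = cm (f u) (f v) := by
  simp [cm]

/-- Iterated commutators of total weight `n` of the elements `g s`, of weight `w s`. -/
inductive Br {S R : Type} [Ring R] (g : S → R) (w : S → ℕ) : ℕ → R → Prop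
  | of (s : S) : Br g w (w s) (g s)
  | lie {m n : ℕ} {u v : R} : Br g w m u → Br g w n v → Br g w (m + n) (cm u v)

/-- The additive group they generate. -/
def Sp {S R : Type} [Ring R] (g : S → R) (w : S → ℕ) (n : ℕ) : AddSubgroup R :=
  AddSubgroup.closure {u | Br g w n u}

section Sp
variable {S R R' : Type} [Ring R] [Ring R'] {g : S → R} {w : S → ℕ} {m n : ℕ} {u v : R}

theorem Br.mem (h : Br g w n u) : u ∈ Sp g w n := AddSubgroup.subset_closure h

theorem gen_mem (g : S → R) (w : S → ℕ) (s : S) : g s ∈ Sp g w (w s) := (Br.of s).mem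

theorem Sp_induction {P : R → Prop} (hu : u ∈ Sp g w n) (hb : ∀ u, Br g w n u → P u) (h0 : P 0)
    (ha : ∀ u v, P u → P v → P (u + v)) (hn : ∀ u, P u → P (-u)) : P u := by
  induction hu using AddSubgroup.closure_induction with
  | mem u hu => exact hb u hu
  | zero => exact h0
  | add u v _ _ h1 h2 => exact ha u v h1 h2
  | neg u _ h => exact hn u h

theorem cm_mem (hu : u ∈ Sp g w m) (hv : v ∈ Sp g w n) : cm u v ∈ Sp g w (m + n) := by
  refine Sp_induction (P := fun u => cm u v ∈ Sp g w (m + n)) hu (fun u hu => ?_) ?_ ?_ ?_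
  · refine Sp_induction (P := fun v => cm u v ∈ Sp g w (m + n)) hv (fun v hv => (hu.lie hv).mem)
      ?_ ?_ ?_
    · simp [cm]
    · intro a b h1 h2
      have : cm u (a + b) = cm u a + cm u b := by simp only [cm]; noncomm_ring
      rw [this]; exact add_mem h1 h2
    · intro a h1
      have : cm u (-a) = -cm u a := by simp only [cm]; noncomm_ring
      rw [this]; exact neg_mem h1
  · simp [cm]
  · intro a b h1 h2
    have : cm (a + b) v = cm a v + cm b v := by simp only [cm]; noncomm_ring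
    rw [this]; exact add_mem h1 h2
  · intro a h1
    have : cm (-a) v = -cm a v := by simp only [cm]; noncomm_ring
    rw [this]; exact neg_mem h1

theorem Sp_map (f : R →+* R') (hu : u ∈ Sp g w n) : f u ∈ Sp (fun s => f (g s)) w n := by
  refine Sp_induction (P := fun u => f u ∈ Sp (fun s => f (g s)) w n) hu (fun a ha => ?_) ?_ ?_ ?_
  · clear hu
    induction ha with
    | of s => exact gen_mem (fun s => f (g s)) w s
    | lie _ _ h1 h2 => rw [map_cm]; exact cm_mem h1 h2
  · simp
  · intro a b h1 h2; rw [map_add]; exact add_mem h1 h2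
  · intro a h1; rw [map_neg]; exact neg_mem h1

theorem Sp_lift (f : R →+* R') {z : R'} (hz : z ∈ Sp (fun s => f (g s)) w n) :
    ∃ u ∈ Sp g w n, f u = z := by
  refine Sp_induction (P := fun z => ∃ u ∈ Sp g w n, f u = z) hz (fun y hy => ?_) ?_ ?_ ?_
  · clear hz
    induction hy with
    | of s => exact ⟨g s, gen_mem g w s, rfl⟩
    | lie _ _ h1 h2 =>
      obtain ⟨a, ha, rfl⟩ := h1
      obtain ⟨b, hb, rfl⟩ := h2
      exact ⟨cm a b, cm_mem ha hb, map_cm f a b⟩
  · exact ⟨0, zero_mem _, map_zero f⟩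
  · rintro _ _ ⟨a, ha, rfl⟩ ⟨b, hb, rfl⟩
    exact ⟨a + b, add_mem ha hb, map_add f a b⟩
  · rintro _ ⟨a, ha, rfl⟩
    exact ⟨-a, neg_mem ha, map_neg f a⟩

end Sp

/-- Integral Lie polynomials of degree `n` in two letters. -/
def L2 (n : ℕ) : AddSubgroup (W ℤ (Fin 2)) := Sp lt (fun _ => 1) n

/-- Integral Lie polynomials of weight `n` in letters of weight `3, 5, 7, …`. -/
def Lm (n : ℕ) : AddSubgroup (W ℤ ℕ) := Sp lt (fun i => 2 * i + 3) n

/-- The pentagon holds in every ring with elements `a = t₁₂`, `b = t₁₄`, `d = t₂₄`, `e = t₂₃`,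
`f = t₃₄` subject to the Drinfeld–Kohno relations modulo the centre. -/
def UP (p : W ℤ (Fin 2)) : Prop :=
  ∀ (R : Type) [Ring R] (a b d e f : R), a * f = f * a → b * e = e * b →
    a * (b + d) = (b + d) * a → b * (a + d) = (a + d) * b → e * (d + f) = (d + f) * e →
    f * (d + e) = (d + e) * f →
    ev2 a (e + d) p + ev2 (-(b + d + f)) f p =
      ev2 e f p + ev2 (-(b + d + f)) (d + f) p + ev2 a e p

/-- The elements `ad(c)^i d`. -/
def sgen {R : Type} [Ring R] (c d : R) : ℕ → R
  | 0 => d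
  | i + 1 => cm c (sgen c d i)

section shift
variable {R : Type} [Ring R] {n : ℕ} {p : W ℤ (Fin 2)}

theorem Br.pos {S : Type} {g : S → R} {w : S → ℕ} (hw : ∀ s, 1 ≤ w s) {u : R} (h : Br g w n u) :
    1 ≤ n := by
  induction h with
  | of s => exact hw s
  | lie _ _ h1 h2 => omega

/-- An element commuting with both arguments commutes with the value. -/
theorem ev2_comm {u v z : R} (hu : z * u = u * z) (hv : z * v = v * z) (p : W ℤ (Fin 2)) :
    z * ev2 u v p = ev2 u v p * z := by
  induction p using W_ind with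
  | one => simp
  | mul i p ih =>
    have h : z * ev2 u v (lt i) = ev2 u v (lt i) * z := by
      fin_cases i
      · simpa using hu
      · simpa using hv
    rw [map_mul, ← mul_assoc, h, mul_assoc, ih, mul_assoc]
  | add p q h1 h2 => rw [map_add, mul_add, add_mul, h1, h2]
  | smul r p ih => rw [map_zsmul, mul_smul_comm, smul_mul_assoc, ih]

/-- Central shifts of the arguments do not change a Lie polynomial of degree at least two. -/
theorem ev2_shift {u v z z' : R} (hu : z * u = u * z) (hv : z * v = v * z)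
    (hu' : z' * u = u * z') (hv' : z' * v = v * z') (hz : z * z' = z' * z) (hn : 2 ≤ n)
    (hp : p ∈ L2 n) : ev2 (u + z) (v + z') p = ev2 u v p := by
  have key : ∀ k q, Br (lt : Fin 2 → W ℤ (Fin 2)) (fun _ => 1) k q →
      ∃ c : R, (c = 0 ∨ c = z ∨ c = z') ∧ ev2 (u + z) (v + z') q = ev2 u v q + c ∧
        (2 ≤ k → c = 0) := by
    intro k q hq
    induction hq with
    | of i =>
      fin_cases i
      · exact ⟨z, by simp, by simp, by omega⟩
      · exact ⟨z', by simp, by simp, by omega⟩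
    | @lie k l a b _ _ h1 h2 =>
      obtain ⟨c1, a1, b1, -⟩ := h1
      obtain ⟨c2, a2, b2, -⟩ := h2
      have e : ∀ c, (c = 0 ∨ c = z ∨ c = z') → ∀ q, c * ev2 u v q = ev2 u v q * c := by
        rintro c (rfl | rfl | rfl) q
        exacts [by simp, ev2_comm hu hv q, ev2_comm hu' hv' q]
      have e3 : c1 * c2 = c2 * c1 := by
        rcases a1 with rfl | rfl | rfl <;> rcases a2 with rfl | rfl | rfl <;> simp [hz]
      refine ⟨0, by simp, ?_, fun _ => rfl⟩
      rw [map_cm, map_cm, b1, b2]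
      simp only [cm]
      linear_combination (norm := noncomm_ring) e c1 a1 b - e c2 a2 a + e3
  refine Sp_induction (P := fun q => ev2 (u + z) (v + z') q = ev2 u v q) hp (fun q hq => ?_)
    (by simp) (fun a b h1 h2 => by simp [h1, h2]) (fun a h1 => by simp [h1])
  obtain ⟨c, -, h1, h2⟩ := key n q hq
  rw [h1, h2 hn, add_zero]

/-- A Lie polynomial of degree at least three vanishes on a Heisenberg pair. -/
theorem ev2_heis {u v : R} (hu : cm u (cm u v) = 0) (hv : cm v (cm u v) = 0) (hn : 3 ≤ n)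
    (hp : p ∈ L2 n) : ev2 u v p = 0 := by
  have key : ∀ k q, Br (lt : Fin 2 → W ℤ (Fin 2)) (fun _ => 1) k q →
      (k = 1 ∧ (ev2 u v q = u ∨ ev2 u v q = v)) ∨
      (2 ≤ k ∧ (ev2 u v q = 0 ∨ (k = 2 ∧ (ev2 u v q = cm u v ∨ ev2 u v q = -cm u v)))) := by
    intro k q hq
    induction hq with
    | of i => fin_cases i <;> simp
    | @lie k l a b _ _ h1 h2 =>
      right
      rw [map_cm]
      simp only [cm] at hu hv h1 h2 ⊢
      rcases h1 with ⟨rfl, h1 | h1⟩ | ⟨hk, h1 | ⟨rfl, h1 | h1⟩⟩ <;>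
      rcases h2 with ⟨rfl, h2 | h2⟩ | ⟨hl, h2 | ⟨rfl, h2 | h2⟩⟩ <;>
      rw [h1, h2] <;> refine ⟨by omega, ?_⟩ <;>
      first
      | (left; noncomm_ring; done)
      | (right; refine ⟨rfl, Or.inl rfl⟩)
      | (right; refine ⟨rfl, Or.inr ?_⟩; noncomm_ring; done)
      | (left; linear_combination (norm := (noncomm_ring; done)) hu)
      | (left; linear_combination (norm := (noncomm_ring; done)) -hu)
      | (left; linear_combination (norm := (noncomm_ring; done)) hv)
      | (left; linear_combination (norm := (noncomm_ring; done)) -hv)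
  refine Sp_induction (P := fun q => ev2 u v q = 0) hp (fun q hq => ?_)
    (by simp) (fun a b h1 h2 => by simp [h1, h2]) (fun a h1 => by simp [h1])
  rcases key n q hq with ⟨h, -⟩ | ⟨-, h | ⟨h, -⟩⟩
  exacts [by omega, h, by omega]

end shift

/-- The pentagon in the dihedral form: `a₁, …, a₅ = t₁₂, t₂₃, t₃₄, t₄₅, t₅₁`. -/
theorem UP.five {n : ℕ} {p : W ℤ (Fin 2)} (h : UP p) (hn : 2 ≤ n) (hp : p ∈ L2 n) {R : Type}
    [Ring R] {a1 a2 a3 a4 a5 : R} (h13 : a1 * a3 = a3 * a1) (h24 : a2 * a4 = a4 * a2)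
    (h35 : a3 * a5 = a5 * a3) (h41 : a4 * a1 = a1 * a4) (h52 : a5 * a2 = a2 * a5)
    (hs : cm a1 a2 + cm a2 a3 + cm a3 a4 + cm a4 a5 + cm a5 a1 = 0) :
    ev2 a1 a5 p + ev2 a4 a3 p = ev2 a2 a3 p + ev2 a4 a5 p + ev2 a1 a2 p := by
  simp only [cm] at hs
  have h0 := h R a1 (a2 - a4 - a5) (a5 - a2 - a3) a2 a3 h13
    (by linear_combination (norm := noncomm_ring) h24 - h52)
    (by linear_combination (norm := noncomm_ring) h41 - h13)
    (by linear_combination (norm := noncomm_ring) - hs - h41 - h24 - h35)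
    (by linear_combination (norm := noncomm_ring) - h52)
    (by linear_combination (norm := noncomm_ring) h35)
  have e1 : a2 + (a5 - a2 - a3) = a5 + -a3 := by abel
  have e2 : -(a2 - a4 - a5 + (a5 - a2 - a3) + a3) = a4 + 0 := by abel
  have e3 : a5 - a2 - a3 + a3 = a5 + -a2 := by abel
  rw [e1, e2, e3, ev2_shift (by simp) (by simp) (by simp [h24]) (by simp [h52]) (by simp) hn hp,
    add_zero, ← add_zero a1,
    ev2_shift (by simp) (by simp) (by simp [h13]) (by simp [h35]) (by simp) hn hp,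
    add_zero] at h0
  exact h0

end

end Pool.Agent.Lib.MP_446a91_nt
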