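import Pool.Agent.Lib.MP_446a91_nt.DD.S
import Pool.Agent.Lib.MP_446a91_nt.DD.FinDefs

/-! Free generators of `grt ⊗ K` (MP_446a91_nt). -/

namespace Pool.Agent.Lib.MP_446a91_nt.Desc

open Module TensorProduct

attribute [local instance 100] LieRing.ofAssociativeRing

noncomputable section

variable {K : Type} [Field K] [CharZero K]

theorem map_bc {M N : Type} [AddCommGroup M] [Module ℚ M] [AddCommGroup N] [Module ℚ N]
    (f : M →ₗ[ℚ] N) (p : Submodule ℚ M) :
    (p.baseChange K).map (f.baseChange K) = (p.map f).baseChange K := by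
  rw [Submodule.baseChange_eq_span, Submodule.baseChange_eq_span, Submodule.map_span]
  congr 1
  ext z
  simp

omit [CharZero K] in
theorem lie_span {L : Type} [LieRing L] [LieAlgebra K L] {s t : Set L} {U : Submodule K L}
    (h : ∀ a ∈ s, ∀ b ∈ t, ⁅a, b⁆ ∈ U) {x y : L} (hx : x ∈ Submodule.span K s)
    (hy : y ∈ Submodule.span K t) : ⁅x, y⁆ ∈ U := by
  induction hx, hy using Submodule.span_induction₂ with
  | mem_mem a b ha hb => exact h a ha b hb
  | zero_left => simp
  | zero_right => simp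
  | add_left _ _ _ _ _ _ h1 h2 => rw [add_lie]; exact add_mem h1 h2
  | add_right _ _ _ _ _ _ h1 h2 => rw [lie_add]; exact add_mem h1 h2
  | smul_left c _ _ _ _ h1 => rw [smul_lie]; exact U.smul_mem c h1
  | smul_right c _ _ _ _ h1 => rw [lie_smul]; exact U.smul_mem c h1

theorem tlie_zero (x : K ⊗[ℚ] LMot) : ⁅x, (0 : K ⊗[ℚ] LMot)⁆ = 0 :=
  map_zero (LieAlgebra.ad K _ x)

theorem tlie_add (x y z : K ⊗[ℚ] LMot) : ⁅x, y + z⁆ = ⁅x, y⁆ + ⁅x, z⁆ := LieRing.lie_add x y z

theorem tlie_smul (c d : K) (x y : K ⊗[ℚ] LMot) : ⁅c • x, d • y⁆ = (c * d) • ⁅x, y⁆ := by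
  have h : ⁅c • x, d • y⁆ = LieAlgebra.ad K _ (c • x) (d • y) := rfl
  rw [h, map_smul, map_smul, LinearMap.smul_apply, smul_smul, mul_comm]
  rfl

variable (K) in
/-- The degree `n` part of `L^mot ⊗ K`. -/
def AK (n : ℕ) : Submodule K (K ⊗[ℚ] LMot) := (degMot n).baseChange K

theorem AK_eq (n : ℕ) :
    AK K n = Submodule.span K (TensorProduct.mk ℚ K LMot 1 '' {u | IsBrMot n u}) :=
  Submodule.baseChange_span _ _

theorem AK_br {n : ℕ} {u : LMot} (h : IsBrMot n u) : 1 ⊗ₜ u ∈ AK K n :=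
  Submodule.tmul_mem_baseChange_of_mem _ (Submodule.subset_span h)

theorem AK_lie {m n : ℕ} {x y : K ⊗[ℚ] LMot} (hx : x ∈ AK K m) (hy : y ∈ AK K n) :
    ⁅x, y⁆ ∈ AK K (m + n) := by
  rw [AK_eq] at hx hy
  refine lie_span ?_ hx hy
  rintro _ ⟨a, ha, rfl⟩ _ ⟨b, hb, rfl⟩
  simpa using AK_br (K := K) (IsBrMot.lie ha hb)

theorem exists_le (x : K ⊗[ℚ] LMot) : ∃ N, x ∈ ⨆ n ∈ Finset.range N, AK K n := by
  have mono : ∀ {M N}, M ≤ N → ⨆ n ∈ Finset.range M, AK K n ≤ ⨆ n ∈ Finset.range N, AK K n :=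
    fun h => biSup_mono fun _ hn => Finset.range_mono h hn
  have h1 : ∀ x ∈ ⨆ n, AK K n, ∃ N, x ∈ ⨆ n ∈ Finset.range N, AK K n := fun x hx => by
    induction hx using Submodule.iSup_induction' with
    | mem n x hx =>
      exact ⟨n + 1, Submodule.mem_iSup_of_mem n (Submodule.mem_iSup_of_mem (by simp) hx)⟩
    | zero => exact ⟨0, zero_mem _⟩
    | add x y _ _ h1 h2 =>
      obtain ⟨M, h1⟩ := h1
      obtain ⟨N, h2⟩ := h2
      exact ⟨max M N, add_mem (mono (le_max_left _ _) h1) (mono (le_max_right _ _) h2)⟩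
  have h2 : ∀ u : LMot, (1 : K) ⊗ₜ[ℚ] u ∈ ⨆ n, AK K n := fun u => by
    refine free_induction (P := fun u => (1 : K) ⊗ₜ[ℚ] u ∈ ⨆ n, AK K n) u
      (fun i => Submodule.mem_iSup_of_mem _ (AK_br (IsBrMot.of i))) (by simp)
      (fun u v h1 h2 => by rw [tmul_add]; exact add_mem h1 h2)
      (fun c u h => by rw [tmul_smul]; exact Submodule.smul_of_tower_mem _ c h)
      fun u v h1 h2 => ?_
    have : ⁅(1 : K) ⊗ₜ[ℚ] u, (1 : K) ⊗ₜ[ℚ] v⁆ ∈ ⨆ n, AK K n := by
      rw [Submodule.iSup_eq_span] at h1 h2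
      refine lie_span (fun a ha b hb => ?_) h1 h2
      obtain ⟨m, ha⟩ := Set.mem_iUnion.1 ha
      obtain ⟨n, hb⟩ := Set.mem_iUnion.1 hb
      exact Submodule.mem_iSup_of_mem _ (AK_lie ha hb)
    simpa using this
  refine h1 x ?_
  induction x with
  | zero => exact zero_mem _
  | tmul c u => simpa [smul_tmul'] using Submodule.smul_mem _ c (h2 u)
  | add x y h1 h2 => exact add_mem h1 h2

/-- A graded endomorphism which is triangular on the generators is bijective. -/
theorem triangular {Z : Type} [AddCommGroup Z] [Module K Z] (fin : ∀ n, Module.Finite ℚ (degMot n))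
    (l : ℕ → K ⊗[ℚ] LMot →ₗ[K] Z)
    (hl : ∀ n a b u v, IsBrMot a u → IsBrMot b v → l n (1 ⊗ₜ ⁅u, v⁆) = 0)
    (τ : ℕ → K ⊗[ℚ] LMot) (h1 : ∀ k, τ k ∈ AK K (2 * k + 3)) (h2 : ∀ k, l (2 * k + 3) (τ k) ≠ 0) :
    ∃ G : K ⊗[ℚ] LMot →ₗ[K] K ⊗[ℚ] LMot, (∀ k, G (1 ⊗ₜ FreeLieAlgebra.of ℚ k) = τ k) ∧
      Function.Injective G ∧ (∀ n, (AK K n).map G = AK K n) ∧ ∀ x y, G ⁅x, y⁆ = ⁅G x, G y⁆ := by
  let G0 : LMot →ₗ⁅ℚ⁆ K ⊗[ℚ] LMot := FreeLieAlgebra.lift ℚ τ
  let G : K ⊗[ℚ] LMot →ₗ[K] K ⊗[ℚ] LMot := G0.toLinearMap.liftBaseChange K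
  have Gt : ∀ c u, G (c ⊗ₜ u) = c • G0 u := fun c u => rfl
  have Gof : ∀ k, G (1 ⊗ₜ FreeLieAlgebra.of ℚ k) = τ k := fun k => by simp [Gt, G0]
  have Glie : ∀ x y, G ⁅x, y⁆ = ⁅G x, G y⁆ := fun x y => by
    induction x with
    | zero => simp
    | add x x' h1 h2 => simp only [add_lie, map_add, h1, h2]
    | tmul c u =>
      induction y with
      | zero => simp only [tlie_zero, map_zero]
      | add y y' h1 h2 => simp only [tlie_add, map_add, h1, h2]
      | tmul d v => simp [Gt, tlie_smul]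
  have le : ∀ n, (AK K n).map G ≤ AK K n := fun n => by
    rw [Submodule.map_le_iff_le_comap]
    refine (AK_eq n).le.trans (Submodule.span_le.2 ?_)
    rintro _ ⟨u, hu, rfl⟩
    change G (1 ⊗ₜ u) ∈ AK K n
    induction hu with
    | of k => rw [Gof]; exact h1 k
    | lie _ _ a b => simpa [← Glie] using AK_lie a b
  have ge : ∀ n, AK K n ≤ (AK K n).map G := fun n => by
    induction n using Nat.strong_induction_on with
    | _ n ih =>
    have br : ∀ a b u v, a + b = n → IsBrMot a u → IsBrMot b v →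
        1 ⊗ₜ ⁅u, v⁆ ∈ (AK K n).map G := fun a b u v e hu hv => by
      have := IsBrMot.three hu
      have := IsBrMot.three hv
      obtain ⟨x, hx, e1⟩ := ih a (by omega) (AK_br hu)
      obtain ⟨y, hy, e2⟩ := ih b (by omega) (AK_br hv)
      exact ⟨⁅x, y⁆, e ▸ AK_lie hx hy, by simp [Glie, e1, e2]⟩
    refine (AK_eq n).le.trans (Submodule.span_le.2 ?_)
    rintro _ ⟨u, hu, rfl⟩
    cases hu with
    | lie hu hv => exact br _ _ _ _ rfl hu hv
    | of k =>
      have h3 : AK K (2 * k + 3) ≤ (K ∙ (1 ⊗ₜ FreeLieAlgebra.of ℚ k)) ⊔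
          ((AK K (2 * k + 3)).map G ⊓ LinearMap.ker (l (2 * k + 3))) := by
        refine (AK_eq _).le.trans (Submodule.span_le.2 ?_)
        rintro _ ⟨u, hu, rfl⟩
        generalize hn : 2 * k + 3 = n at hu br
        cases hu with
        | of j =>
          obtain rfl : k = j := by omega
          exact Submodule.mem_sup_left (Submodule.mem_span_singleton_self _)
        | lie hu hv => exact Submodule.mem_sup_right ⟨br _ _ _ _ rfl hu hv, hl _ _ _ _ _ hu hv⟩
      obtain ⟨_, hc, z, ⟨hz, hz'⟩, e⟩ := Submodule.mem_sup.1 (h3 (h1 k))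
      obtain ⟨c, rfl⟩ := Submodule.mem_span_singleton.1 hc
      have hc0 : c ≠ 0 := by
        rintro rfl
        rw [zero_smul, zero_add] at e
        exact h2 k (e ▸ hz')
      refine (Submodule.smul_mem_iff _ hc0).1 ?_
      rw [TensorProduct.mk_apply, eq_sub_of_add_eq e]
      exact sub_mem ⟨_, AK_br (IsBrMot.of k), Gof k⟩ hz
  have eq : ∀ n, (AK K n).map G = AK K n := fun n => le_antisymm (le n) (ge n)
  refine ⟨G, Gof, (injective_iff_map_eq_zero _).2 fun x hx => ?_, eq, Glie⟩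
  obtain ⟨N, hN⟩ := exists_le x
  have : ∀ n, Module.Finite K (AK K n) := fun n =>
    Module.Finite.of_surjective _ ((degMot n).toBaseChange_surjective K)
  have : FiniteDimensional K ↥(⨆ n ∈ Finset.range N, AK K n) := by
    rw [← Finset.sup_eq_iSup]; infer_instance
  set V := ⨆ n ∈ Finset.range N, AK K n with hV
  have hm : V.map G = V := by simp only [hV, Submodule.map_iSup, eq]
  have hr : ∀ y ∈ V, G y ∈ V := fun y hy => hm.le ⟨y, hy, rfl⟩
  have hs : Function.Surjective (G.restrict hr) := fun y => by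
    obtain ⟨z, hz, e⟩ := hm.ge y.2
    exact ⟨⟨z, hz⟩, Subtype.ext e⟩
  exact congrArg Subtype.val (LinearMap.injective_iff_surjective.2 hs (a₁ := ⟨x, hN⟩) (a₂ := 0)
    (Subtype.ext (hx.trans (map_zero G).symm)))

theorem dep1_eq (n : ℕ) (ψ : FL) : dep1 n ψ = dep (K := ℚ) n (iota ψ) := by
  have : toPoly = iota := FreeLieAlgebra.hom_ext fun i => by
    rw [iota_of, toPoly, FreeLieAlgebra.lift_of_apply]; rfl
  rw [dep1, this]; rfl

end

end Pool.Agent.Lib.MP_446a91_nt.Desc

namespace Pool.Agent.Lib.MP_446a91_nt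

open Module Desc TensorProduct

attribute [local instance 100] LieRing.ofAssociativeRing

theorem free_generators (K : Type) [Field K] [CharZero K] :
    ∃ B : FL →ₗ[ℚ] FL →ₗ[ℚ] FL, IsIhara B ∧ (∃ σ, IsGens K σ) ∧ ∀ σ, IsGens K σ →
      ∃ F : K ⊗[ℚ] LMot →ₗ[K] K ⊗[ℚ] FL, (∀ k, F (1 ⊗ₜ FreeLieAlgebra.of ℚ k) = σ k) ∧
        Function.Injective F ∧
        (∀ n, ((degMot n).baseChange K).map F = (grt n).baseChange K) ∧
        ∀ u v, F ⁅u, v⁆ = LinearMap.BilinMap.baseChange K B (F u) (F v) := by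
  obtain ⟨D, hD, F, inj, hF, lie, hdep⟩ := deligne_drinfeld'
  have hD' : ∀ ψ φ, iota (D ψ φ) = dK (K := ℚ) (iota ψ) (iota φ) := fun ψ φ => by
    obtain ⟨E, hE, hE'⟩ := exists_iharaD
    rw [← hE']
    congr 1
    refine free_induction (P := fun φ => D ψ φ = E ψ φ) φ (fun i => ?_) (by simp)
      (fun u v h1 h2 => by simp [h1, h2]) (fun c u h => by simp [h]) fun u v h1 h2 => by simp [h1, h2]
    fin_cases i
    exacts [(hD ψ).1.trans (hE ψ).1.symm, (hD ψ).2.trans (hE ψ).2.symm]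
  have ihara : ∀ ψ φ : FL, iota (⁅ψ, φ⁆ + D ψ φ - D φ ψ) =
      sL (K := ℚ) (iota ψ) (iota φ) - sL (K := ℚ) (iota φ) (iota ψ) := by
    intro ψ φ
    rw [map_sub, map_add, hD', hD', LieHom.map_lie, LieRing.of_associative_ring_bracket]
    simp only [sL_apply, sK, LinearMap.add_apply, LM_apply]
    abel
  let B : FL →ₗ[ℚ] FL →ₗ[ℚ] FL := LinearMap.mk₂ ℚ (fun ψ φ => ⁅ψ, φ⁆ + D ψ φ - D φ ψ)
    (fun a b c => iota_injective (by
      rw [map_add iota, ihara, ihara, ihara]; simp only [map_add, LinearMap.add_apply]; abel))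
    (fun c a b => iota_injective (by
      rw [map_smul iota, ihara, ihara]; simp only [map_smul, LinearMap.smul_apply, smul_sub]))
    (fun a b c => iota_injective (by
      rw [map_add iota, ihara, ihara, ihara]; simp only [map_add, LinearMap.add_apply]; abel))
    (fun c a b => iota_injective (by
      rw [map_smul iota, ihara, ihara]; simp only [map_smul, LinearMap.smul_apply, smul_sub]))
  have mem : ∀ {n u}, IsBrMot n u → F u ∈ grt n := fun {n u} h =>
    hF n ▸ Submodule.mem_map_of_mem (Submodule.subset_span h)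
  have injK : Function.Injective (F.baseChange K) :=
    Module.Flat.lTensor_preserves_injective_linearMap F inj
  have hFK : ∀ n, (AK K n).map (F.baseChange K) = (grt n).baseChange K := fun n => by
    rw [AK, map_bc, hF]
  refine ⟨B, ⟨D, hD, fun _ _ => rfl⟩, ⟨fun k => 1 ⊗ₜ F (FreeLieAlgebra.of ℚ k), fun k =>
    ⟨Submodule.tmul_mem_baseChange_of_mem _ (mem (IsBrMot.of k)), fun h => hdep k ?_⟩⟩,
    fun σ hσ => ?_⟩
  · have := congrArg (TensorProduct.rid ℚ K) h
    simpa [dep1_eq] using this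
  · choose τ h1 h2 using fun k => (hFK _).ge (hσ k).1
    obtain ⟨G, g1, g2, g3, g4⟩ := triangular (fun n => by
        have : Module.Finite ℚ (grt n) := by
          rcases le_or_gt n 2 with hn | hn
          · rw [grt_small hn]; infer_instance
          · exact Module.rank_lt_aleph0_iff.1
              ((rank_grt_le (by omega)).trans_lt (Cardinal.natCast_lt_aleph0))
        exact Module.Finite.equiv ((Submodule.equivMapOfInjective F inj _).trans
          (LinearEquiv.ofEq _ _ (hF n))).symm)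
      (fun n => (dep1 n).baseChange K ∘ₗ F.baseChange K) (fun n a b u v hu hv => by
        have ha := IsBrMot.three hu
        have hb := IsBrMot.three hv
        rw [LinearMap.comp_apply, LinearMap.baseChange_tmul, LinearMap.baseChange_tmul, dep1_eq,
          lie, ihara]
        erw [dep_ihK (by omega) (by omega) (iota_mem_LK (mem hu).1) (iota_mem_LK (mem hv).1)]
        exact tmul_zero _ _)
      τ h1 fun k => by rw [LinearMap.comp_apply, h2]; exact (hσ k).2
    refine ⟨F.baseChange K ∘ₗ G, fun k => by rw [LinearMap.comp_apply, g1, h2], injK.comp g2,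
      fun n => by rw [Submodule.map_comp]; exact (congrArg _ (g3 n)).trans (hFK n),
      fun u v => ?_⟩
    rw [LinearMap.comp_apply, LinearMap.comp_apply, LinearMap.comp_apply, g4]
    generalize G u = x
    generalize G v = y
    induction x with
    | zero => simp
    | add x x' h1 h2 => simp only [add_lie, map_add, LinearMap.add_apply, h1, h2]
    | tmul c u =>
      induction y with
      | zero => simp only [tlie_zero, map_zero]
      | add y y' h1 h2 => simp only [tlie_add, map_add, h1, h2]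
      | tmul d v => simp [lie, B]

end Pool.Agent.Lib.MP_446a91_nt
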