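import Pool.Agent.Lib.MP_446a91_nt.DD.Lie
import Pool.Agent.Lib.MP_446a91_nt.DD.PBW

/-! Integral Lie polynomials form a pure subgroup of the integral polynomials (MP_446a91_nt). -/

namespace Pool.Agent.Lib.MP_446a91_nt

open Polynomial

attribute [local instance 100] LieRing.ofAssociativeRing

noncomputable section

variable {S : Type} (w : S → ℕ)

/-- The decomposition by weight. -/
def grW : W ℤ S →+* (W ℤ S)[X] := evZ fun s => monomial (w s) (lt s)

variable {w}

theorem grW_of_mem {n : ℕ} {u : W ℤ S} (hu : u ∈ Sp lt w n) : grW w u = monomial n u := by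
  refine Sp_induction (P := fun u => grW w u = monomial n u) hu (fun u hu' => ?_) (by simp)
    (fun u v h1 h2 => by simp [h1, h2]) (fun u h1 => by simp [h1])
  clear hu
  induction hu' with
  | of s => simp [grW]
  | lie _ _ h1 h2 =>
    rw [map_cm, h1, h2, cm, cm, monomial_mul_monomial, monomial_mul_monomial, map_sub, add_comm]

theorem W_torsion {m : ℤ} (hm : m ≠ 0) {u : W ℤ S} (h : m • u = 0) : u = 0 :=
  cf_ext fun v => by
    have := congrArg (cf v) h
    rw [map_smul, map_zero, smul_eq_mul] at this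
    exact (mul_eq_zero.1 this).resolve_left hm

variable (w) in
/-- The Lie ring of all integral Lie polynomials. -/
def LZ : LieSubalgebra ℤ (W ℤ S) where
  carrier := {u | ∀ n, (grW w u).coeff n ∈ Sp lt w n}
  zero_mem' := fun n => by simp
  add_mem' := fun h1 h2 n => by rw [map_add, coeff_add]; exact add_mem (h1 n) (h2 n)
  smul_mem' := fun c u h n => by
    rw [map_zsmul, coeff_smul]; exact zsmul_mem (h n) c
  lie_mem' := fun {u v} h1 h2 n => by
    rw [LieRing.of_associative_ring_bracket, map_sub, map_mul, map_mul, coeff_sub, coeff_mul,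
      coeff_mul, ← Finset.Nat.sum_antidiagonal_swap (f := fun x => (grW w v).coeff x.1 * _),
      ← Finset.sum_sub_distrib]
    refine sum_mem fun x hx => ?_
    rw [← Finset.HasAntidiagonal.mem_antidiagonal.1 hx]
    exact cm_mem (h1 x.1) (h2 x.2)

theorem mem_LZ {n : ℕ} {u : W ℤ S} (hu : u ∈ Sp lt w n) : u ∈ LZ w := fun k => by
  rw [grW_of_mem hu, coeff_monomial]
  split_ifs with h
  · exact h ▸ hu
  · exact zero_mem _

variable (w) in
/-- The multiples of `p`. -/
def mulI (p : ℕ) : LieIdeal ℤ (LZ w) where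
  carrier := {u | ∃ v, u = p • v}
  zero_mem' := ⟨0, by simp⟩
  add_mem' := by rintro _ _ ⟨a, rfl⟩ ⟨b, rfl⟩; exact ⟨a + b, by simp⟩
  smul_mem' := by rintro c _ ⟨a, rfl⟩; exact ⟨c • a, smul_comm _ _ _⟩
  lie_mem := by rintro a _ ⟨b, rfl⟩; exact ⟨⁅a, b⁆, lie_nsmul _ _ _⟩

theorem pure_prime {p : ℕ} (hp : p.Prime) {n : ℕ} {v : W ℤ S}
    (h : (p : ℤ) • v ∈ Sp lt w n) : v ∈ Sp lt w n := by
  have := Fact.mk hp
  have hp0 : (p : ℤ) ≠ 0 := by exact_mod_cast hp.ne_zero
  let Q := LZ w ⧸ mulI w p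
  let π : LZ w → Q := LieSubmodule.Quotient.mk
  have hQ : ∀ x : Q, p • x = 0 := by
    rintro ⟨x⟩
    exact (LieSubmodule.Quotient.mk_eq_zero' (N := mulI w p) (m := p • x)).2 ⟨x, rfl⟩
  let _ : Module (ZMod p) Q := AddCommGroup.zmodModule hQ
  let _ : LieAlgebra (ZMod p) Q :=
    { lie_smul := fun t x y => ZMod.map_smul (LieAlgebra.ad ℤ Q x) t y }
  obtain ⟨A, _, _, ρ, hρ⟩ := PBW.exists_faithful (ZMod p) Q
  let φ : W ℤ S →+* A := evZ fun s => ρ (π ⟨lt s, mem_LZ (gen_mem lt w s)⟩)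
  have key : ∀ k u, u ∈ Sp lt w k → ∃ hu : u ∈ LZ w, φ u = ρ (π ⟨u, hu⟩) := by
    intro k u hu
    refine Sp_induction (P := fun u => ∃ hu : u ∈ LZ w, φ u = ρ (π ⟨u, hu⟩)) hu
      (fun u hu' => ?_) ?_ ?_ ?_
    · clear hu
      induction hu' with
      | of s => exact ⟨_, evZ_lt _ s⟩
      | lie _ _ h1 h2 =>
        obtain ⟨a, h1⟩ := h1
        obtain ⟨b, h2⟩ := h2
        refine ⟨(LZ w).lie_mem a b, ?_⟩
        rw [map_cm, h1, h2]
        exact (ρ.map_lie _ _).symm
    · exact ⟨zero_mem _, by rw [map_zero]; exact (map_zero ρ).symm⟩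
    · rintro u v ⟨a, h1⟩ ⟨b, h2⟩
      exact ⟨add_mem a b, by rw [map_add, h1, h2]; exact (map_add ρ _ _).symm⟩
    · rintro u ⟨a, h1⟩
      exact ⟨neg_mem a, by rw [map_neg, h1]; exact (map_neg ρ _).symm⟩
  obtain ⟨hu, e⟩ := key n _ h
  have e0 : φ ((p : ℤ) • v) = 0 := by
    rw [map_zsmul, natCast_zsmul, ← Nat.cast_smul_eq_nsmul (ZMod p), ZMod.natCast_self, zero_smul]
  obtain ⟨v', hv'⟩ := (LieSubmodule.Quotient.mk_eq_zero' (N := mulI w p)).1 (hρ _ (e ▸ e0))
  have e1 : v = v' := by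
    refine sub_eq_zero.1 (W_torsion hp0 ?_)
    have := congrArg Subtype.val hv'
    simp only [AddSubmonoidClass.coe_nsmul] at this
    rw [smul_sub, this, natCast_zsmul, sub_self]
  have e2 : (grW w v).coeff n = v := by
    refine sub_eq_zero.1 (W_torsion hp0 ?_)
    have := congrArg (fun q => coeff q n) (grW_of_mem h)
    simp only [map_zsmul, coeff_smul, coeff_monomial_same] at this
    rw [smul_sub, this, sub_self]
  rw [← e2, e1]
  exact v'.2 n

/-- Purity: if a nonzero multiple of an integral polynomial is an integral Lie polynomial, so is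
the polynomial itself. -/
theorem pure_zsmul {m : ℤ} (hm : m ≠ 0) {n : ℕ} {v : W ℤ S} (h : m • v ∈ Sp lt w n) :
    v ∈ Sp lt w n := by
  have key : ∀ k : ℕ, k ≠ 0 → ∀ v : W ℤ S, (k : ℤ) • v ∈ Sp lt w n → v ∈ Sp lt w n := by
    intro k
    induction k using Nat.recOnMul with
    | zero => intro h; exact absurd rfl h
    | one => intro _ v h; simpa using h
    | prime p hp => intro _ v h; exact pure_prime hp h
    | mul a b h1 h2 =>
      intro h v hv
      rw [Nat.cast_mul, mul_smul] at hv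
      exact h2 (right_ne_zero_of_mul h) v (h1 (left_ne_zero_of_mul h) _ hv)
  refine key m.natAbs (Int.natAbs_ne_zero.2 hm) v ?_
  rcases Int.natAbs_eq m with e | e
  · rwa [← e]
  · rw [e, neg_smul] at h
    exact neg_mem_iff.1 h

theorem pure {n : ℕ} {v : W ℤ S} (h : 2 * v ∈ Sp lt w n) : v ∈ Sp lt w n :=
  pure_zsmul two_ne_zero (by rwa [two_zsmul, ← two_mul])

end

end Pool.Agent.Lib.MP_446a91_nt
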