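import Pool.Agent.Lib.MP_446a91_nt.DD.Bridge
import Pool.Agent.Lib.MP_446a91_nt.DD.Hoff
import Pool.Agent.Lib.MP_446a91_nt.CovFinal

/-! Descent by two: the Deligne-Drinfeld theorem (MP_446a91_nt). -/

namespace Pool.Agent.Lib.MP_446a91_nt.Desc

open Module

attribute [local instance 100] LieRing.ofAssociativeRing

noncomputable section

/-- Lie polynomials of degree `n` which satisfy the pentagon. -/
def GK (K : Type) [CommRing K] (n : ℕ) : Submodule K (W K (Fin 2)) where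
  carrier := {p | p ∈ LK K n ∧ UPC p}
  zero_mem' := ⟨zero_mem _, fun _ _ _ _ _ _ _ _ _ => by simp⟩
  add_mem' := fun h1 h2 => ⟨add_mem h1.1 h2.1, fun R _ _ a b c d e r => by
    simp only [map_add]
    linear_combination (norm := noncomm_ring) h1.2 R a b c d e r + h2.2 R a b c d e r⟩
  smul_mem' := fun t _ h => ⟨Submodule.smul_mem _ t h.1, fun R _ _ a b c d e r => by
    simp only [map_smul, ← smul_add, h.2 R a b c d e r, smul_zero]⟩

section GK
variable {m n : ℕ} {p q : W ℚ (Fin 2)}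

theorem GK_ihK (hm : 3 ≤ m) (hn : 3 ≤ n) (hp : p ∈ GK ℚ m) (hq : q ∈ GK ℚ n) :
    ihK p q ∈ GK ℚ (m + n) :=
  ⟨ihK_mem hp.1 hq.1, hp.2.ihK hq.2 hm hn hp.1 hq.1⟩

theorem dep_ihK (hm : 2 ≤ m) (hn : 2 ≤ n) (hp : p ∈ LK ℚ m) (hq : q ∈ LK ℚ n) (k : ℕ) :
    dep k (ihK p q) = 0 := by
  have h1 := cf_nil_sK (by omega) hp 1
  have h2 := cf_nil_sK (by omega) hq 1
  rw [sK_one] at h1 h2
  rw [ihK, map_sub, dep_sK hm hp, dep_sK hn hq, h1, h2, mul_zero, mul_zero, sub_zero]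

theorem exists_grt (hn : 3 ≤ n) (hp : p ∈ GK ℚ n) : ∃ ψ ∈ grt n, iota ψ = p := by
  obtain ⟨ψ, h, rfl⟩ := exists_deg hp.1
  exact ⟨ψ, (mem_grt_iff hn h).2 hp.2, rfl⟩

end GK

/-- The integral solutions. -/
def Lam (n : ℕ) : AddSubgroup (W ℤ (Fin 2)) :=
  (GK ℚ n).toAddSubgroup.comap (evZ lt).toAddMonoidHom

section Lam
variable {m n : ℕ} {p q : W ℤ (Fin 2)}

theorem mem_Lam : p ∈ Lam n ↔ evZ lt p ∈ GK ℚ n := Iff.rfl

theorem dep_evZ (k : ℕ) (p : W ℤ (Fin 2)) :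
    dep k (evZ (lt : Fin 2 → W ℚ (Fin 2)) p) = (dep k p : ℤ) := cf_evZ _ p

theorem Lam_ihK (hm : 3 ≤ m) (hn : 3 ≤ n) (hp : p ∈ Lam m) (hq : q ∈ Lam n) :
    ihK p q ∈ Lam (m + n) ∧ dep (m + n) (ihK p q) = 0 := by
  refine ⟨by rw [mem_Lam, evZ_ihK]; exact GK_ihK hm hn hp hq, ?_⟩
  have := dep_ihK (by omega) (by omega) (mem_Lam.1 hp).1 (mem_Lam.1 hq).1 (m + n)
  rw [← evZ_ihK, dep_evZ] at this
  exact_mod_cast this

theorem Lam_hoff (hn : 3 ≤ n) (hp : p ∈ Lam n) : ∃ r ∈ Lm n, HH p r := by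
  obtain ⟨ψ, h, e⟩ := exists_grt hn hp
  exact hoff hn (mem_L2 (mem_Lam.1 hp).1) (up_of_grt (by omega) h e.symm)

theorem Lam_half (hn : 3 ≤ n) (hp : p ∈ Lam n) (h : HH p 0) : ∃ q ∈ Lam n, p = 2 * q := by
  obtain ⟨ψ, hψ, e⟩ := exists_grt hn hp
  obtain ⟨q, rfl⟩ := exists_half (h.even_right hn hψ e.symm)
  refine ⟨q, ?_, rfl⟩
  have := (GK ℚ n).smul_mem (1 / 2) hp
  rwa [RingHom.toAddMonoidHom_eq_coe, AddMonoidHom.coe_coe, two_mul, map_add, ← two_smul ℚ,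
    smul_smul, one_div, inv_mul_cancel₀ two_ne_zero, one_smul] at this

theorem Br_three {R : Type} [Ring R] {g : ℕ → R} {u : R} (h : Br g (fun i => 2 * i + 3) n u) :
    3 ≤ n := by
  induction h with
  | of s => omega
  | lie _ _ h1 h2 => omega

/-- Every integral Lie polynomial of weight `n` is the reduction of a solution. -/
def Hit (n : ℕ) : Prop := ∀ r ∈ Lm n, ∃ p ∈ Lam n, HH p r

theorem hit_lie {a b : ℕ} {u v : W ℤ ℕ} (ih : ∀ m < a + b, Hit m)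
    (hu : Br lt (fun i => 2 * i + 3) a u) (hv : Br lt (fun i => 2 * i + 3) b v) :
    ∃ p ∈ Lam (a + b), dep (a + b) p = 0 ∧ HH p (cm u v) := by
  have ha := Br_three hu
  have hb := Br_three hv
  obtain ⟨p, hp, e⟩ := ih a (by omega) u hu.mem
  obtain ⟨q, hq, e'⟩ := ih b (by omega) v hv.mem
  exact ⟨_, (Lam_ihK ha hb hp hq).1, (Lam_ihK ha hb hp hq).2, e.ihK e'⟩

theorem hit_dec {k : ℕ} (ih : ∀ m < 2 * k + 3, Hit m) {r : W ℤ ℕ} (hr : r ∈ Lm (2 * k + 3)) :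
    ∃ a : ℤ, ∃ p ∈ Lam (2 * k + 3), dep (2 * k + 3) p = 0 ∧ HH p (r - a • lt k) := by
  refine Sp_induction (P := fun r => ∃ a : ℤ, ∃ p ∈ Lam (2 * k + 3),
    dep (2 * k + 3) p = 0 ∧ HH p (r - a • lt k)) hr (fun u hu => ?_) ?_ ?_ ?_
  · generalize hn : 2 * k + 3 = n at hu ih
    cases hu with
    | of s =>
      obtain rfl : k = s := by omega
      exact ⟨1, 0, zero_mem _, map_zero _, by simpa using HH.zero⟩
    | lie hu hv => exact ⟨0, by simpa using hit_lie ih hu hv⟩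
  · exact ⟨0, 0, zero_mem _, map_zero _, by simpa using HH.zero⟩
  · rintro u v ⟨a, p, hp, d, e⟩ ⟨b, q, hq, d', e'⟩
    refine ⟨a + b, p + q, add_mem hp hq, by rw [map_add, d, d', add_zero], ?_⟩
    convert e.add e' using 1
    rw [add_smul]; abel
  · rintro u ⟨a, p, hp, d, e⟩
    refine ⟨-a, -p, neg_mem hp, by rw [map_neg, d, neg_zero], ?_⟩
    convert e.neg using 1
    rw [neg_smul]; abel

theorem hit_gen {k : ℕ} (ih : ∀ m < 2 * k + 3, Hit m) :
    ∃ p ∈ Lam (2 * k + 3), dep (2 * k + 3) p ≠ 0 ∧ HH p (lt k) := by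
  have key : ∀ N : ℕ, ∀ s ∈ Lam (2 * k + 3), dep (2 * k + 3) s ≠ 0 →
      (dep (2 * k + 3) s).natAbs ≤ N →
      ∃ p ∈ Lam (2 * k + 3), dep (2 * k + 3) p ≠ 0 ∧ HH p (lt k) := by
    intro N
    induction N with
    | zero => intro s _ h1 h2; omega
    | succ N ihN =>
      intro s hs h1 h2
      obtain ⟨r, hr, e⟩ := Lam_hoff (by omega) hs
      obtain ⟨a, p, hp, d, e'⟩ := hit_dec ih hr
      have e1 := e.sub e'
      have d1 : dep (2 * k + 3) (s - p) = dep (2 * k + 3) s := by rw [map_sub, d, sub_zero]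
      rcases Int.even_or_odd' a with ⟨b, rfl | rfl⟩
      · have e2 : HH (s - p) 0 := by
          convert e1.sub (HH.two (b • lt k)) using 1
          · rw [sub_zero]
          · rw [two_mul, two_mul, add_smul]; abel
        obtain ⟨q, hq, e3⟩ := Lam_half (by omega) (sub_mem hs hp) e2
        rw [e3, two_mul q, map_add] at d1
        exact ihN q hq (by omega) (by omega)
      · refine ⟨s - p, sub_mem hs hp, d1 ▸ h1, ?_⟩
        convert e1.sub (HH.two (b • lt k)) using 1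
        · rw [sub_zero]
        · rw [two_mul, two_mul, add_smul, add_smul, one_smul]; abel
  obtain ⟨p, hp, h1, h2⟩ := exists_rat k
  obtain ⟨m, hm, q, -, e⟩ := exists_int2 hp
  refine key _ q (by rw [mem_Lam, e]; exact zsmul_mem (show p ∈ GK ℚ _ from ⟨hp, h1⟩) m)
    (fun h => ?_) le_rfl
  have := dep_evZ (2 * k + 3) q
  rw [e, h, map_zsmul, Int.cast_zero, smul_eq_zero] at this
  exact this.elim hm h2

theorem hit (n : ℕ) : Hit n := by
  induction n using Nat.strong_induction_on with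
  | _ n ih =>
  intro r hr
  refine Sp_induction (P := fun r => ∃ p ∈ Lam n, HH p r) hr (fun u hu => ?_)
    ⟨0, zero_mem _, HH.zero⟩ ?_ ?_
  · clear hr
    cases hu with
    | of s => obtain ⟨p, hp, -, e⟩ := hit_gen ih; exact ⟨p, hp, e⟩
    | lie hu hv => obtain ⟨p, hp, -, e⟩ := hit_lie ih hu hv; exact ⟨p, hp, e⟩
  · rintro u v ⟨p, hp, e⟩ ⟨q, hq, e'⟩
    exact ⟨p + q, add_mem hp hq, e.add e'⟩
  · rintro u ⟨p, hp, e⟩
    exact ⟨-p, neg_mem hp, e.neg⟩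

theorem exists_sigma : ∃ σ : ℕ → W ℤ (Fin 2),
    ∀ k, σ k ∈ Lam (2 * k + 3) ∧ dep (2 * k + 3) (σ k) ≠ 0 ∧ HH (σ k) (lt k) := by
  choose σ h1 h2 using fun k => hit_gen (k := k) fun m _ => hit m
  exact ⟨σ, fun k => ⟨h1 k, h2 k⟩⟩

theorem sigma_inj {σ : ℕ → W ℤ (Fin 2)} (h : ∀ k, HH (σ k) (lt k)) {r : W ℤ ℕ}
    (hr : r ∈ LZ fun i => 2 * i + 3) (h0 : evZ (fun k => sK (σ k)) r 1 = 0) : r = 0 := by
  have key : ∀ r ∈ LZ fun i => 2 * i + 3,
      ∃ p, evZ (fun k => sK (σ k)) r = sL p ∧ HH p r := fun r hr => by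
    refine LZ_induction (P := fun r => ∃ p, evZ (fun k => sK (σ k)) r = sL p ∧ HH p r) hr
      (fun n r hr => Sp_induction (P := fun r => ∃ p, evZ (fun k => sK (σ k)) r = sL p ∧ HH p r)
        hr (fun u hu => ?_) ⟨0, by simp, HH.zero⟩ ?add ?_) ?add
    · clear hr
      induction hu with
      | of s => exact ⟨σ s, evZ_lt _ s, h s⟩
      | lie _ _ h1 h2 =>
        obtain ⟨p, e1, e2⟩ := h1
        obtain ⟨q, e3, e4⟩ := h2
        exact ⟨ihK p q, by rw [map_cm, e1, e3]; exact (sK_ihK p q).symm, e2.ihK e4⟩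
    · rintro u ⟨p, e1, e2⟩
      exact ⟨-p, by rw [map_neg, map_neg, e1], e2.neg⟩
    · rintro u v ⟨p, e1, e2⟩ ⟨q, e3, e4⟩
      exact ⟨p + q, by rw [map_add, map_add, e1, e3], e2.add e4⟩
  refine eq_zero_of_halving
    (A := {r | r ∈ (LZ fun i => 2 * i + 3) ∧ evZ (fun k => sK (σ k)) r 1 = 0}) ?_ r ⟨hr, h0⟩
  rintro r ⟨hr, h0⟩
  obtain ⟨p, e1, e2⟩ := key r hr
  rw [e1, sL_apply, sK_one] at h0
  subst h0
  obtain ⟨v, rfl⟩ := exists_half e2.even_left
  refine ⟨v, ⟨LZ_half hr, W_torsion two_ne_zero ?_⟩, rfl⟩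
  rw [two_mul, map_add, map_zero] at e1
  rw [two_zsmul, ← LinearMap.add_apply, e1, LinearMap.zero_apply]

end Lam

theorem IsBrMot.three {n : ℕ} {u : LMot} (h : IsBrMot n u) : 3 ≤ n := by
  induction h with
  | of s => omega
  | lie _ _ h1 h2 => omega

theorem exists_LZ (u : LMot) : ∃ m : ℤ, m ≠ 0 ∧ ∃ r ∈ (LZ fun i => 2 * i + 3).toAddSubgroup,
    evZ lt r = m • FreeLieAlgebra.lift ℚ (lt : ℕ → W ℚ ℕ) u := by
  refine exists_int (free_induction (P := fun u => FreeLieAlgebra.lift ℚ (lt : ℕ → W ℚ ℕ) u ∈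
    Submodule.span ℚ (evZ (lt : ℕ → W ℚ ℕ) '' (LZ fun i => 2 * i + 3).toAddSubgroup)) u
    (fun i => Submodule.subset_span ⟨lt i, mem_LZ (gen_mem _ _ i), by simp⟩) (by simp)
    (fun u v h1 h2 => by rw [map_add]; exact add_mem h1 h2)
    (fun c u h => by rw [map_smul]; exact Submodule.smul_mem _ c h) fun u v h1 h2 => ?_)
  obtain ⟨a, ha, r, hr, e⟩ := exists_int h1
  obtain ⟨b, hb, s, hs, e'⟩ := exists_int h2
  have h3 := Submodule.smul_mem _ ((a * b : ℤ) : ℚ)⁻¹ (Submodule.subset_span (R := ℚ)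
    (s := evZ (lt : ℕ → W ℚ ℕ) '' (LZ fun i => 2 * i + 3).toAddSubgroup)
    ⟨_, (LZ fun i => 2 * i + 3).lie_mem hr hs, rfl⟩)
  rw [LieRing.of_associative_ring_bracket, map_sub, map_mul, map_mul, e, e', smul_mul_smul_comm,
    smul_mul_smul_comm, mul_comm b a, ← smul_sub, ← Int.cast_smul_eq_zsmul ℚ, smul_smul,
    inv_mul_cancel₀ (by exact_mod_cast mul_ne_zero ha hb), one_smul] at h3
  rwa [LieHom.map_lie]

end

end Pool.Agent.Lib.MP_446a91_nt.Desc

namespace Pool.Agent.Lib.MP_446a91_nt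

open Module Desc

attribute [local instance 100] LieRing.ofAssociativeRing

theorem deligne_drinfeld' : ∃ D : FL → LieDerivation ℚ FL FL,
    (∀ ψ, D ψ genX = 0 ∧ D ψ genY = ⁅genY, ψ⁆) ∧
    ∃ F : LMot →ₗ[ℚ] FL, Function.Injective F ∧ (∀ n, (degMot n).map F = grt n) ∧
      (∀ u v, F ⁅u, v⁆ = ⁅F u, F v⁆ + D (F u) (F v) - D (F v) (F u)) ∧
      ∀ k, dep (K := ℚ) (2 * k + 3) (iota (F (FreeLieAlgebra.of ℚ k))) ≠ 0 := by
  obtain ⟨D, hD, hD'⟩ := exists_iharaD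
  obtain ⟨σ, hσ⟩ := exists_sigma
  let F' : LMot →ₗ⁅ℚ⁆ End ℚ (W ℚ (Fin 2)) := FreeLieAlgebra.lift ℚ fun k => sK (evZ lt (σ k))
  let G : LMot →ₗ[ℚ] W ℚ (Fin 2) := LinearMap.applyₗ 1 ∘ₗ F'.toLinearMap
  have Gof : ∀ k, G (FreeLieAlgebra.of ℚ k) = evZ lt (σ k) := fun k => by simp [G, F', sK_one]
  have ihara : ∀ ψ φ : FL, iota (⁅ψ, φ⁆ + D ψ φ - D φ ψ) = ihK (K := ℚ) (iota ψ) (iota φ) := by
    intro ψ φ
    rw [map_sub, map_add, hD', hD', LieHom.map_lie, LieRing.of_associative_ring_bracket]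
    simp only [ihK, sK, LinearMap.add_apply, LM_apply]
    abel
  have h1 : ∀ u, ∃ ψ, F' u = sL (iota ψ) := fun u => by
    refine free_induction (P := fun u => ∃ ψ, F' u = sL (iota ψ)) u (fun k => ?_) ⟨0, by simp⟩
      ?_ ?_ ?_
    · obtain ⟨ψ, -, e⟩ := exists_grt (by omega) (hσ k).1
      exact ⟨ψ, by simp [F', e, sL_apply]⟩
    · rintro u v ⟨a, h1⟩ ⟨b, h2⟩
      exact ⟨a + b, by simp [h1, h2]⟩
    · rintro c u ⟨a, h1⟩
      exact ⟨c • a, by simp [h1]⟩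
    · rintro u v ⟨a, h1⟩ ⟨b, h2⟩
      exact ⟨_, by rw [ihara a b, LieHom.map_lie, h1, h2]; exact (sK_ihK _ _).symm⟩
  choose f hf using h1
  have hG : ∀ u, iota (f u) = G u := fun u => by simp [G, hf, sL_apply, sK_one]
  let F : LMot →ₗ[ℚ] FL :=
    { toFun := f
      map_add' := fun u v => iota_injective (by rw [map_add, hG, hG, hG, map_add])
      map_smul' := fun c u => iota_injective (by rw [map_smul, hG, hG, map_smul]; rfl) }
  have hF : ∀ u, iota (F u) = G u := hG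
  have Glie : ∀ u v, G ⁅u, v⁆ = ihK (G u) (G v) := fun u v => by
    rw [← hG u, ← hG v, ← sK_one (ihK _ _), sK_ihK]
    change F' ⁅u, v⁆ 1 = _
    rw [LieHom.map_lie, hf, hf]
    rfl
  have inj : Function.Injective F := by
    rw [injective_iff_map_eq_zero]
    intro u hu
    obtain ⟨m, hm, r, hr, e⟩ := exists_LZ u
    have e1 : (evW fun k => sK (evZ lt (σ k)) : W ℚ ℕ →ₐ[ℚ] End ℚ (W ℚ (Fin 2))).toLieHom.comp
        (FreeLieAlgebra.lift ℚ lt) = F' := FreeLieAlgebra.hom_ext fun i => by simp [F']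
    have e2 : evZ (fun k => sK (evZ (lt : Fin 2 → W ℚ (Fin 2)) (σ k))) r = 0 := by
      rw [← evW_evZ (R := ℚ), e, map_zsmul]
      change m • ((evW _ : W ℚ ℕ →ₐ[ℚ] _).toLieHom.comp (FreeLieAlgebra.lift ℚ lt)) u = 0
      rw [e1, hf, show f u = 0 from hu, map_zero, map_zero, smul_zero]
    have e3 := evZ_inter (evZ (lt : Fin 2 → W ℚ (Fin 2))).toAddMonoidHom
      (g := fun k => sK (σ k)) (g' := fun k => sK (evZ lt (σ k))) (fun k v => evZ_sK _ _) r 1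
    rw [e2, LinearMap.zero_apply] at e3
    have e4 := sigma_inj (fun k => (hσ k).2.2) hr (evZ_inj (e3.trans (map_zero _).symm))
    rw [e4, map_zero, eq_comm, smul_eq_zero] at e
    exact free_inj (e.resolve_left hm)
  have le : ∀ n, (degMot n).map F ≤ grt n := fun n => by
    rw [Submodule.map_le_iff_le_comap, degMot, Submodule.span_le]
    intro u hu
    have : G u ∈ GK ℚ n := by
      induction hu with
      | of k => rw [Gof]; exact (hσ k).1
      | lie a b h1 h2 => rw [Glie]; exact GK_ihK (IsBrMot.three a) (IsBrMot.three b) h1 h2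
    obtain ⟨ψ, hψ, e⟩ := exists_grt (IsBrMot.three hu) this
    obtain rfl : ψ = F u := iota_injective (e.trans (hF u).symm)
    exact hψ
  refine ⟨D, hD, F, inj, fun n => ?_, fun u v => iota_injective ?_, fun k => ?_⟩
  · rcases le_or_gt n 2 with hn | hn
    · exact le_antisymm (le n) (grt_small hn ▸ bot_le)
    · have : Module.Finite ℚ (grt n) := Module.rank_lt_aleph0_iff.1
        ((rank_grt_le (by omega)).trans_lt (Cardinal.natCast_lt_aleph0))
      refine Submodule.eq_of_le_of_finrank_le (le n) (Cardinal.toNat_le_toNat ?_ ?_)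
      · rw [rank_map_eq inj]; exact rank_grt_le_mot n
      · exact (Submodule.rank_mono (le n)).trans_lt (Module.rank_lt_aleph0 _ _)
  · rw [ihara, hF, hF, hF, Glie]
  · rw [hF, Gof, dep_evZ]
    exact_mod_cast (hσ k).2.1

/-- The Grothendieck-Teichmueller Lie algebra is free on one generator in each odd degree
at least three. -/
theorem deligne_drinfeld : ∃ D : FL → LieDerivation ℚ FL FL,
    (∀ ψ, D ψ genX = 0 ∧ D ψ genY = ⁅genY, ψ⁆) ∧
    ∃ F : LMot →ₗ[ℚ] FL, Function.Injective F ∧ (∀ n, (degMot n).map F = grt n) ∧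
      ∀ u v, F ⁅u, v⁆ = ⁅F u, F v⁆ + D (F u) (F v) - D (F v) (F u) := by
  obtain ⟨D, h, F, h1, h2, h3, -⟩ := deligne_drinfeld'
  exact ⟨D, h, F, h1, h2, h3⟩

end Pool.Agent.Lib.MP_446a91_nt
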