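import Pool.Agent.Lib.MP_446a91_nt.DD.KDefs
import Pool.Agent.Lib.MP_446a91_nt.DD.Pure
import Pool.Agent.Lib.MP_446a91_nt.CovCore
import Pool.Agent.Lib.MP_446a91_nt.CovDefs
import Pool.Agent.Lib.MP_446a91_nt.DD.LieEq

/-! Reduction modulo two of integral Lie polynomials (MP_446a91_nt). -/

namespace Pool.Agent.Lib.MP_446a91_nt.Desc

open Module

attribute [local instance 100] LieRing.ofAssociativeRing

noncomputable section

section ihara
variable {K : Type} [CommRing K] (p q : W K (Fin 2))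

theorem dK_der : IsDer (dK p) := der_isDer _
theorem dK_zero : dK p (lt 0) = 0 := der_lt _ 0
theorem dK_one : dK p (lt 1) = cm (lt 1) p := der_lt _ 1

theorem sK_one : sK p 1 = p := by simp [sK, (dK_der p).one]

theorem dK_add : dK (p + q) = dK p + dK q :=
  der_ext (dK_der _) (fun a b => by
      simp only [LinearMap.add_apply, dK_der p a b, dK_der q a b]; noncomm_ring)
    fun i => by
      fin_cases i
      · simp [dK_zero]
      · simp only [Fin.mk_one, LinearMap.add_apply, dK_one, cm]; noncomm_ring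

theorem dK_smul (c : K) : dK (c • p) = c • dK p :=
  der_ext (dK_der _) (fun a b => by
      simp only [LinearMap.smul_apply, dK_der p a b, smul_add, smul_mul_assoc, mul_smul_comm])
    fun i => by
      fin_cases i
      · simp [dK_zero]
      · simp [dK_one, cm, smul_sub]

/-- The Ihara action as a linear map. -/
def sL : W K (Fin 2) →ₗ[K] End K (W K (Fin 2)) where
  toFun := sK
  map_add' := fun p q => by simp only [sK, dK_add, map_add]; abel
  map_smul' := fun c p => by simp only [sK, dK_smul, map_smul, smul_add, RingHom.id_apply]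

theorem sL_apply : sL p = sK p := rfl

theorem dK_ihK : dK (ihK p q) = dK p * dK q - dK q * dK p :=
  der_ext (dK_der _) ((dK_der p).comm (dK_der q)) fun i => by
    fin_cases i
    · simp [dK_zero]
    · simp only [Fin.mk_one, LinearMap.sub_apply, End.mul_apply, dK_one, cm, map_sub,
        dK_der p _ _, dK_der q _ _, ihK, sK, LinearMap.add_apply, LM_apply]
      noncomm_ring

theorem sK_ihK : sK (ihK p q) = cm (sK p) (sK q) := by
  have h1 := (dK_der p).LM q
  have h2 := (dK_der q).LM p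
  have h3 : LM K (ihK p q) = LM K (dK p q) + LM K p * LM K q - (LM K (dK q p) + LM K q * LM K p) := by
    simp [ihK, sK]
  simp only [sK, dK_ihK, cm, h3]
  linear_combination (norm := noncomm_ring) h2 - h1

theorem evZ_dK (p q : W ℤ (Fin 2)) :
    evZ (lt : Fin 2 → W K (Fin 2)) (dK p q) = dK (evZ lt p) (evZ lt q) :=
  evZ_der _ _ (fun i => by fin_cases i <;> simp [map_cm]) q

theorem evZ_sK (p q : W ℤ (Fin 2)) :
    evZ (lt : Fin 2 → W K (Fin 2)) (sK p q) = sK (evZ lt p) (evZ lt q) := by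
  simp [sK, evZ_dK]

theorem evZ_ihK (p q : W ℤ (Fin 2)) :
    evZ (lt : Fin 2 → W K (Fin 2)) (ihK p q) = ihK (evZ lt p) (evZ lt q) := by
  simp [ihK, evZ_sK]

end ihara

section sgen
variable {R R' : Type} [Ring R] [Ring R']

theorem sgen_map (f : R →+* R') (c d : R) (i : ℕ) : f (sgen c d i) = sgen (f c) (f d) i := by
  induction i with
  | zero => rfl
  | succ i ih => rw [sgen, map_cm, ih, sgen]

theorem map_evZ_sgen (f : R →+* R') (c d : R) (r : W ℤ ℕ) :
    f (evZ (sgen c d) r) = evZ (sgen (f c) (f d)) r := by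
  rw [map_evZ]; congr 2; funext i; exact sgen_map f c d i

theorem comm_evZ {X : Type} {g : X → R} {z : R} (h : ∀ i, Commute z (g i)) (u : W ℤ X) :
    Commute z (evZ g u) := by
  induction u using W_ind with
  | one => simp
  | mul i u ih => rw [map_mul, evZ_lt]; exact (h i).mul_right ih
  | add u v h1 h2 => rw [map_add]; exact h1.add_right h2
  | smul r u ih => rw [map_zsmul]; exact ih.smul_right r

theorem comm_sgen {z c d : R} (hc : Commute z c) (hd : Commute z d) (i : ℕ) :
    Commute z (sgen c d i) := by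
  induction i with
  | zero => exact hd
  | succ i ih => exact (hc.mul_right ih).sub_right (ih.mul_right hc)

end sgen

theorem exists_half {X : Type} {v : W ℤ X} (h : ∀ w, Even (cf w v)) : ∃ v', v = 2 * v' := by
  choose c hc using h
  refine ⟨∑ w ∈ supp v, c w • wrd w, ?_⟩
  conv_lhs => rw [eq_sum v]
  rw [Finset.mul_sum]
  exact Finset.sum_congr rfl fun w _ => by rw [hc, add_smul, two_mul]

/-- `p` reduces to `r` modulo two and `[y, [x, y]]`. -/
def HH (p : W ℤ (Fin 2)) (r : W ℤ ℕ) : Prop :=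
  ∀ (R : Type) [Ring R] (x y : R), (2 : R) = 0 → cm y (cm x y) = 0 →
    ev2 x y p = evZ (sgen (cm x y) (cm x (cm x y))) r

section HH
variable {p q : W ℤ (Fin 2)} {r s : W ℤ ℕ}

theorem HH.zero : HH 0 0 := fun _ _ _ _ _ _ => by simp

theorem HH.add (h : HH p r) (h' : HH q s) : HH (p + q) (r + s) := fun R _ x y h1 h2 => by
  rw [map_add, map_add, h R x y h1 h2, h' R x y h1 h2]

theorem HH.neg (h : HH p r) : HH (-p) (-r) := fun R _ x y h1 h2 => by
  rw [map_neg, map_neg, h R x y h1 h2]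

theorem HH.sub (h : HH p r) (h' : HH q s) : HH (p - q) (r - s) := fun R _ x y h1 h2 => by
  rw [map_sub, map_sub, h R x y h1 h2, h' R x y h1 h2]

theorem HH.two (r : W ℤ ℕ) : HH 0 (2 * r) := fun R _ x y h1 _ => by
  rw [map_zero, map_mul, map_ofNat, h1, zero_mul]

theorem HH.ihK (h : HH p r) (h' : HH q s) : HH (ihK p q) (cm r s) := fun R _ x y h1 h2 => by
  have c1 : Commute y (cm x y) := sub_eq_zero.1 h2
  have c2 : Commute y (cm x (cm x y)) := by
    simp only [Commute, SemiconjBy, cm] at c1 ⊢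
    linear_combination (norm := noncomm_ring) x * c1 - c1 * x
  have key : ∀ {p r}, HH p r → ∀ q, ev2 x y (dK p q) = 0 := fun {p r} h q =>
    der_inter (ev2 x y) (dK_der p) (E := 0) (fun _ _ => by simp) (fun _ => rfl) (fun i => by
      fin_cases i
      · simp [dK_zero]
      · simp only [Fin.mk_one, dK_one, map_cm, ev2_one, h R x y h1 h2]
        exact sub_eq_zero.2 (comm_evZ (comm_sgen c1 c2) r).eq) q
  simp only [Pool.Agent.Lib.MP_446a91_nt.ihK, sK, LinearMap.add_apply, LM_apply, map_sub, map_add,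
    map_mul, key h, key h', zero_add, h R x y h1 h2, h' R x y h1 h2, map_cm]
  rfl

theorem two_End {X : Type} : (2 : End F2 (W F2 X)) = 0 :=
  one_add_one_eq_two.symm.trans (add_self2 _)

theorem cm_der {X : Type} (f : X → W F2 X) (a : W F2 X) :
    cm (der f) (LM F2 a) = LM F2 (der f a) := (der_isDer f).LM a

theorem HH.even_left (h : HH 0 r) (w : List ℕ) : Even (cf w r) := by
  have e1 : cm (LM F2 (lt 0 : W F2 (Fin 2))) (der ![-lt 1, 0]) = LM F2 (lt 1) := by
    have := cm_der ![-lt 1, 0] (lt 0 : W F2 (Fin 2))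
    simp only [cm, der_lt, Matrix.cons_val_zero, map_neg] at this ⊢
    linear_combination (norm := noncomm_ring) -this
  have h1 := h _ (LM F2 (lt 0 : W F2 (Fin 2))) (der ![-lt 1, 0]) two_End
    (by rw [e1, cm_der]; simp)
  have inj : ∀ {X : Type} (c d : W F2 X), evZ (sgen (LM F2 c) (LM F2 d)) r = 0 →
      evZ (sgen c d) r = 0 := fun c d h => by
    have := map_evZ_sgen (LM F2).toRingHom c d r
    simp only [AlgHom.toRingHom_eq_coe, RingHom.coe_coe] at this
    rw [h] at this
    simpa using LinearMap.congr_fun this 1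
  rw [map_zero, e1, ← map_cm] at h1
  have h2 := congrArg (evW (R := F2) ![(der ![lt 1, 0] : End F2 (W F2 (Fin 2))),
    LM F2 (lt 0)]).toRingHom (inj _ _ h1.symm)
  rw [map_evZ_sgen, map_zero, map_cm] at h2
  simp only [AlgHom.toRingHom_eq_coe, RingHom.coe_coe, evW_lt, Matrix.cons_val_zero,
    Matrix.cons_val_one, cm_der, der_lt] at h2
  have h3 := congrArg (evW (R := F2) ![(der fun i => lt (i + 1) : End F2 (W F2 ℕ)),
    LM F2 (lt 0)]).toRingHom (inj _ _ h2)
  rw [map_evZ_sgen, map_zero] at h3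
  simp only [AlgHom.toRingHom_eq_coe, RingHom.coe_coe, evW_lt, Matrix.cons_val_zero,
    Matrix.cons_val_one] at h3
  have e2 : sgen (der fun i => lt (i + 1) : End F2 (W F2 ℕ)) (LM F2 (lt 0)) =
      fun i => LM F2 (lt i) := by
    funext i
    induction i with
    | zero => rfl
    | succ i ih => rw [sgen, ih, cm_der, der_lt]
  refine even_of_evZ ?_ w
  rw [← evZ_LM (R := F2), ← e2, h3, LinearMap.zero_apply]

theorem HH.even_right {n : ℕ} (hn : 3 ≤ n) {ψ : FL} (hψ : ψ ∈ grt n) (hp : evZ lt p = iota ψ)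
    (h : HH p 0) (w : List (Fin 2)) : Even (cf w p) := by
  refine core hn hψ p hp (fun S _ P Q h2 _ => ?_) w
  have e1 : cm (LM F2 (lt 0 : W F2 (Fin 2))) (der ![lt 1, 0]) = LM F2 (-lt 1) := by
    have := cm_der ![lt 1, 0] (lt 0 : W F2 (Fin 2))
    simp only [cm, der_lt, Matrix.cons_val_zero, map_neg] at this ⊢
    linear_combination (norm := noncomm_ring) -this
  have h1 := h _ (LM F2 (lt 0 : W F2 (Fin 2))) (der ![lt 1, 0]) two_End
    (by rw [e1, cm_der]; simp)
  have h3 := evZ_inter (evZ (lt : Fin 2 → W F2 (Fin 2))).toAddMonoidHom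
    (g := ![LM ℤ (lt 0 : W ℤ (Fin 2)), der ![lt 1, 0]])
    (g' := ![LM F2 (lt 0 : W F2 (Fin 2)), der ![lt 1, 0]]) (fun i v => by
      fin_cases i
      · simp
      · exact evZ_der _ _ (fun i => by fin_cases i <;> simp) v) p 1
  rw [map_zero, ev2] at h1
  rw [h1, LinearMap.zero_apply] at h3
  obtain ⟨v, hv⟩ := exists_half (even_of_evZ h3)
  rw [hv, map_mul, map_ofNat, h2, zero_mul]

end HH

section LZ
variable {S : Type} {w : S → ℕ}

theorem LZ_induction {P : W ℤ S → Prop} {u : W ℤ S} (hu : u ∈ LZ w)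
    (h1 : ∀ n, ∀ u ∈ Sp lt w n, P u) (h2 : ∀ u v, P u → P v → P (u + v)) : P u := by
  let e : Polynomial (W ℤ S) →+* W ℤ S :=
    Polynomial.eval₂RingHom' (RingHom.id _) 1 fun a => Commute.one_right _
  have he : e (grW w u) = u :=
    ringHom_eq (φ := e.comp (grW w)) (φ' := RingHom.id _) (fun i => by simp [e, grW]) u
  rw [← he, (grW w u).as_sum_support, map_sum]
  refine Finset.sum_induction _ P h2 (h1 0 0 (zero_mem _)) fun n _ => h1 n _ ?_
  simpa [e] using hu n

theorem LZ_half {v : W ℤ S} (h : 2 * v ∈ LZ w) : v ∈ LZ w := fun n => pure (by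
  have := h n
  rwa [two_mul, map_add, Polynomial.coeff_add, ← two_mul] at this)

theorem eq_zero_of_halving {X : Type} {A : Set (W ℤ X)} (h : ∀ u ∈ A, ∃ v ∈ A, u = 2 * v) :
    ∀ u ∈ A, u = 0 := by
  have key : ∀ (x : List X) (m : ℕ), ∀ u ∈ A, (cf x u).natAbs ≤ m → cf x u = 0 := by
    intro x m
    induction m with
    | zero => intro u _ h; omega
    | succ m ih =>
      intro u hu hm
      obtain ⟨v, hv, rfl⟩ := h u hu
      rw [two_mul, map_add] at hm ⊢
      have := ih v hv (by omega)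
      omega
  exact fun u hu => cf_ext fun x => key x _ u hu le_rfl

/-- Clearing denominators. -/
theorem exists_int {A : AddSubgroup (W ℤ S)} {p : W ℚ S}
    (hp : p ∈ Submodule.span ℚ (evZ (lt : S → W ℚ S) '' A)) :
    ∃ m : ℤ, m ≠ 0 ∧ ∃ q ∈ A, evZ lt q = m • p := by
  induction hp using Submodule.span_induction with
  | mem u hu => obtain ⟨q, hq, rfl⟩ := hu; exact ⟨1, one_ne_zero, q, hq, by simp⟩
  | zero => exact ⟨1, one_ne_zero, 0, zero_mem _, by simp⟩
  | add u v _ _ h1 h2 =>
    obtain ⟨a, ha, q, hq, e⟩ := h1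
    obtain ⟨b, hb, q', hq', e'⟩ := h2
    refine ⟨a * b, mul_ne_zero ha hb, b • q + a • q', add_mem (zsmul_mem hq _) (zsmul_mem hq' _), ?_⟩
    rw [map_add, map_zsmul, map_zsmul, e, e', smul_add, smul_smul, smul_smul, mul_comm b a]
  | smul c u _ h =>
    obtain ⟨a, ha, q, hq, e⟩ := h
    refine ⟨c.den * a, mul_ne_zero (by exact_mod_cast c.den_ne_zero) ha, c.num • q,
      zsmul_mem hq _, ?_⟩
    rw [map_zsmul, e, ← Int.cast_smul_eq_zsmul ℚ, ← Int.cast_smul_eq_zsmul ℚ,
      ← Int.cast_smul_eq_zsmul ℚ, smul_smul, smul_smul]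
    congr 1
    push_cast
    rw [← Rat.mul_den_eq_num]; ring

end LZ

theorem exists_int2 {n : ℕ} {p : W ℚ (Fin 2)} (hp : p ∈ LK ℚ n) :
    ∃ m : ℤ, m ≠ 0 ∧ ∃ q ∈ L2 n, evZ lt q = m • p :=
  exists_int (A := L2 n) (LK_induction (P := fun p => p ∈ Submodule.span ℚ
      (evZ (lt : Fin 2 → W ℚ (Fin 2)) '' (L2 n : Set (W ℤ (Fin 2))))) hp
    (fun q hq => Submodule.subset_span ⟨q, hq, rfl⟩) (fun _ _ h1 h2 => add_mem h1 h2)
    fun c _ h => Submodule.smul_mem _ c h)

theorem mem_L2 {n : ℕ} {p : W ℤ (Fin 2)} (hp : evZ lt p ∈ LK ℚ n) : p ∈ L2 n := by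
  obtain ⟨m, hm, q, hq, e⟩ := exists_int2 hp
  rw [← map_zsmul] at e
  exact pure_zsmul hm (evZ_inj e ▸ hq)

section free
variable {K X : Type} [Field K]

theorem free_induction {P : FreeLieAlgebra K X → Prop} (u : FreeLieAlgebra K X)
    (h1 : ∀ i, P (FreeLieAlgebra.of K i)) (h0 : P 0) (h2 : ∀ u v, P u → P v → P (u + v))
    (h3 : ∀ (c : K) u, P u → P (c • u)) (h4 : ∀ u v, P u → P v → P ⁅u, v⁆) : P u := by
  let A : LieSubalgebra K (FreeLieAlgebra K X) :=
    { carrier := {u | P u}
      zero_mem' := h0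
      add_mem' := h2 _ _
      smul_mem' := h3
      lie_mem' := h4 _ _ }
  have : A.incl.comp (FreeLieAlgebra.lift K fun i => (⟨_, h1 i⟩ : A)) = LieHom.id :=
    FreeLieAlgebra.hom_ext fun i => by simp
  rw [← show _ = u from LieHom.congr_fun this u]
  exact Subtype.property (p := fun u => u ∈ A) _

/-- A free Lie algebra embeds in the free associative algebra. -/
theorem free_inj {u : FreeLieAlgebra K X} (h : FreeLieAlgebra.lift K (lt : X → W K X) u = 0) :
    u = 0 := by
  obtain ⟨A, _, _, ρ, hρ⟩ := PBW.exists_faithful K (FreeLieAlgebra K X)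
  have : (evW fun i => ρ (FreeLieAlgebra.of K i) : W K X →ₐ[K] A).toLieHom.comp
      (FreeLieAlgebra.lift K lt) = ρ := FreeLieAlgebra.hom_ext fun i => by simp
  refine hρ u ?_
  rw [← this, LieHom.comp_apply, h, map_zero]

end free

end

end Pool.Agent.Lib.MP_446a91_nt.Desc
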